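import Pool.Agent.H95.DCM.LLL

/-!
# Job DCM-8: a random pairing is simple with probability bounded below

`bad`: loops `{(o,i)}` with `src o = tgt i` and pairs of parallel edges `{(o,i),(o',i')}`.
With `m = card O`:
* `∑_{M ∈ bad} prob M ≤ (∑_v deg src v deg tgt v)/m + (∑ deg src v ^2)(∑ deg tgt v ^2)/(m (m-1))
  ≤ C / c + 2 (C / c)^2` for `m ≥ 2`;
* if `N ∈ bad` is incompatible with `M` then `N` contains a half-edge of `M` (at most 4 of them);
  for a fixed out-half-edge `o` with owner `u`,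
  `∑_{N ∈ bad, o ∈ N} prob N ≤ deg tgt u / m + deg src u (∑ deg tgt v ^2) / (m (m-1))`, similarly for
  in-half-edges; and `deg src u, deg tgt u ≤ √(C n)`, so the local sums tend to `0` as `n → ∞`;
* `1 - x ≥ exp (-2 x)` for `0 ≤ x ≤ 1/2`, so `∏ (1 - 2 prob M) ≥ exp (-4 ∑ prob M)`.
-/

open Finset

namespace H95.DCM

section bad

variable {V O I : Type} [Fintype V] [DecidableEq V] [Fintype O] [DecidableEq O] [Fintype I]
  [DecidableEq I] (src : O → V) (tgt : I → V)

/-- The loops. -/
def loops : Finset (Finset (O × I)) :=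
  (univ.filter fun p : O × I => src p.1 = tgt p.2).image fun p => {p}

/-- The pairs of parallel edges. -/
def pars : Finset (Finset (O × I)) :=
  (univ.filter fun q : (O × I) × (O × I) => q.1.1 ≠ q.2.1 ∧ q.1.2 ≠ q.2.2 ∧
    src q.1.1 = src q.2.1 ∧ tgt q.1.2 = tgt q.2.2).image fun q => {q.1, q.2}

theorem sum_owner (f : V → ℝ) : ∑ o, f (src o) = ∑ v, (deg src v : ℝ) * f v := by
  rw [← Finset.sum_fiberwise univ src]
  refine Finset.sum_congr rfl fun v _ => ?_
  unfold deg
  rw [Finset.sum_congr rfl (g := fun _ => f v)]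
  · rw [Finset.sum_const, nsmul_eq_mul]
  · intro o ho
    rw [(Finset.mem_filter.1 ho).2]

theorem card_pairs : (((univ.filter fun q : O × O => src q.1 = src q.2).card : ℕ) : ℝ)
    = ∑ v, (deg src v : ℝ) ^ 2 := by
  have h1 : (((univ.filter fun q : O × O => src q.1 = src q.2).card : ℕ) : ℝ)
      = ∑ o, (deg src (src o) : ℝ) := by
    rw [Finset.card_filter]
    push_cast
    rw [← Finset.univ_product_univ, Finset.sum_product]
    refine Finset.sum_congr rfl fun o _ => ?_
    unfold deg
    rw [Finset.card_filter]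
    push_cast
    refine Finset.sum_congr rfl fun o' _ => ?_
    simp only [eq_comm]
  rw [h1, sum_owner src (fun v => (deg src v : ℝ))]
  refine Finset.sum_congr rfl fun v _ => by ring

theorem card_loops_le : ((loops src tgt).card : ℝ) ≤ ∑ v, (deg src v : ℝ) * deg tgt v := by
  have h1 : (((univ.filter fun p : O × I => src p.1 = tgt p.2).card : ℕ) : ℝ)
      = ∑ o, (deg tgt (src o) : ℝ) := by
    rw [Finset.card_filter]
    push_cast
    rw [← Finset.univ_product_univ, Finset.sum_product]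
    refine Finset.sum_congr rfl fun o _ => ?_
    unfold deg
    rw [Finset.card_filter]
    push_cast
    refine Finset.sum_congr rfl fun o' _ => ?_
    simp only [eq_comm]
  rw [← sum_owner src (fun v => (deg tgt v : ℝ)), ← h1]
  exact_mod_cast Finset.card_image_le

theorem card_pars_le : ((pars src tgt).card : ℝ) ≤
    (∑ v, (deg src v : ℝ) ^ 2) * ∑ v, (deg tgt v : ℝ) ^ 2 := by
  rw [← card_pairs, ← card_pairs]
  have h1 : (pars src tgt).card ≤ ((univ.filter fun q : O × O => src q.1 = src q.2) ×ˢ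
      (univ.filter fun q : I × I => tgt q.1 = tgt q.2)).card := by
    refine Finset.card_image_le.trans ?_
    refine Finset.card_le_card_of_injOn (fun q => ((q.1.1, q.2.1), (q.1.2, q.2.2))) ?_ ?_
    · intro q hq
      have hq' := (Finset.mem_filter.1 (Finset.mem_coe.1 hq)).2
      simp only [Finset.coe_product, Set.mem_prod, Finset.mem_coe, Finset.mem_filter,
        Finset.mem_univ, true_and]
      exact ⟨hq'.2.2.1, hq'.2.2.2⟩
    · rintro ⟨⟨a, b⟩, ⟨c, d⟩⟩ _ ⟨⟨a', b'⟩, ⟨c', d'⟩⟩ _ h
      simp only [Prod.mk.injEq] at h ⊢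
      exact ⟨⟨h.1.1, h.2.1⟩, ⟨h.1.2, h.2.2⟩⟩
  rw [Finset.card_product] at h1
  exact_mod_cast h1

theorem mem_loops {N : Finset (O × I)} (h : N ∈ loops src tgt) :
    ∃ o i, src o = tgt i ∧ N = {(o, i)} := by
  obtain ⟨p, hp, rfl⟩ := Finset.mem_image.1 h
  exact ⟨p.1, p.2, (Finset.mem_filter.1 hp).2, rfl⟩

theorem mem_pars {N : Finset (O × I)} (h : N ∈ pars src tgt) :
    ∃ o i o' i', o ≠ o' ∧ i ≠ i' ∧ src o = src o' ∧ tgt i = tgt i' ∧ N = {(o, i), (o', i')} := by
  obtain ⟨q, hq, rfl⟩ := Finset.mem_image.1 h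
  obtain ⟨h1, h2, h3, h4⟩ := (Finset.mem_filter.1 hq).2
  exact ⟨q.1.1, q.1.2, q.2.1, q.2.2, h1, h2, h3, h4, rfl⟩

/-- Loops through a given out-half-edge. -/
theorem loops_out (o : O) :
    ((loops src tgt).filter fun N => ∃ i, (o, i) ∈ N).card ≤ deg tgt (src o) := by
  unfold deg
  refine (Finset.card_le_card (t := (univ.filter fun i => tgt i = src o).image
    fun i => ({(o, i)} : Finset (O × I))) ?_).trans Finset.card_image_le
  intro N hN
  obtain ⟨hN1, i, hi⟩ := Finset.mem_filter.1 hN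
  obtain ⟨o', i', h1, rfl⟩ := mem_loops src tgt hN1
  have h2 := Finset.mem_singleton.1 hi
  simp only [Prod.mk.injEq] at h2
  obtain ⟨rfl, rfl⟩ := h2
  exact Finset.mem_image.2 ⟨i, Finset.mem_filter.2 ⟨Finset.mem_univ _, h1.symm⟩, rfl⟩

/-- Loops through a given in-half-edge. -/
theorem loops_in (i : I) :
    ((loops src tgt).filter fun N => ∃ o, (o, i) ∈ N).card ≤ deg src (tgt i) := by
  unfold deg
  refine (Finset.card_le_card (t := (univ.filter fun o => src o = tgt i).image
    fun o => ({(o, i)} : Finset (O × I))) ?_).trans Finset.card_image_le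
  intro N hN
  obtain ⟨hN1, o, ho⟩ := Finset.mem_filter.1 hN
  obtain ⟨o', i', h1, rfl⟩ := mem_loops src tgt hN1
  have h2 := Finset.mem_singleton.1 ho
  simp only [Prod.mk.injEq] at h2
  obtain ⟨rfl, rfl⟩ := h2
  exact Finset.mem_image.2 ⟨o, Finset.mem_filter.2 ⟨Finset.mem_univ _, h1⟩, rfl⟩

/-- Pairs of parallel edges through a given out-half-edge. -/
theorem pars_out (o : O) : ((((pars src tgt).filter fun N => ∃ i, (o, i) ∈ N).card : ℕ) : ℝ) ≤
    deg src (src o) * ∑ v, (deg tgt v : ℝ) ^ 2 := by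
  rw [← card_pairs]
  unfold deg
  have key : ((pars src tgt).filter fun N => ∃ i, (o, i) ∈ N).card ≤
      ((univ.filter fun o' => src o' = src o) ×ˢ
        (univ.filter fun q : I × I => tgt q.1 = tgt q.2)).card := by
    refine (Finset.card_le_card (t := ((univ.filter fun o' => src o' = src o) ×ˢ
        (univ.filter fun q : I × I => tgt q.1 = tgt q.2)).image
      fun t => ({(o, t.2.1), (t.1, t.2.2)} : Finset (O × I))) ?_).trans Finset.card_image_le
    intro N hN
    obtain ⟨hN1, i, hi⟩ := Finset.mem_filter.1 hN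
    obtain ⟨o1, i1, o2, i2, h1, h2, h3, h4, rfl⟩ := mem_pars src tgt hN1
    have h5 := Finset.mem_insert.1 hi
    rcases h5 with h5 | h5
    · simp only [Prod.mk.injEq] at h5
      obtain ⟨rfl, rfl⟩ := h5
      exact Finset.mem_image.2 ⟨(o2, (i, i2)), Finset.mem_product.2
        ⟨Finset.mem_filter.2 ⟨Finset.mem_univ _, h3.symm⟩,
          Finset.mem_filter.2 ⟨Finset.mem_univ _, h4⟩⟩, rfl⟩
    · have h6 := Finset.mem_singleton.1 h5
      simp only [Prod.mk.injEq] at h6
      obtain ⟨rfl, rfl⟩ := h6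
      exact Finset.mem_image.2 ⟨(o1, (i, i1)), Finset.mem_product.2
        ⟨Finset.mem_filter.2 ⟨Finset.mem_univ _, h3⟩,
          Finset.mem_filter.2 ⟨Finset.mem_univ _, h4.symm⟩⟩, Finset.pair_comm _ _⟩
  rw [Finset.card_product] at key
  exact_mod_cast key

/-- Pairs of parallel edges through a given in-half-edge. -/
theorem pars_in (i : I) : ((((pars src tgt).filter fun N => ∃ o, (o, i) ∈ N).card : ℕ) : ℝ) ≤
    deg tgt (tgt i) * ∑ v, (deg src v : ℝ) ^ 2 := by
  rw [← card_pairs]
  unfold deg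
  have key : ((pars src tgt).filter fun N => ∃ o, (o, i) ∈ N).card ≤
      ((univ.filter fun i' => tgt i' = tgt i) ×ˢ
        (univ.filter fun q : O × O => src q.1 = src q.2)).card := by
    refine (Finset.card_le_card (t := ((univ.filter fun i' => tgt i' = tgt i) ×ˢ
        (univ.filter fun q : O × O => src q.1 = src q.2)).image
      fun t => ({(t.2.1, i), (t.2.2, t.1)} : Finset (O × I))) ?_).trans Finset.card_image_le
    intro N hN
    obtain ⟨hN1, o, ho⟩ := Finset.mem_filter.1 hN
    obtain ⟨o1, i1, o2, i2, h1, h2, h3, h4, rfl⟩ := mem_pars src tgt hN1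
    have h5 := Finset.mem_insert.1 ho
    rcases h5 with h5 | h5
    · simp only [Prod.mk.injEq] at h5
      obtain ⟨rfl, rfl⟩ := h5
      exact Finset.mem_image.2 ⟨(i2, (o, o2)), Finset.mem_product.2
        ⟨Finset.mem_filter.2 ⟨Finset.mem_univ _, h4.symm⟩,
          Finset.mem_filter.2 ⟨Finset.mem_univ _, h3⟩⟩, rfl⟩
    · have h6 := Finset.mem_singleton.1 h5
      simp only [Prod.mk.injEq] at h6
      obtain ⟨rfl, rfl⟩ := h6
      exact Finset.mem_image.2 ⟨(i1, (o, o1)), Finset.mem_product.2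
        ⟨Finset.mem_filter.2 ⟨Finset.mem_univ _, h4⟩,
          Finset.mem_filter.2 ⟨Finset.mem_univ _, h3.symm⟩⟩, Finset.pair_comm _ _⟩
  rw [Finset.card_product] at key
  exact_mod_cast key

theorem isPM_loop {N : Finset (O × I)} (h : N ∈ loops src tgt) : IsPM N := by
  obtain ⟨o, i, -, rfl⟩ := mem_loops src tgt h
  intro p hp q hq
  rw [Finset.mem_singleton] at hp hq
  rw [hp, hq]
  simp

theorem isPM_par {N : Finset (O × I)} (h : N ∈ pars src tgt) : IsPM N := by
  obtain ⟨o, i, o', i', h1, h2, -, -, rfl⟩ := mem_pars src tgt h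
  intro p hp q hq
  simp only [Finset.mem_insert, Finset.mem_singleton] at hp hq
  rcases hp with rfl | rfl <;> rcases hq with rfl | rfl <;> simp [h1, h2, h1.symm, h2.symm]

theorem prob_loop {N : Finset (O × I)} (h : N ∈ loops src tgt) (hm : 1 ≤ Fintype.card O) :
    prob N = 1 / (Fintype.card O : ℝ) := by
  obtain ⟨o, i, -, rfl⟩ := mem_loops src tgt h
  unfold prob
  rw [Finset.card_singleton]
  obtain ⟨k, hk⟩ := Nat.exists_eq_add_of_le hm
  rw [hk]
  have h1 : 1 + k - 1 = k := by omega
  have h2 : (1 + k).factorial = (1 + k) * k.factorial := by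
    rw [add_comm, Nat.factorial_succ]
  rw [h1, h2]
  have h3 : (k.factorial : ℝ) ≠ 0 := by exact_mod_cast k.factorial_ne_zero
  push_cast
  have h4 : (1 + (k : ℝ)) ≠ 0 := by positivity
  field_simp

theorem prob_par {N : Finset (O × I)} (h : N ∈ pars src tgt) (hm : 2 ≤ Fintype.card O) :
    prob N = 1 / ((Fintype.card O : ℝ) * ((Fintype.card O : ℝ) - 1)) := by
  obtain ⟨o, i, o', i', h1, h2, -, -, rfl⟩ := mem_pars src tgt h
  unfold prob
  have hne : ((o, i) : O × I) ≠ (o', i') := fun h => h1 (congrArg Prod.fst h)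
  rw [Finset.card_pair hne]
  obtain ⟨k, hk⟩ := Nat.exists_eq_add_of_le hm
  rw [hk]
  have h3 : 2 + k - 2 = k := by omega
  have h4 : (2 + k).factorial = (2 + k) * ((1 + k) * k.factorial) := by
    rw [add_comm 2 k, show k + 2 = (k + 1) + 1 by ring, Nat.factorial_succ, Nat.factorial_succ]
    ring
  rw [h3, h4]
  have h5 : (k.factorial : ℝ) ≠ 0 := by exact_mod_cast k.factorial_ne_zero
  push_cast
  have h6 : (1 + (k : ℝ)) ≠ 0 := by positivity
  have h7 : (2 + (k : ℝ)) ≠ 0 := by positivity
  have h8 : (2 + (k : ℝ) - 1) = 1 + k := by ring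
  rw [h8]
  field_simp

/-- Sums of `prob` over subfamilies. -/
theorem sum_prob_le (P : Finset (O × I) → Prop) [DecidablePred P] (hm : 2 ≤ Fintype.card O)
    {a b : ℝ} (ha : ((((loops src tgt).filter P).card : ℕ) : ℝ) ≤ a)
    (hb : ((((pars src tgt).filter P).card : ℕ) : ℝ) ≤ b) :
    ∑ N ∈ (loops src tgt ∪ pars src tgt).filter P, prob N ≤
      a / (Fintype.card O : ℝ) + b / ((Fintype.card O : ℝ) * ((Fintype.card O : ℝ) - 1)) := by
  have hm' : (2 : ℝ) ≤ (Fintype.card O : ℝ) := by exact_mod_cast hm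
  have hnn : ∀ N : Finset (O × I), 0 ≤ prob N := fun N => by unfold prob; positivity
  rw [Finset.filter_union]
  refine (Finset.sum_le_sum_of_subset_of_nonneg (t := (loops src tgt).filter P ∪
    (pars src tgt).filter P) (Finset.Subset.refl _) fun N _ _ => hnn N).trans ?_
  have h1 : ∑ N ∈ (loops src tgt).filter P ∪ (pars src tgt).filter P, prob N ≤
      ∑ N ∈ (loops src tgt).filter P, prob N + ∑ N ∈ (pars src tgt).filter P, prob N := by
    rw [← Finset.sum_union_inter]
    exact le_add_of_nonneg_right (Finset.sum_nonneg fun N _ => hnn N)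
  refine h1.trans (add_le_add ?_ ?_)
  · rw [Finset.sum_congr rfl fun N hN =>
      prob_loop src tgt (Finset.mem_filter.1 hN).1 (by omega), Finset.sum_const, nsmul_eq_mul,
      mul_one_div]
    exact div_le_div_of_nonneg_right ha (by linarith)
  · rw [Finset.sum_congr rfl fun N hN =>
      prob_par src tgt (Finset.mem_filter.1 hN).1 hm, Finset.sum_const, nsmul_eq_mul,
      mul_one_div]
    exact div_le_div_of_nonneg_right hb (mul_nonneg (by linarith) (by linarith))

end bad

theorem sum_biUnion_le' {α β : Type*} [DecidableEq α] [DecidableEq β] (s : Finset α)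
    (t : α → Finset β) (f : β → ℝ) (hf : ∀ b, 0 ≤ f b) :
    ∑ b ∈ s.biUnion t, f b ≤ ∑ a ∈ s, ∑ b ∈ t a, f b := by
  induction s using Finset.induction_on with
  | empty => simp
  | insert a s ha ih =>
    rw [Finset.biUnion_insert, Finset.sum_insert ha]
    have h1 := Finset.sum_union_inter (s₁ := t a) (s₂ := s.biUnion t) (f := f)
    have h2 : 0 ≤ ∑ b ∈ t a ∩ s.biUnion t, f b := Finset.sum_nonneg fun b _ => hf b
    linarith

theorem exp_le_one_sub {x : ℝ} (h0 : 0 ≤ x) (h1 : x ≤ 1 / 2) : Real.exp (-(2 * x)) ≤ 1 - x := by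
  have h2 : 1 + 2 * x ≤ Real.exp (2 * x) := by
    have := Real.add_one_le_exp (2 * x)
    linarith
  have h3 : 0 < 1 + 2 * x := by linarith
  rw [Real.exp_neg]
  have h4 : (Real.exp (2 * x))⁻¹ ≤ (1 + 2 * x)⁻¹ := inv_anti₀ h3 h2
  refine h4.trans ?_
  rw [inv_le_iff_one_le_mul₀ h3]
  nlinarith

open Classical in
theorem simple_bound (c C : ℝ) (hc : 0 < c) (hC : 0 < C) :
    ∃ κ : ℝ, 0 < κ ∧ ∃ n0 : ℕ, ∀ n ≥ n0, ∀ (V O I : Type) [Fintype V] [DecidableEq V]
      [Fintype O] [DecidableEq O] [Fintype I] [DecidableEq I] (src : O → V) (tgt : I → V),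
      Fintype.card O = Fintype.card I → c * n ≤ (Fintype.card O : ℝ) →
      ∑ v, (deg src v : ℝ) ^ 2 ≤ C * n → ∑ v, (deg tgt v : ℝ) ^ 2 ≤ C * n →
      κ * ((Fintype.card O).factorial : ℝ) ≤
        ((univ.filter fun π : O ≃ I => Simple src tgt π).card : ℝ) := by
  set K : ℝ := √C / c + 2 * C * √C / c ^ 2 with hK
  have hK0 : 0 ≤ K := by positivity
  refine ⟨Real.exp (-(4 * (C / c + 2 * (C / c) ^ 2))), Real.exp_pos _,
    ⌈4 / c⌉₊ + ⌈(16 * K) ^ 2⌉₊ + 1, ?_⟩
  intro n hn V O I _ _ _ _ _ _ src tgt hOI hcn hS hT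
  have hn1 : (1 : ℝ) ≤ n := by
    have : 1 ≤ n := by omega
    exact_mod_cast this
  have hn4 : 4 / c ≤ n := by
    have : ⌈4 / c⌉₊ ≤ n := by omega
    exact (Nat.le_ceil _).trans (by exact_mod_cast this)
  have hnK : (16 * K) ^ 2 ≤ n := by
    have : ⌈(16 * K) ^ 2⌉₊ ≤ n := by omega
    exact (Nat.le_ceil _).trans (by exact_mod_cast this)
  set m : ℝ := (Fintype.card O : ℝ) with hm
  have hm4 : (4 : ℝ) ≤ m := by
    have : 4 ≤ c * n := by
      rw [div_le_iff₀ hc] at hn4
      linarith
    linarith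
  have hmN : 2 ≤ Fintype.card O := by
    have : (2 : ℝ) ≤ (Fintype.card O : ℝ) := by rw [← hm]; linarith
    exact_mod_cast this
  have hn0 : (0 : ℝ) < n := by linarith
  have hcn0 : 0 < c * n := by positivity
  have hmm : c ^ 2 * n ^ 2 / 2 ≤ m * (m - 1) := by
    have h1 : m / 2 ≤ m - 1 := by linarith
    have h2 : c * n * (c * n / 2) ≤ m * (m - 1) := by
      refine mul_le_mul hcn (le_trans ?_ h1) (by positivity) (by linarith)
      linarith
    calc c ^ 2 * (n : ℝ) ^ 2 / 2 = c * n * (c * n / 2) := by ring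
      _ ≤ _ := h2
  have hmm0 : 0 < m * (m - 1) := mul_pos (by linarith) (by linarith)
  set B := loops src tgt ∪ pars src tgt with hB
  have hBPM : ∀ M ∈ B, IsPM M := by
    intro M hM
    rcases Finset.mem_union.1 hM with h | h
    · exact isPM_loop src tgt h
    · exact isPM_par src tgt h
  have hnn : ∀ N : Finset (O × I), 0 ≤ prob N := fun N => by unfold prob; positivity
  have hB4 : ∀ M ∈ B, prob M ≤ 1 / 4 := by
    intro M hM
    rcases Finset.mem_union.1 hM with h | h
    · rw [prob_loop src tgt h (by omega)]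
      exact one_div_le_one_div_of_le (by norm_num) hm4
    · rw [prob_par src tgt h hmN]
      refine one_div_le_one_div_of_le (by norm_num) ?_
      rw [← hm]
      nlinarith
  have hdegS : ∀ v, (deg src v : ℝ) ≤ √(C * n) := by
    intro v
    refine Real.le_sqrt_of_sq_le (le_trans ?_ hS)
    exact Finset.single_le_sum (f := fun v => (deg src v : ℝ) ^ 2) (fun v _ => sq_nonneg _)
      (Finset.mem_univ v)
  have hdegT : ∀ v, (deg tgt v : ℝ) ≤ √(C * n) := by
    intro v
    refine Real.le_sqrt_of_sq_le (le_trans ?_ hT)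
    exact Finset.single_le_sum (f := fun v => (deg tgt v : ℝ) ^ 2) (fun v _ => sq_nonneg _)
      (Finset.mem_univ v)
  -- the local bound
  set A : ℝ := √(C * n) / m + √(C * n) * (C * n) / (m * (m - 1)) with hA
  have hA16 : A ≤ 1 / 16 := by
    have hs : √(C * n) = √C * √n := Real.sqrt_mul hC.le _
    have hsn : (0 : ℝ) < √n := Real.sqrt_pos.2 hn0
    have hnn' : √(n : ℝ) * √n = n := Real.mul_self_sqrt hn0.le
    have h1 : √(C * n) / m ≤ √C / c / √n := by
      calc √(C * n) / m ≤ √(C * n) / (c * n) :=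
            div_le_div_of_nonneg_left (Real.sqrt_nonneg _) hcn0 hcn
        _ = √C / c / √n := by
          rw [hs]
          have hns : (n : ℝ) ≠ 0 := hn0.ne'
          rw [div_div, div_eq_div_iff (by positivity) (by positivity)]
          calc √C * √n * (c * √n) = √C * c * (√n * √n) := by ring
            _ = √C * (c * n) := by rw [hnn']; ring
    have h2 : √(C * n) * (C * n) / (m * (m - 1)) ≤ 2 * C * √C / c ^ 2 / √n := by
      calc √(C * n) * (C * n) / (m * (m - 1)) ≤ √(C * n) * (C * n) / (c ^ 2 * n ^ 2 / 2) :=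
            div_le_div_of_nonneg_left (by positivity) (by positivity) hmm
        _ = 2 * C * √C / c ^ 2 / √n := by
          rw [hs, div_div, div_eq_div_iff (by positivity) (by positivity)]
          calc √C * √n * (C * n) * (c ^ 2 * √n) = √C * C * c ^ 2 * n * (√n * √n) := by ring
            _ = 2 * C * √C * (c ^ 2 * n ^ 2 / 2) := by rw [hnn']; ring
    have h3 : A ≤ K / √n := by
      rw [hA, hK, add_div]
      exact add_le_add h1 h2
    refine h3.trans ?_
    have h4 : 16 * K ≤ √n := Real.le_sqrt_of_sq_le hnK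
    rw [div_le_div_iff₀ hsn (by norm_num)]
    linarith
  have hout : ∀ o : O, ∑ N ∈ B.filter (fun N => ∃ i, (o, i) ∈ N), prob N ≤ A := by
    intro o
    refine (sum_prob_le src tgt _ hmN (a := √(C * n)) (b := √(C * n) * (C * n)) ?_ ?_)
    · exact le_trans (by exact_mod_cast loops_out src tgt o) (hdegT _)
    · refine (pars_out src tgt o).trans ?_
      exact mul_le_mul (hdegS _) hT (Finset.sum_nonneg fun v _ => sq_nonneg _) (Real.sqrt_nonneg _)
  have hin : ∀ i : I, ∑ N ∈ B.filter (fun N => ∃ o, (o, i) ∈ N), prob N ≤ A := by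
    intro i
    refine (sum_prob_le src tgt _ hmN (a := √(C * n)) (b := √(C * n) * (C * n)) ?_ ?_)
    · exact le_trans (by exact_mod_cast loops_in src tgt i) (hdegS _)
    · refine (pars_in src tgt i).trans ?_
      exact mul_le_mul (hdegT _) hS (Finset.sum_nonneg fun v _ => sq_nonneg _) (Real.sqrt_nonneg _)
  have hloc : ∀ M ∈ B, ∑ N ∈ B.filter (fun N => ¬ IsPM (M ∪ N)), prob N ≤ 1 / 4 := by
    intro M hM
    have hsub : B.filter (fun N => ¬ IsPM (M ∪ N)) ⊆ M.biUnion (fun p =>
        B.filter (fun N => ∃ i, (p.1, i) ∈ N) ∪ B.filter (fun N => ∃ o, (o, p.2) ∈ N)) := by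
      intro N hN
      obtain ⟨hNB, hNM⟩ := Finset.mem_filter.1 hN
      have key : ∃ p ∈ M, ∃ q ∈ N, p.1 = q.1 ∨ p.2 = q.2 := by
        unfold IsPM at hNM
        push Not at hNM
        obtain ⟨p, hp, q, hq, hpq⟩ := hNM
        have hpq' : p.1 = q.1 ∨ p.2 = q.2 := by
          rcases hpq with h | h
          · exact Or.inl h.1
          · exact Or.inr h.2
        have hnot : ¬ (p.1 = q.1 ↔ p.2 = q.2) := by
          rcases hpq with h | h
          · exact fun h' => h.2 (h'.1 h.1)
          · exact fun h' => h.1 (h'.2 h.2)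
        rcases Finset.mem_union.1 hp with hp | hp <;> rcases Finset.mem_union.1 hq with hq | hq
        · exact absurd (hBPM M hM p hp q hq) hnot
        · exact ⟨p, hp, q, hq, hpq'⟩
        · exact ⟨q, hq, p, hp, hpq'.imp Eq.symm Eq.symm⟩
        · exact absurd (hBPM N hNB p hp q hq) hnot
      obtain ⟨p, hp, q, hq, h⟩ := key
      refine Finset.mem_biUnion.2 ⟨p, hp, ?_⟩
      rcases h with h | h
      · refine Finset.mem_union_left _ (Finset.mem_filter.2 ⟨hNB, q.2, ?_⟩)
        rw [h]; exact hq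
      · refine Finset.mem_union_right _ (Finset.mem_filter.2 ⟨hNB, q.1, ?_⟩)
        rw [h]; exact hq
    have hcardM : M.card ≤ 2 := by
      rcases Finset.mem_union.1 hM with h | h
      · obtain ⟨o, i, -, rfl⟩ := mem_loops src tgt h
        rw [Finset.card_singleton]; omega
      · obtain ⟨o, i, o', i', -, -, -, -, rfl⟩ := mem_pars src tgt h
        exact Finset.card_le_two
    have hA0 : 0 ≤ A := by
      rw [hA]
      have : 0 < m := by linarith
      positivity
    calc ∑ N ∈ B.filter (fun N => ¬ IsPM (M ∪ N)), prob N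
        ≤ ∑ N ∈ M.biUnion (fun p => B.filter (fun N => ∃ i, (p.1, i) ∈ N) ∪
            B.filter (fun N => ∃ o, (o, p.2) ∈ N)), prob N :=
          Finset.sum_le_sum_of_subset_of_nonneg hsub fun N _ _ => hnn N
      _ ≤ ∑ p ∈ M, ∑ N ∈ B.filter (fun N => ∃ i, (p.1, i) ∈ N) ∪
            B.filter (fun N => ∃ o, (o, p.2) ∈ N), prob N :=
          sum_biUnion_le' _ _ (fun N => prob N) hnn
      _ ≤ ∑ p ∈ M, (A + A) := by
          refine Finset.sum_le_sum fun p _ => ?_
          have h1 := Finset.sum_union_inter (s₁ := B.filter (fun N => ∃ i, (p.1, i) ∈ N))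
            (s₂ := B.filter (fun N => ∃ o, (o, p.2) ∈ N)) (f := fun N => prob N)
          have h2 : 0 ≤ ∑ N ∈ B.filter (fun N => ∃ i, (p.1, i) ∈ N) ∩
            B.filter (fun N => ∃ o, (o, p.2) ∈ N), prob N := Finset.sum_nonneg fun N _ => hnn N
          have h3 := hout p.1
          have h4 := hin p.2
          linarith
      _ = M.card * (A + A) := by rw [Finset.sum_const, nsmul_eq_mul]
      _ ≤ 2 * (A + A) := by
          refine mul_le_mul_of_nonneg_right ?_ (by linarith)
          exact_mod_cast hcardM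
      _ ≤ 1 / 4 := by linarith
  have hmain := lll hOI B hBPM hB4 hloc
  -- total sum
  have htot : ∑ M ∈ B, prob M ≤ C / c + 2 * (C / c) ^ 2 := by
    have h1 : ∑ M ∈ B, prob M ≤ (C * n) / m + (C * n) * (C * n) / (m * (m - 1)) := by
      have h2 := sum_prob_le src tgt (fun _ => True) hmN (a := C * n) (b := (C * n) * (C * n)) ?_ ?_
      · rwa [Finset.filter_true_of_mem fun _ _ => trivial] at h2
      · rw [Finset.filter_true_of_mem fun _ _ => trivial]
        refine (card_loops_le src tgt).trans ?_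
        calc ∑ v, (deg src v : ℝ) * deg tgt v
            ≤ ∑ v, ((deg src v : ℝ) ^ 2 + (deg tgt v : ℝ) ^ 2) / 2 := by
              refine Finset.sum_le_sum fun v _ => ?_
              nlinarith [sq_nonneg ((deg src v : ℝ) - deg tgt v)]
          _ = (∑ v, (deg src v : ℝ) ^ 2 + ∑ v, (deg tgt v : ℝ) ^ 2) / 2 := by
              rw [← Finset.sum_add_distrib, Finset.sum_div]
          _ ≤ C * n := by linarith
      · rw [Finset.filter_true_of_mem fun _ _ => trivial]
        refine (card_pars_le src tgt).trans ?_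
        exact mul_le_mul hS hT (Finset.sum_nonneg fun v _ => sq_nonneg _) (by positivity)
    refine h1.trans (add_le_add ?_ ?_)
    · calc C * n / m ≤ C * n / (c * n) := div_le_div_of_nonneg_left (by positivity) hcn0 hcn
        _ = C / c := by
          rw [mul_div_mul_right _ _ hn0.ne']
    · calc C * n * (C * n) / (m * (m - 1)) ≤ C * n * (C * n) / (c ^ 2 * n ^ 2 / 2) :=
            div_le_div_of_nonneg_left (by positivity) (by positivity) hmm
        _ = 2 * (C / c) ^ 2 := by field_simp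
  have hprod : Real.exp (-(4 * (C / c + 2 * (C / c) ^ 2))) ≤ ∏ M ∈ B, (1 - 2 * prob M) := by
    calc Real.exp (-(4 * (C / c + 2 * (C / c) ^ 2))) ≤ Real.exp (∑ M ∈ B, -(2 * (2 * prob M))) := by
          refine Real.exp_le_exp.2 ?_
          rw [Finset.sum_neg_distrib, ← Finset.mul_sum, ← Finset.mul_sum]
          linarith
      _ = ∏ M ∈ B, Real.exp (-(2 * (2 * prob M))) := Real.exp_sum _ _
      _ ≤ ∏ M ∈ B, (1 - 2 * prob M) := by
          refine Finset.prod_le_prod (fun M _ => (Real.exp_pos _).le) fun M hM => ?_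
          have := hB4 M hM
          exact exp_le_one_sub (by have := hnn M; linarith) (by linarith)
  have hfac : (0 : ℝ) < ((Fintype.card O).factorial : ℝ) := by
    exact_mod_cast (Fintype.card O).factorial_pos
  refine (mul_le_mul_of_nonneg_right hprod hfac.le).trans (hmain.trans ?_)
  have hsub : avoid B ⊆ univ.filter fun π : O ≃ I => Simple src tgt π := by
    intro π hπ
    have hπ' := (Finset.mem_filter.1 hπ).2
    refine Finset.mem_filter.2 ⟨Finset.mem_univ _, ?_, ?_⟩
    · intro o ho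
      obtain ⟨p, hp, hne⟩ := hπ' {(o, π o)} (Finset.mem_union_left _
        (Finset.mem_image.2 ⟨(o, π o), Finset.mem_filter.2 ⟨Finset.mem_univ _, ho⟩, rfl⟩))
      rw [Finset.mem_singleton.1 hp] at hne
      exact hne rfl
    · intro o o' h1 h2
      by_contra hoo
      obtain ⟨p, hp, hne⟩ := hπ' {(o, π o), (o', π o')} (Finset.mem_union_right _
        (Finset.mem_image.2 ⟨((o, π o), (o', π o')), Finset.mem_filter.2 ⟨Finset.mem_univ _,
          hoo, fun h => hoo (π.injective h), h1, h2⟩, rfl⟩))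
      rcases Finset.mem_insert.1 hp with h | h
      · rw [h] at hne; exact hne rfl
      · rw [Finset.mem_singleton.1 h] at hne; exact hne rfl
  exact_mod_cast Finset.card_le_card hsub

end H95.DCM
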