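import Mathlib

/-!
# Diameter of the critical directed configuration model (MP_269591_pr): definitions
-/

open Finset

namespace H95.DCM

section Graph

variable {V : Type*}

/-- `Step R k u v`: there is a directed walk with exactly `k` edges from `u` to `v`. -/
def Step (R : V → V → Prop) : ℕ → V → V → Prop
  | 0 => fun u v => u = v
  | (k + 1) => fun u v => ∃ w, Step R k u w ∧ R w v

/-- `u → v`: there is a directed path from `u` to `v`. -/
def Reaches (R : V → V → Prop) (u v : V) : Prop := ∃ k, Step R k u v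

/-- The distance `d(u,v)`: number of edges of a shortest directed path
(only meaningful if `Reaches R u v`). -/
noncomputable def dist (R : V → V → Prop) (u v : V) : ℕ := sInf {k | Step R k u v}

/-- The diameter `max {d(u,v) : u → v}`. -/
noncomputable def diam (R : V → V → Prop) : ℕ :=
  sSup {k | ∃ u v, Reaches R u v ∧ dist R u v = k}

/-- `v` reaches some vertex at distance more than `L`. -/
def FarOut (R : V → V → Prop) (L : ℕ) (v : V) : Prop :=
  ∃ w, Reaches R v w ∧ ∀ k ≤ L, ¬ Step R k v w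

/-- `v` is reached from some vertex at distance more than `L`. -/
def FarIn (R : V → V → Prop) (L : ℕ) (v : V) : Prop :=
  ∃ u, Reaches R u v ∧ ∀ k ≤ L, ¬ Step R k u v

end Graph

section Conf

variable {V O I : Type*}

/-- The directed multigraph of a pairing `π` of the out-half-edges `O` (owner `src`) with the
in-half-edges `I` (owner `tgt`). -/
def Adj (src : O → V) (tgt : I → V) (π : O ≃ I) (u v : V) : Prop :=
  ∃ o, src o = u ∧ tgt (π o) = v

/-- The pairing produces a simple digraph: no loops and no multiple edges. -/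
def Simple (src : O → V) (tgt : I → V) (π : O ≃ I) : Prop :=
  (∀ o, src o ≠ tgt (π o)) ∧ ∀ o o', src o = src o' → tgt (π o) = tgt (π o') → o = o'

/-- Number of half-edges with owner `v`. -/
def deg [Fintype O] [DecidableEq V] (f : O → V) (v : V) : ℕ :=
  (univ.filter fun o => f o = v).card

/-- Partial matching between `O` and `I`. -/
def IsPM (s : Finset (O × I)) : Prop := ∀ p ∈ s, ∀ q ∈ s, (p.1 = q.1 ↔ p.2 = q.2)

variable [Fintype O] [DecidableEq O] [Fintype I] [DecidableEq I]

/-- The pairings extending the partial matching `s`. -/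
def ext (s : Finset (O × I)) : Finset (O ≃ I) := univ.filter fun π => ∀ p ∈ s, π p.1 = p.2

/-- The in-half-edges not used by `s`. -/
def freeI (s : Finset (O × I)) : Finset I := univ.filter fun i => ∀ p ∈ s, p.2 ≠ i

/-- The out-half-edges not used by `s`. -/
def freeO (s : Finset (O × I)) : Finset O := univ.filter fun o => ∀ p ∈ s, p.1 ≠ o

end Conf

/-- The numerical parameters of the exploration: `q k` bounds the survival probability of one
half-edge for `k` generations, `c k` the expected number of steps. -/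
structure Num (L T : ℕ) (δ γ ρ : ℝ) (q c : ℕ → ℝ) : Prop where
  q0 : q 0 = 1
  q_nonneg : ∀ k, 0 ≤ q k
  q_le : ∀ k, q k ≤ 1
  qstep : ∀ k < L, (1 + γ) * (1 - q (k + 1)) ≤ 1 - q k * (1 + δ) + ρ * (q k) ^ 2
  γ0 : 0 ≤ γ
  hT : 2 ≤ (1 + γ) ^ T
  δ0 : 0 ≤ δ
  ρ0 : 0 ≤ ρ
  c0 : c 0 = 0
  cstep : ∀ k, c (k + 1) = 1 + (1 + δ) * c k

/-- State of an exploration from `v`: `s` revealed pairs, `D` discovered vertices, `P` pending
half-edges with their remaining depth. The exploration starts from the partial matching `s₀`, and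
no revealed pair has its target in `F` (`F` contains `v` and all vertices touched by `s₀`). -/
structure Inv {V O I : Type*} [DecidableEq V] [Fintype O] [DecidableEq O] [Fintype I]
    [DecidableEq I] (src : O → V) (tgt : I → V) (s₀ : Finset (O × I)) (F : Finset V) (v : V)
    (L : ℕ) (s : Finset (O × I)) (D : Finset V) (P : List (O × ℕ)) : Prop where
  pm : IsPM s
  sub : s₀ ⊆ s
  vD : v ∈ D
  inter : ∀ w ∈ D, w ∈ F → w = v
  src_mem : ∀ p ∈ s, p ∉ s₀ → src p.1 ∈ D
  tgt_mem : ∀ p ∈ s, p ∉ s₀ → tgt p.2 ∈ D ∧ tgt p.2 ∉ F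
  cardD : D.card + s₀.card ≤ s.card + 1
  nodup : (P.map Prod.fst).Nodup
  pend : ∀ x ∈ P, src x.1 ∈ D ∧ (∀ p ∈ s, p.1 ≠ x.1) ∧ x.2 ≤ L
  cover : ∀ o, src o ∈ D → (∃ i, (o, i) ∈ s) ∨ (∃ k, (o, k) ∈ P)
  depthD : ∀ w ∈ D, ∀ π ∈ ext s, ∃ k ≤ L, Step (Adj src tgt π) k v w
  depthP : ∀ x ∈ P, ∀ π ∈ ext s, ∃ k, k + x.2 ≤ L ∧ Step (Adj src tgt π) k v (src x.1)

end H95.DCM
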