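import Pool.Agent.H95.DCM.Law

/-!
# Job DCM-4: graph distances

`middle`: if `diam R ≥ h` then some `u → w` has `dist R u w ≥ h` (finite vertex set, so the set
in the definition of `diam` is finite and nonempty); take a shortest walk `x_0, ..., x_D`,
`D ≥ h`; its vertices are distinct and for `L < i < D - L` the vertex `x_i` satisfies
`FarIn R L x_i` (witness `x_0`: `d(x_0, x_i) = i > L`) and `FarOut R L x_i` (witness `x_D`).
-/

open Finset

namespace H95.DCM

section walks

variable {V : Type*}

theorem mid_step_add (R : V → V → Prop) (a : ℕ) {u x : V} (h1 : Step R a u x) :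
    ∀ (b : ℕ) {w : V}, Step R b x w → Step R (a + b) u w := by
  intro b
  induction b with
  | zero =>
    intro w h2
    have h2' : x = w := h2
    rw [← h2']
    exact h1
  | succ b ih =>
    intro w h2
    obtain ⟨y, hy1, hy2⟩ := h2
    exact ⟨y, ih hy1, hy2⟩

theorem mid_step_one (R : V → V → Prop) {u w : V} (h : R u w) : Step R 1 u w := ⟨u, rfl, h⟩

theorem mid_walk (R : V → V → Prop) : ∀ (k : ℕ) {u w : V}, Step R k u w →
    ∃ x : ℕ → V, x 0 = u ∧ x k = w ∧ ∀ i < k, R (x i) (x (i + 1)) := by
  intro k
  induction k with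
  | zero =>
    intro u w h
    exact ⟨fun _ => u, rfl, h, fun i hi => absurd hi (Nat.not_lt_zero i)⟩
  | succ k ih =>
    intro u w h
    obtain ⟨y, hy1, hy2⟩ := h
    obtain ⟨x, hx0, hxk, hx⟩ := ih hy1
    refine ⟨fun i => if i ≤ k then x i else w, by simp [hx0], by simp, ?_⟩
    intro i hi
    by_cases h1 : i + 1 ≤ k
    · have h2 : i ≤ k := by omega
      simp only [h1, h2, if_true]
      exact hx i (by omega)
    · have h2 : i = k := by omega
      subst h2
      simp only [le_refl, if_true, h1, if_false]
      rw [hxk]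
      exact hy2

theorem mid_seg (R : V → V → Prop) {x : ℕ → V} {D : ℕ} (hx : ∀ i < D, R (x i) (x (i + 1)))
    (i : ℕ) : ∀ k, i + k ≤ D → Step R k (x i) (x (i + k)) := by
  intro k
  induction k with
  | zero => intro _; rfl
  | succ k ih =>
    intro h
    exact ⟨x (i + k), ih (by omega), hx (i + k) (by omega)⟩

theorem mid_swap (R : V → V → Prop) : ∀ (k : ℕ) {u w : V}, Step R k u w →
    Step (fun a b => R b a) k w u := by
  intro k
  induction k with
  | zero => intro u w h; exact Eq.symm h
  | succ k ih =>
    intro u w h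
    obtain ⟨y, hy1, hy2⟩ := h
    have h1 : Step (fun a b => R b a) 1 w y := mid_step_one _ hy2
    have := mid_step_add _ 1 h1 k (ih hy1)
    rwa [add_comm] at this

theorem mid_swap_iff (R : V → V → Prop) (k : ℕ) (u w : V) :
    Step (fun a b => R b a) k u w ↔ Step R k w u :=
  ⟨fun h => mid_swap (fun a b => R b a) k h, fun h => mid_swap R k h⟩

theorem mid_dist_mem (R : V → V → Prop) {u w : V} (h : Reaches R u w) :
    Step R (dist R u w) u w := Nat.sInf_mem (s := {k | Step R k u w}) h

theorem mid_dist_le (R : V → V → Prop) {u w : V} {k : ℕ} (h : Step R k u w) : dist R u w ≤ k :=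
  Nat.sInf_le h

/-- A shortest walk. -/
theorem mid_geo (R : V → V → Prop) {u w : V} (h : Reaches R u w) :
    ∃ x : ℕ → V, x 0 = u ∧ x (dist R u w) = w ∧
      (∀ i k, i + k ≤ dist R u w → Step R k (x i) (x (i + k))) ∧
      (∀ i j, i ≤ j → j ≤ dist R u w → ∀ m, m < j - i → ¬ Step R m (x i) (x j)) := by
  obtain ⟨x, hx0, hxD, hx⟩ := mid_walk R _ (mid_dist_mem R h)
  refine ⟨x, hx0, hxD, fun i k hk => mid_seg R hx i k hk, ?_⟩
  intro i j hij hj m hm hs
  have h1 : Step R i u (x i) := by
    have := mid_seg R hx 0 i (by omega)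
    rw [zero_add, hx0] at this
    exact this
  have h2 : Step R (dist R u w - j) (x j) w := by
    have := mid_seg R hx j (dist R u w - j) (by omega)
    rw [show j + (dist R u w - j) = dist R u w by omega, hxD] at this
    exact this
  have h3 := mid_step_add R _ (mid_step_add R _ h1 m hs) _ h2
  have h4 := mid_dist_le R h3
  omega

theorem mid_inj (R : V → V → Prop) {u w : V} {x : ℕ → V}
    (hx : ∀ i j, i ≤ j → j ≤ dist R u w → ∀ m, m < j - i → ¬ Step R m (x i) (x j))
    {i j : ℕ} (hi : i ≤ dist R u w) (hj : j ≤ dist R u w) (h : x i = x j) : i = j := by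
  rcases lt_trichotomy i j with h1 | h1 | h1
  · exact absurd (show Step R 0 (x i) (x j) from h) (hx i j h1.le hj 0 (by omega))
  · exact h1
  · exact absurd (show Step R 0 (x j) (x i) from h.symm) (hx j i h1.le hi 0 (by omega))

end walks

variable {V : Type*} [Fintype V] [DecidableEq V]

omit [DecidableEq V] in
theorem mid_dist_lt_card (R : V → V → Prop) {u w : V} (h : Reaches R u w) :
    dist R u w < Fintype.card V := by
  classical
  obtain ⟨x, -, -, -, hx⟩ := mid_geo R h
  have h1 : (Finset.range (dist R u w + 1)).card ≤ (univ : Finset V).card := by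
    refine Finset.card_le_card_of_injOn x (fun i _ => Finset.mem_coe.2 (Finset.mem_univ _)) ?_
    intro i hi j hj hij
    have hi' := Finset.mem_range.1 (Finset.mem_coe.1 hi)
    have hj' := Finset.mem_range.1 (Finset.mem_coe.1 hj)
    exact mid_inj R hx (by omega) (by omega) hij
  rw [Finset.card_range, Finset.card_univ] at h1
  omega

omit [DecidableEq V] in
theorem mid_bdd (R : V → V → Prop) :
    BddAbove {k | ∃ u v : V, Reaches R u v ∧ dist R u v = k} := by
  refine ⟨Fintype.card V, ?_⟩
  rintro k ⟨u, w, h, rfl⟩
  exact (mid_dist_lt_card R h).le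

open Classical in
/-- A digraph of diameter at least `h` has at least `h - 2 L - 1` vertices that are far (more
than `L`) from some vertex in both directions. -/
theorem middle (R : V → V → Prop) (L h : ℕ) (hd : h ≤ diam R) :
    h ≤ (univ.filter fun v => FarOut R L v ∧ FarIn R L v).card + 2 * L + 1 := by
  by_cases hne : {k | ∃ u v : V, Reaches R u v ∧ dist R u v = k}.Nonempty
  · obtain ⟨u, w, hr, hD⟩ := Nat.sSup_mem hne (mid_bdd R)
    have hD' : dist R u w = diam R := hD
    obtain ⟨x, hx0, hxD, hseg, hx⟩ := mid_geo R hr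
    set D := dist R u w with hDdef
    have h1 : (Finset.Ioo L (D - L)).card ≤
        (univ.filter fun v => FarOut R L v ∧ FarIn R L v).card := by
      refine Finset.card_le_card_of_injOn x ?_ ?_
      · intro i hi
        have hi' := Finset.mem_Ioo.1 (Finset.mem_coe.1 hi)
        refine Finset.mem_coe.2 (Finset.mem_filter.2 ⟨Finset.mem_univ _, ?_, ?_⟩)
        · refine ⟨x D, ⟨D - i, ?_⟩, ?_⟩
          · have := hseg i (D - i) (by omega)
            rwa [show i + (D - i) = D by omega] at this
          · intro k hk
            exact hx i D (by omega) le_rfl k (by omega)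
        · refine ⟨x 0, ⟨i, ?_⟩, ?_⟩
          · have := hseg 0 i (by omega)
            rwa [zero_add] at this
          · intro k hk
            exact hx 0 i (by omega) (by omega) k (by omega)
      · intro i hi j hj hij
        have hi' := Finset.mem_Ioo.1 (Finset.mem_coe.1 hi)
        have hj' := Finset.mem_Ioo.1 (Finset.mem_coe.1 hj)
        exact mid_inj R hx (by omega) (by omega) hij
    rw [Nat.card_Ioo] at h1
    omega
  · rw [Set.not_nonempty_iff_eq_empty] at hne
    have h0 : diam R = 0 := by
      unfold diam
      rw [hne]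
      exact csSup_empty
    omega

omit [DecidableEq V] in
/-- The diameter is at most the number of vertices. -/
theorem diam_le_card (R : V → V → Prop) : diam R ≤ Fintype.card V := by
  by_cases hne : {k | ∃ u v : V, Reaches R u v ∧ dist R u v = k}.Nonempty
  · refine csSup_le hne ?_
    rintro k ⟨u, w, h, rfl⟩
    exact (mid_dist_lt_card R h).le
  · rw [Set.not_nonempty_iff_eq_empty] at hne
    have h0 : diam R = 0 := by
      unfold diam
      rw [hne]
      exact csSup_empty
    omega

omit [Fintype V] [DecidableEq V] in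
/-- Reversing all edges does not change the diameter. -/
theorem diam_swap (R : V → V → Prop) : diam (fun u v => R v u) = diam R := by
  have h1 : ∀ u w, Reaches (fun a b => R b a) u w ↔ Reaches R w u := fun u w =>
    exists_congr fun k => mid_swap_iff R k u w
  have h2 : ∀ u w, dist (fun a b => R b a) u w = dist R w u := by
    intro u w
    unfold dist
    congr 1
    ext k
    exact mid_swap_iff R k u w
  unfold diam
  congr 1
  ext k
  constructor
  · rintro ⟨u, w, hr, hk⟩
    exact ⟨w, u, (h1 u w).1 hr, by rw [← h2]; exact hk⟩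
  · rintro ⟨u, w, hr, hk⟩
    exact ⟨w, u, (h1 w u).2 hr, by rw [h2]; exact hk⟩

omit [DecidableEq V] in
/-- A lower bound for the diameter. -/
theorem le_diam (R : V → V → Prop) (h : ℕ) (u w : V) (hr : Reaches R u w)
    (hk : ∀ k < h, ¬ Step R k u w) : h ≤ diam R := by
  have h1 : h ≤ dist R u w := by
    by_contra hlt
    push Not at hlt
    exact hk _ hlt (mid_dist_mem R hr)
  exact h1.trans (le_csSup (mid_bdd R) ⟨u, w, hr, rfl⟩)

/-- The diameter of the digraph of a pairing is the diameter of its edge set. -/
theorem diamE_edges {n : ℕ} (d : Fin n → ℕ × ℕ) (π : OutH d ≃ InH d) :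
    diamE (edges d π) = diam (Adj (srcD d) (tgtD d) π) := by
  unfold diamE
  congr 1
  funext u v
  apply propext
  unfold edges Adj
  rw [Finset.mem_image]
  constructor
  · rintro ⟨o, -, ho⟩
    exact ⟨o, congrArg Prod.fst ho, congrArg Prod.snd ho⟩
  · rintro ⟨o, h1, h2⟩
    exact ⟨o, Finset.mem_univ _, Prod.ext h1 h2⟩

end H95.DCM
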