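import Pool.Agent.H95.DCM.Defs

/-!
# Job DCM-3: the numerical sequences

`T = L²`, `δ = a / L`, `γ = 1 / L²`, `q k = min 1 (B / (k + 1))` with `B = (2 + a) / ρ`,
`c k` defined by the recursion, `c k ≤ k (1 + δ)^k ≤ k e^a` for `k ≤ L`.
-/

open Finset

namespace H95.DCM

/-- the expected number of steps -/
noncomputable def cseq (δ : ℝ) : ℕ → ℝ
  | 0 => 0
  | (k + 1) => 1 + (1 + δ) * cseq δ k

lemma cseq_le (δ : ℝ) (hδ : 0 ≤ δ) (k : ℕ) : cseq δ k ≤ k * (1 + δ) ^ k := by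
  induction k with
  | zero => simp [cseq]
  | succ k ih =>
    have h1 : (1 : ℝ) ≤ (1 + δ) ^ (k + 1) := one_le_pow₀ (by linarith)
    have h2 : (1 + δ) * cseq δ k ≤ (1 + δ) * (k * (1 + δ) ^ k) :=
      mul_le_mul_of_nonneg_left ih (by linarith)
    have h3 : (1 + δ) * (k * (1 + δ) ^ k) = k * (1 + δ) ^ (k + 1) := by ring
    rw [h3] at h2
    show 1 + (1 + δ) * cseq δ k ≤ ((k + 1 : ℕ) : ℝ) * (1 + δ) ^ (k + 1)
    push_cast
    nlinarith

lemma qstep_aux (a ρ : ℝ) (ha : 0 < a) (hρ : 0 < ρ) (hρ1 : ρ ≤ 1) (L : ℕ) (hL2 : 2 ≤ L)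
    (hLa : 4 * a / ρ ≤ L) (k : ℕ) (hk : k < L) :
    (1 + 1 / (L : ℝ) ^ 2) * (1 - min 1 ((2 + a) / ρ / ((k + 1 : ℕ) + 1))) ≤
      1 - min 1 ((2 + a) / ρ / ((k : ℝ) + 1)) * (1 + a / L) +
        ρ * (min 1 ((2 + a) / ρ / ((k : ℝ) + 1))) ^ 2 := by
  set B : ℝ := (2 + a) / ρ with hB
  have hLpos : (0 : ℝ) < L := by exact_mod_cast (by omega : 0 < L)
  have hL2' : (2 : ℝ) ≤ L := by exact_mod_cast hL2
  have hBρ : ρ * B = 2 + a := by rw [hB]; field_simp
  have hB1 : 1 ≤ B := by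
    rw [hB, le_div_iff₀ hρ]; nlinarith
  have hBpos : 0 < B := by linarith
  have hδ : 0 ≤ a / L := by positivity
  have hn : (0 : ℝ) < (k : ℝ) + 1 := by positivity
  have hnL : (k : ℝ) + 1 ≤ L := by exact_mod_cast hk
  push_cast
  rcases le_or_gt (B / ((k : ℝ) + 1)) 1 with hx | hx
  · have hyx : B / ((k : ℝ) + 1 + 1) ≤ B / ((k : ℝ) + 1) :=
      div_le_div_of_nonneg_left hBpos.le hn (by linarith)
    rw [min_eq_right hx, min_eq_right (hyx.trans hx)]
    set n : ℝ := (k : ℝ) + 1 with hnn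
    have hy0 : 0 ≤ B / (n + 1) := by positivity
    have hn2 : (0 : ℝ) < n ^ 2 := by positivity
    have h1 : B / n - B / (n + 1) ≤ B / n ^ 2 := by
      have : B / n - B / (n + 1) = B / (n * (n + 1)) := by field_simp; ring
      rw [this]
      apply div_le_div_of_nonneg_left hBpos.le hn2
      nlinarith
    have h2 : a / L * (B / n) ≤ a * B / n ^ 2 := by
      have h : a / L ≤ a / n := div_le_div_of_nonneg_left ha.le hn hnL
      calc a / L * (B / n) ≤ a / n * (B / n) := by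
            apply mul_le_mul_of_nonneg_right h (by positivity)
        _ = a * B / n ^ 2 := by field_simp
    have h3 : 1 / (L : ℝ) ^ 2 ≤ 1 / n ^ 2 := by
      apply div_le_div_of_nonneg_left zero_le_one hn2
      nlinarith
    have h4 : ρ * (B / n) ^ 2 = (2 + a) * B / n ^ 2 := by
      rw [div_pow, ← hBρ]; ring
    have h5 : B / n ^ 2 + a * B / n ^ 2 + 1 / n ^ 2 ≤ (2 + a) * B / n ^ 2 := by
      rw [← add_div, ← add_div]
      apply div_le_div_of_nonneg_right _ hn2.le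
      nlinarith
    have hγ0 : 0 ≤ 1 / (L : ℝ) ^ 2 := by positivity
    have h6 : (1 + 1 / (L : ℝ) ^ 2) * (1 - B / (n + 1)) ≤ 1 - B / (n + 1) + 1 / (L : ℝ) ^ 2 := by
      nlinarith [mul_nonneg hγ0 hy0]
    rw [h4]
    have h7 : B / n * (1 + a / L) = B / n + a / L * (B / n) := by ring
    rw [h7]
    linarith
  · rw [min_eq_left hx.le]
    have hγ : 1 / (L : ℝ) ^ 2 ≤ 1 / 4 := by
      apply div_le_div_of_nonneg_left zero_le_one (by norm_num)
      nlinarith
    have hγ0 : 0 ≤ 1 / (L : ℝ) ^ 2 := by positivity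
    have hδ4 : a / L ≤ ρ / 4 := by
      rw [div_le_iff₀ hρ] at hLa
      rw [div_le_iff₀ hLpos]
      nlinarith
    rcases le_or_gt 1 (B / ((k : ℝ) + 1 + 1)) with hy | hy
    · rw [min_eq_left hy]
      nlinarith
    · rw [min_eq_right hy.le]
      set n : ℝ := (k : ℝ) + 1 with hnn
      have hn1 : 0 < n + 1 := by linarith
      have hBn : n < B := by rwa [lt_div_iff₀ hn, one_mul] at hx
      have hBn1 : B < n + 1 := by rwa [div_lt_iff₀ hn1, one_mul] at hy
      have h1 : 1 - B / (n + 1) ≤ 1 / B := by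
        have : 1 - B / (n + 1) = (n + 1 - B) / (n + 1) := by field_simp
        rw [this]
        calc (n + 1 - B) / (n + 1) ≤ 1 / (n + 1) :=
              div_le_div_of_nonneg_right (by linarith) hn1.le
          _ ≤ 1 / B := div_le_div_of_nonneg_left zero_le_one hBpos hBn1.le
      have h2 : 1 / B ≤ ρ / 2 := by
        rw [div_le_div_iff₀ hBpos (by norm_num)]
        nlinarith
      have h3 : 0 ≤ 1 - B / (n + 1) := by linarith
      have h4 : (1 + 1 / (L : ℝ) ^ 2) * (1 - B / (n + 1)) ≤ (1 + 1 / 4) * (ρ / 2) :=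
        mul_le_mul (by linarith) (h1.trans h2) h3 (by norm_num)
      nlinarith

theorem exists_num (a ρ : ℝ) (ha : 0 < a) (hρ : 0 < ρ) (hρ1 : ρ ≤ 1) :
    ∃ K : ℝ, 0 < K ∧ ∃ L0 : ℕ, 1 ≤ L0 ∧ ∀ L ≥ L0, ∃ (γ : ℝ) (q c : ℕ → ℝ),
      Num L (L ^ 2) (a / L) γ ρ q c ∧ q L ≤ K / L ∧ c L ≤ K * L ∧ (1 + a / L) ^ L ≤ K := by
  have hBpos : 0 < (2 + a) / ρ := by positivity
  have hB1 : 1 ≤ (2 + a) / ρ := by
    rw [le_div_iff₀ hρ]; nlinarith
  refine ⟨(2 + a) / ρ + Real.exp a, by positivity, max 2 ⌈4 * a / ρ⌉₊, by omega, ?_⟩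
  intro L hL
  have hL2 : 2 ≤ L := le_trans (le_max_left _ _) hL
  have hLa : 4 * a / ρ ≤ L := (Nat.le_ceil _).trans (by exact_mod_cast le_trans (le_max_right _ _) hL)
  have hLpos : (0 : ℝ) < L := by exact_mod_cast (by omega : 0 < L)
  have hpow : (1 + a / L) ^ L ≤ Real.exp a := by
    have h1 : 1 + a / L ≤ Real.exp (a / L) := by
      have := Real.add_one_le_exp (a / L); linarith
    calc (1 + a / L) ^ L ≤ (Real.exp (a / L)) ^ L := pow_le_pow_left₀ (by positivity) h1 L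
      _ = Real.exp a := by
        rw [← Real.exp_nat_mul]
        congr 1
        field_simp
  refine ⟨1 / (L : ℝ) ^ 2, fun k => min 1 ((2 + a) / ρ / ((k : ℝ) + 1)), cseq (a / L),
    ⟨?_, ?_, ?_, ?_, ?_, ?_, ?_, ?_, ?_, ?_⟩, ?_, ?_, ?_⟩
  · simp only [Nat.cast_zero, zero_add, div_one]
    exact min_eq_left hB1
  · intro k
    exact le_min zero_le_one (by positivity)
  · intro k
    exact min_le_left _ _
  · intro k hk
    exact qstep_aux a ρ ha hρ hρ1 L hL2 hLa k hk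
  · positivity
  · have h := one_add_mul_le_pow (a := 1 / (L : ℝ) ^ 2) (by
      have : (0 : ℝ) ≤ 1 / (L : ℝ) ^ 2 := by positivity
      linarith) (L ^ 2)
    have h2 : (1 : ℝ) + ((L ^ 2 : ℕ) : ℝ) * (1 / (L : ℝ) ^ 2) = 2 := by
      push_cast
      field_simp
      norm_num
    rw [h2] at h
    exact h
  · positivity
  · exact hρ.le
  · rfl
  · intro k; rfl
  · refine (min_le_right _ _).trans ?_
    calc (2 + a) / ρ / ((L : ℝ) + 1) ≤ (2 + a) / ρ / L :=
          div_le_div_of_nonneg_left hBpos.le hLpos (by linarith)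
      _ ≤ ((2 + a) / ρ + Real.exp a) / L :=
          div_le_div_of_nonneg_right (by linarith [Real.exp_pos a]) hLpos.le
  · have h1 := cseq_le (a / L) (by positivity) L
    calc cseq (a / L) L ≤ L * (1 + a / L) ^ L := h1
      _ ≤ L * Real.exp a := mul_le_mul_of_nonneg_left hpow hLpos.le
      _ ≤ ((2 + a) / ρ + Real.exp a) * L := by nlinarith [Real.exp_pos a]
  · linarith

end H95.DCM
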