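import Pool.Agent.H95.DCM.Mid
import Pool.Agent.H95.DCM.NumEx
import Pool.Agent.H95.DCM.Middle

/-!
# Job DCM-5: the diameter of the configuration model of a good degree sequence

Proof. `L = ⌊n^{1/3}⌋`, `T = L²`; `m = card O` satisfies `c n ≤ m` (each of the `≥ c n` vertices
of `br1` owns an out-half-edge), so `m ≥ c L³`. Take `ρ = c / (2 C)` (and `≤ 1`: enlarge `C`),
`a` with `m + C n^{2/3} ≤ (1 + a/L)(m - 2 L²)` for all large `n` (`n^{2/3} ≤ 4 L²`), apply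
`exists_num` and `mid_bound`; summing over `v` gives
`∑_v #{π | FarOut ∧ FarIn} ≤ m! (m + C n^{2/3}) K' / L²`. By `middle` and double counting,
`#{π | diam ≥ h} (h - 2 L - 1) ≤ m! K'' L`, and for `h ≥ 6 L` this is `≤ m! K''' L / h`.
For `A < 7` or small `n` choose `K` large (`#{..} ≤ m!`).
-/

open Finset

namespace H95.DCM

/-- Good degree sequences (deterministic). -/
structure Good {V O I : Type*} [Fintype V] [DecidableEq V] [Fintype O] [Fintype I]
    (c C : ℝ) (n : ℕ) (src : O → V) (tgt : I → V) : Prop where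
  hOI : Fintype.card O = Fintype.card I
  hV : Fintype.card V = n
  upper : (Fintype.card O : ℝ) ≤ C * n
  crit : ∑ v, (deg tgt v : ℝ) * (deg src v : ℝ) ≤ Fintype.card O + C * (n : ℝ) ^ ((2 : ℝ) / 3)
  br1 : c * n ≤ ((univ.filter fun v => 1 ≤ deg tgt v ∧ 2 ≤ deg src v).card : ℝ)
  br2 : c * n ≤ ((univ.filter fun v => 1 ≤ deg src v ∧ 2 ≤ deg tgt v).card : ℝ)

/-- The cube root of `n`, its floor `L` and the bounds used below. -/
theorem cuberoot_facts (L1 n : ℕ) (hL1 : 1 ≤ L1) (hn : L1 ^ 3 ≤ n) :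
    ∃ L : ℕ, L1 ≤ L ∧ (L : ℝ) ≤ (n : ℝ) ^ ((1 : ℝ) / 3) ∧ (L : ℝ) ^ 3 ≤ n ∧
      (n : ℝ) ≤ 8 * (L : ℝ) ^ 3 ∧ (n : ℝ) ^ ((2 : ℝ) / 3) ≤ 4 * (L : ℝ) ^ 2 := by
  have hn0 : (0 : ℝ) ≤ n := Nat.cast_nonneg n
  set x : ℝ := (n : ℝ) ^ ((1 : ℝ) / 3) with hx
  have hx0 : 0 ≤ x := Real.rpow_nonneg hn0 _
  have hx3 : x ^ 3 = n := by
    rw [hx, ← Real.rpow_natCast, ← Real.rpow_mul hn0]; norm_num
  have hx2 : (n : ℝ) ^ ((2 : ℝ) / 3) = x ^ 2 := by
    rw [hx, ← Real.rpow_natCast, ← Real.rpow_mul hn0]; norm_num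
  have hL1x : (L1 : ℝ) ≤ x := by
    by_contra hlt
    push Not at hlt
    have h1 : x ^ 3 < (L1 : ℝ) ^ 3 := pow_lt_pow_left₀ hlt hx0 (by norm_num)
    rw [hx3] at h1
    have h2 : (L1 : ℝ) ^ 3 ≤ n := by exact_mod_cast hn
    linarith
  have hfl : (⌊x⌋₊ : ℝ) ≤ x := Nat.floor_le hx0
  have hfl2 : x < (⌊x⌋₊ : ℝ) + 1 := Nat.lt_floor_add_one x
  have hLL : L1 ≤ ⌊x⌋₊ := Nat.le_floor hL1x
  have h1L : (1 : ℝ) ≤ (⌊x⌋₊ : ℝ) := by exact_mod_cast le_trans hL1 hLL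
  have hx2L : x ≤ 2 * (⌊x⌋₊ : ℝ) := by linarith
  refine ⟨⌊x⌋₊, hLL, hfl, ?_, ?_, ?_⟩
  · rw [← hx3]; exact pow_le_pow_left₀ (by positivity) hfl 3
  · rw [← hx3]
    calc x ^ 3 ≤ (2 * (⌊x⌋₊ : ℝ)) ^ 3 := pow_le_pow_left₀ hx0 hx2L 3
      _ = 8 * (⌊x⌋₊ : ℝ) ^ 3 := by ring
  · rw [hx2]
    calc x ^ 2 ≤ (2 * (⌊x⌋₊ : ℝ)) ^ 2 := pow_le_pow_left₀ hx0 hx2L 2
      _ = 4 * (⌊x⌋₊ : ℝ) ^ 2 := by ring

open Classical in
theorem diam_bound (c C : ℝ) (hc : 0 < c) (hC : 0 < C) :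
    ∃ K : ℝ, 0 < K ∧ ∃ n0 : ℕ, ∀ n ≥ n0, ∀ (V O I : Type) [Fintype V] [DecidableEq V]
      [Fintype O] [DecidableEq O] [Fintype I] [DecidableEq I] (src : O → V) (tgt : I → V),
      Good c C n src tgt → ∀ A : ℝ, 0 < A →
      ((univ.filter fun π : O ≃ I =>
        A * (n : ℝ) ^ ((1 : ℝ) / 3) < (diam (Adj src tgt π) : ℝ)).card : ℝ) ≤
        (K / A) * ((Fintype.card O).factorial : ℝ) := by
  obtain ⟨a, hadef⟩ : ∃ a : ℝ, a = (8 * C + 4) / c := ⟨_, rfl⟩
  have ha : 0 < a := by rw [hadef]; positivity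
  obtain ⟨ρ, hρdef⟩ : ∃ ρ : ℝ, ρ = min 1 (c / (2 * C)) := ⟨_, rfl⟩
  have hρ : 0 < ρ := by rw [hρdef]; exact lt_min one_pos (by positivity)
  have hρ1 : ρ ≤ 1 := by rw [hρdef]; exact min_le_left _ _
  have hρ2 : ρ ≤ c / (2 * C) := by rw [hρdef]; exact min_le_right _ _
  obtain ⟨K1, hK1, L0, hL0, hnum⟩ := exists_num a ρ ha hρ hρ1
  obtain ⟨K2, hK2def⟩ : ∃ K2 : ℝ, K2 = 4 * K1 ^ 2 + 2 * K1 * (K1 + 1) / c := ⟨_, rfl⟩
  have hK2 : 0 < K2 := by rw [hK2def]; positivity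
  obtain ⟨K3, hK3def⟩ : ∃ K3 : ℝ, K3 = 12 * C * K2 := ⟨_, rfl⟩
  have hK3 : 0 < K3 := by rw [hK3def]; positivity
  obtain ⟨L1, hL1⟩ : ∃ L1 : ℕ, 8 / c + 1 ≤ (L1 : ℝ) := exists_nat_ge _
  refine ⟨6 + 2 * K3, by positivity, (max L0 L1) ^ 3, ?_⟩
  intro n hn V O I _ _ _ _ _ _ src tgt hG A hA
  have hcardE : (Fintype.card (O ≃ I) : ℝ) = ((Fintype.card O).factorial : ℝ) := by
    rw [Fintype.card_equiv (Fintype.equivOfCardEq hG.hOI)]
  have htriv : ((univ.filter fun π : O ≃ I =>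
      A * (n : ℝ) ^ ((1 : ℝ) / 3) < (diam (Adj src tgt π) : ℝ)).card : ℝ) ≤
      ((Fintype.card O).factorial : ℝ) := by
    rw [← hcardE]
    exact_mod_cast Finset.card_le_univ _
  have hfac : (0 : ℝ) < ((Fintype.card O).factorial : ℝ) := by positivity
  by_cases hA6 : A < 6
  · refine htriv.trans ?_
    have : 1 ≤ (6 + 2 * K3) / A := by
      rw [le_div_iff₀ hA]; linarith
    nlinarith
  push Not at hA6
  obtain ⟨L, hLL, hLx, hL3, hn8, hn4⟩ := cuberoot_facts (max L0 L1) n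
    (le_trans hL0 (le_max_left _ _)) hn
  have hLL0 : L0 ≤ L := le_trans (le_max_left _ _) hLL
  have hLL1 : (8 / c + 1 : ℝ) ≤ L := by
    refine hL1.trans ?_
    exact_mod_cast le_trans (le_max_right _ _) hLL
  have hL1' : (1 : ℝ) ≤ L := by
    have : (0 : ℝ) < 8 / c := by positivity
    linarith
  have hLpos : (0 : ℝ) < L := by linarith
  have hcL : 8 ≤ c * L := by
    have h1 : 8 / c ≤ (L : ℝ) := by linarith
    rw [div_le_iff₀ hc] at h1
    linarith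
  obtain ⟨γ, q, cc, hNum, hq, hcc, hpow⟩ := hnum L hLL0
  set m : ℝ := (Fintype.card O : ℝ) with hm
  -- number of half-edges
  have hm_lower : c * n ≤ m := by
    refine hG.br1.trans ?_
    rw [hm]
    norm_cast
    have hsub : (univ.filter fun v => 1 ≤ deg tgt v ∧ 2 ≤ deg src v) ⊆ (univ : Finset O).image src := by
      intro v hv
      rw [Finset.mem_filter] at hv
      have h2 : 0 < (univ.filter fun o => src o = v).card := by
        have := hv.2.2
        unfold deg at this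
        omega
      obtain ⟨o, ho⟩ := Finset.card_pos.mp h2
      rw [Finset.mem_filter] at ho
      exact Finset.mem_image.mpr ⟨o, Finset.mem_univ _, ho.2⟩
    exact (Finset.card_le_card hsub).trans (Finset.card_image_le.trans (le_of_eq Finset.card_univ))
  have hmL : c * (L : ℝ) ^ 3 ≤ m := le_trans (by nlinarith) hm_lower
  have hL2 : (1 : ℝ) ≤ (L : ℝ) ^ 2 := by nlinarith
  have h8 : 8 * (L : ℝ) ^ 2 ≤ c * (L : ℝ) ^ 3 := by
    have : c * (L : ℝ) ^ 3 = (c * L) * (L : ℝ) ^ 2 := by ring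
    rw [this]
    exact mul_le_mul_of_nonneg_right hcL (by positivity)
  have hmT : c / 2 * (L : ℝ) ^ 3 ≤ m - 2 * (L : ℝ) ^ 2 := by nlinarith
  have hmT0 : 0 < m - 2 * (L : ℝ) ^ 2 := lt_of_lt_of_le (by positivity) hmT
  have hTm : 2 * L ^ 2 < Fintype.card O := by
    have : (2 * (L : ℝ) ^ 2) < m := by linarith
    rw [hm] at this
    exact_mod_cast this
  have hρm : ρ * m ≤ c * n / 2 := by
    calc ρ * m ≤ c / (2 * C) * m := mul_le_mul_of_nonneg_right hρ2 (by positivity)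
      _ ≤ c / (2 * C) * (C * n) := mul_le_mul_of_nonneg_left hG.upper (by positivity)
      _ = c * n / 2 := by field_simp
  have hcn : c * (L : ℝ) ^ 3 ≤ c * n := mul_le_mul_of_nonneg_left hL3 hc.le
  have hthr : ρ * m ≤ c * n - (2 * (L : ℝ) ^ 2 + 2) := by nlinarith
  have hQ : ∑ v, (deg tgt v : ℝ) * (deg src v : ℝ) ≤
      (1 + a / L) * ((Fintype.card O : ℝ) - 2 * ((L ^ 2 : ℕ) : ℝ)) := by
    refine hG.crit.trans ?_
    rw [← hm]
    push_cast
    have h1 : C * (n : ℝ) ^ ((2 : ℝ) / 3) ≤ 4 * C * (L : ℝ) ^ 2 := by nlinarith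
    have h2 : a / L * (c / 2 * (L : ℝ) ^ 3) ≤ a / L * (m - 2 * (L : ℝ) ^ 2) :=
      mul_le_mul_of_nonneg_left hmT (by positivity)
    have h3 : a / L * (c / 2 * (L : ℝ) ^ 3) = (4 * C + 2) * (L : ℝ) ^ 2 := by
      rw [hadef]; field_simp; ring
    nlinarith
  have hmid : ∀ v : V, ((univ.filter fun π : O ≃ I =>
      FarOut (Adj src tgt π) L v ∧ FarIn (Adj src tgt π) L v).card : ℝ) ≤
      ((Fintype.card O).factorial : ℝ) * ((deg src v : ℝ) * (deg tgt v : ℝ) *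
        (K2 / (L : ℝ) ^ 2)) := by
    intro v
    have h := mid_bound src tgt hG.hOI hNum hTm hQ
      (by
        have := hG.br1
        push_cast
        rw [← hm]
        linarith)
      (by
        have := hG.br2
        push_cast
        rw [← hm]
        linarith) v
    refine h.trans ?_
    refine mul_le_mul_of_nonneg_left ?_ (by positivity)
    refine mul_le_mul_of_nonneg_left ?_ (by positivity)
    have hq0 := hNum.q_nonneg L
    have h1 : 4 * (q L) ^ 2 ≤ 4 * K1 ^ 2 / (L : ℝ) ^ 2 := by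
      have : (q L) ^ 2 ≤ (K1 / L) ^ 2 := pow_le_pow_left₀ hq0 hq 2
      rw [div_pow] at this
      calc 4 * (q L) ^ 2 ≤ 4 * (K1 ^ 2 / (L : ℝ) ^ 2) := by linarith
        _ = 4 * K1 ^ 2 / (L : ℝ) ^ 2 := by ring
    have h2 : cc L * ((1 + a / L) ^ L + 1) / ((Fintype.card O : ℝ) - 2 * ((L ^ 2 : ℕ) : ℝ)) ≤
        2 * K1 * (K1 + 1) / c / (L : ℝ) ^ 2 := by
      rw [← hm]
      push_cast
      have hpow0 : 0 ≤ (1 + a / (L : ℝ)) ^ L := by positivity
      have hnum1 : cc L * ((1 + a / L) ^ L + 1) ≤ K1 * L * (K1 + 1) := by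
        refine mul_le_mul hcc (by linarith) (by linarith) (by positivity)
      calc cc L * ((1 + a / L) ^ L + 1) / (m - 2 * (L : ℝ) ^ 2)
          ≤ K1 * L * (K1 + 1) / (m - 2 * (L : ℝ) ^ 2) :=
            div_le_div_of_nonneg_right hnum1 hmT0.le
        _ ≤ K1 * L * (K1 + 1) / (c / 2 * (L : ℝ) ^ 3) :=
            div_le_div_of_nonneg_left (by positivity) (by positivity) hmT
        _ = 2 * K1 * (K1 + 1) / c / (L : ℝ) ^ 2 := by field_simp
    calc 4 * (q L) ^ 2 + cc L * ((1 + a / L) ^ L + 1) / ((Fintype.card O : ℝ) - 2 * ((L ^ 2 : ℕ) : ℝ))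
        ≤ 4 * K1 ^ 2 / (L : ℝ) ^ 2 + 2 * K1 * (K1 + 1) / c / (L : ℝ) ^ 2 := add_le_add h1 h2
      _ = K2 / (L : ℝ) ^ 2 := by rw [hK2def]; ring
  -- summing over `v`
  have hsum : ∑ v, ((univ.filter fun π : O ≃ I =>
      FarOut (Adj src tgt π) L v ∧ FarIn (Adj src tgt π) L v).card : ℝ) ≤
      ((Fintype.card O).factorial : ℝ) * (K3 * L) := by
    calc ∑ v, ((univ.filter fun π : O ≃ I =>
        FarOut (Adj src tgt π) L v ∧ FarIn (Adj src tgt π) L v).card : ℝ)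
        ≤ ∑ v, ((Fintype.card O).factorial : ℝ) * ((deg src v : ℝ) * (deg tgt v : ℝ) *
            (K2 / (L : ℝ) ^ 2)) := Finset.sum_le_sum fun v _ => hmid v
      _ = ((Fintype.card O).factorial : ℝ) * ((∑ v, (deg tgt v : ℝ) * (deg src v : ℝ)) *
            (K2 / (L : ℝ) ^ 2)) := by
          rw [← Finset.mul_sum, ← Finset.sum_mul]
          congr 2
          exact Finset.sum_congr rfl fun v _ => mul_comm _ _
      _ ≤ ((Fintype.card O).factorial : ℝ) * ((12 * C * (L : ℝ) ^ 3) * (K2 / (L : ℝ) ^ 2)) := by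
          refine mul_le_mul_of_nonneg_left ?_ (by positivity)
          refine mul_le_mul_of_nonneg_right ?_ (by positivity)
          refine hG.crit.trans ?_
          rw [← hm]
          have h1 : m ≤ C * (8 * (L : ℝ) ^ 3) :=
            hG.upper.trans (mul_le_mul_of_nonneg_left hn8 hC.le)
          have h2 : C * (n : ℝ) ^ ((2 : ℝ) / 3) ≤ C * (4 * (L : ℝ) ^ 2) :=
            mul_le_mul_of_nonneg_left hn4 hC.le
          have h3 : C * (4 * (L : ℝ) ^ 2) ≤ C * (4 * (L : ℝ) ^ 3) := by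
            refine mul_le_mul_of_nonneg_left ?_ hC.le
            nlinarith [pow_le_pow_right₀ hL1' (show 2 ≤ 3 by norm_num)]
          nlinarith
      _ = ((Fintype.card O).factorial : ℝ) * (K3 * L) := by
          rw [hK3def]; field_simp
  -- double counting
  have hdc : ∑ v, ((univ.filter fun π : O ≃ I =>
      FarOut (Adj src tgt π) L v ∧ FarIn (Adj src tgt π) L v).card : ℝ) =
      ∑ π : O ≃ I, ((univ.filter fun v : V =>
        FarOut (Adj src tgt π) L v ∧ FarIn (Adj src tgt π) L v).card : ℝ) := by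
    simp only [Finset.card_filter]
    push_cast
    rw [Finset.sum_comm]
  have hAL : ∀ π : O ≃ I, A * (n : ℝ) ^ ((1 : ℝ) / 3) < (diam (Adj src tgt π) : ℝ) →
      A / 2 * L ≤ ((univ.filter fun v : V =>
        FarOut (Adj src tgt π) L v ∧ FarIn (Adj src tgt π) L v).card : ℝ) := by
    intro π hπ
    have h := middle (Adj src tgt π) L (diam (Adj src tgt π)) le_rfl
    have h' : (diam (Adj src tgt π) : ℝ) ≤ ((univ.filter fun v : V =>
        FarOut (Adj src tgt π) L v ∧ FarIn (Adj src tgt π) L v).card : ℝ) + 2 * L + 1 := by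
      exact_mod_cast h
    have h1 : A * L ≤ A * (n : ℝ) ^ ((1 : ℝ) / 3) := mul_le_mul_of_nonneg_left hLx hA.le
    nlinarith
  have hfin : ((univ.filter fun π : O ≃ I =>
      A * (n : ℝ) ^ ((1 : ℝ) / 3) < (diam (Adj src tgt π) : ℝ)).card : ℝ) * (A / 2 * L) ≤
      ((Fintype.card O).factorial : ℝ) * (K3 * L) := by
    refine le_trans ?_ (hdc ▸ hsum)
    calc ((univ.filter fun π : O ≃ I =>
        A * (n : ℝ) ^ ((1 : ℝ) / 3) < (diam (Adj src tgt π) : ℝ)).card : ℝ) * (A / 2 * L)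
        = ∑ π ∈ (univ.filter fun π : O ≃ I =>
          A * (n : ℝ) ^ ((1 : ℝ) / 3) < (diam (Adj src tgt π) : ℝ)), (A / 2 * L) := by
          rw [Finset.sum_const, nsmul_eq_mul]
      _ ≤ ∑ π ∈ (univ.filter fun π : O ≃ I =>
          A * (n : ℝ) ^ ((1 : ℝ) / 3) < (diam (Adj src tgt π) : ℝ)),
          ((univ.filter fun v : V =>
            FarOut (Adj src tgt π) L v ∧ FarIn (Adj src tgt π) L v).card : ℝ) :=
          Finset.sum_le_sum fun π hπ => hAL π (Finset.mem_filter.mp hπ).2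
      _ ≤ ∑ π : O ≃ I, ((univ.filter fun v : V =>
            FarOut (Adj src tgt π) L v ∧ FarIn (Adj src tgt π) L v).card : ℝ) :=
          Finset.sum_le_sum_of_subset_of_nonneg (Finset.filter_subset _ _)
            (fun _ _ _ => by positivity)
  set N : ℝ := ((univ.filter fun π : O ≃ I =>
      A * (n : ℝ) ^ ((1 : ℝ) / 3) < (diam (Adj src tgt π) : ℝ)).card : ℝ) with hN
  have h1 : N * (A / 2) ≤ ((Fintype.card O).factorial : ℝ) * K3 := by
    have : (N * (A / 2)) * L ≤ (((Fintype.card O).factorial : ℝ) * K3) * L := by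
      calc (N * (A / 2)) * L = N * (A / 2 * L) := by ring
        _ ≤ ((Fintype.card O).factorial : ℝ) * (K3 * L) := hfin
        _ = (((Fintype.card O).factorial : ℝ) * K3) * L := by ring
    exact le_of_mul_le_mul_right this hLpos
  rw [div_mul_eq_mul_div, le_div_iff₀ hA]
  nlinarith

end H95.DCM
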