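import Pool.Agent.H95.DCM.Halves

/-!
# Job DCM-13: events for the conditioned degree sequence

Split `Fin n` into two parts of size at least `n / 3` (for `n ≥ 3`), e.g. `p i := 2 * i < n` and its
complement; a sum over `Fin n` being large forces one of the two partial sums to be at least half as
large; apply `halves` to each, and Markov, resp. Chebyshev, to the i.i.d. sums over a subtype
(`Measure.pi`): `P(∑ f > K n / 2) ≤ (n ∫ f) / (K n / 2)`,
`P(|∑ f| > n^{2/3}/2) ≤ n ∫ f² / (n^{4/3} / 4)`. For `ev_count` only one half is needed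
(Chebyshev for `f = 1_B - ν B`, `c = ν(B) / 4` or smaller). `ev_ae`: a.s. statement.
-/

open MeasureTheory

namespace H95.DCM

/-- The law of i.i.d. pairs indexed by a finite type. -/
theorem sum_split {n : ℕ} (p : Fin n → Prop) [DecidablePred p] (g : Fin n → ℝ) :
    ∑ i, g i = ∑ i : {i // p i}, g i + ∑ i : {i // ¬ p i}, g i :=
  (Fintype.sum_subtype_add_sum_subtype p g).symm

theorem markov_pi (ν : Measure (ℕ × ℕ)) [IsProbabilityMeasure ν] {ι : Type} [Fintype ι]
    (f : ℕ × ℕ → ℝ) (hf0 : ∀ x, 0 ≤ f x) (hf : Integrable f ν) {T : ℝ} (hT : 0 < T) :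
    (Measure.pi fun _ : ι => ν).real {a | T ≤ ∑ i, f (a i)} ≤
      (Fintype.card ι : ℝ) * (∫ x, f x ∂ν) / T := by
  have hint : ∀ i : ι, Integrable (fun a : ι → ℕ × ℕ => f (a i)) (Measure.pi fun _ : ι => ν) :=
    fun i => integrable_comp_eval (μ := fun _ : ι => ν) (i := i) hf
  have h1 := mul_meas_ge_le_integral_of_nonneg (μ := Measure.pi fun _ : ι => ν)
    (f := fun a : ι → ℕ × ℕ => ∑ i, f (a i))
    (Filter.Eventually.of_forall fun a => Finset.sum_nonneg fun i _ => hf0 _)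
    (integrable_finsetSum _ fun i _ => hint i) T
  rw [integral_finsetSum _ fun i _ => hint i] at h1
  have h2 : ∀ i : ι, ∫ a : ι → ℕ × ℕ, f (a i) ∂(Measure.pi fun _ : ι => ν) = ∫ x, f x ∂ν :=
    fun i => integral_comp_eval (μ := fun _ : ι => ν) (i := i) hf.aestronglyMeasurable
  rw [Finset.sum_congr rfl fun i _ => h2 i, Finset.sum_const, Finset.card_univ,
    nsmul_eq_mul] at h1
  rw [le_div_iff₀ hT, mul_comm]
  exact h1

theorem cheb_pi (ν : Measure (ℕ × ℕ)) [IsProbabilityMeasure ν] {ι : Type} [Fintype ι]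
    (f : ℕ × ℕ → ℝ) (hf : Integrable f ν) (hf2 : Integrable (fun x => f x ^ 2) ν)
    (hf0 : ∫ x, f x ∂ν = 0) {c : ℝ} (hc : 0 < c) :
    (Measure.pi fun _ : ι => ν).real {a | c ≤ |∑ i, f (a i)|} ≤
      (Fintype.card ι : ℝ) * (∫ x, f x ^ 2 ∂ν) / c ^ 2 := by
  have hL : MemLp f 2 ν := (memLp_two_iff_integrable_sq hf.aestronglyMeasurable).2 hf2
  have hLi : ∀ i : ι, MemLp (fun a : ι → ℕ × ℕ => f (a i)) 2 (Measure.pi fun _ : ι => ν) :=
    fun i => hL.comp_measurePreserving (measurePreserving_eval (fun _ : ι => ν) i)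
  have hint : ∀ i : ι, Integrable (fun a : ι → ℕ × ℕ => f (a i)) (Measure.pi fun _ : ι => ν) :=
    fun i => integrable_comp_eval (μ := fun _ : ι => ν) (i := i) hf
  have hX : MemLp (fun a : ι → ℕ × ℕ => ∑ i, f (a i)) 2 (Measure.pi fun _ : ι => ν) :=
    memLp_finsetSum _ fun i _ => hLi i
  have hmean : ∫ a : ι → ℕ × ℕ, ∑ i, f (a i) ∂(Measure.pi fun _ : ι => ν) = 0 := by
    rw [integral_finsetSum _ fun i _ => hint i]
    refine Finset.sum_eq_zero fun i _ => ?_
    rw [← hf0]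
    exact integral_comp_eval (μ := fun _ : ι => ν) (i := i) hf.aestronglyMeasurable
  have hvar : ProbabilityTheory.variance (fun a : ι → ℕ × ℕ => ∑ i, f (a i))
      (Measure.pi fun _ : ι => ν) = (Fintype.card ι : ℝ) * (∫ x, f x ^ 2 ∂ν) := by
    have h1 := ProbabilityTheory.variance_sum_pi (μ := fun _ : ι => ν) (X := fun _ : ι => f)
      (fun _ => hL)
    have h2 : (∑ i : ι, fun a : ι → ℕ × ℕ => f (a i)) = fun a : ι → ℕ × ℕ => ∑ i, f (a i) := by
      funext a
      rw [Finset.sum_apply]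
    rw [h2, Finset.sum_const, Finset.card_univ, nsmul_eq_mul] at h1
    rw [h1, ProbabilityTheory.variance_of_integral_eq_zero hf.aestronglyMeasurable.aemeasurable hf0]
  have h3 := ProbabilityTheory.meas_ge_le_variance_div_sq hX hc
  rw [hmean] at h3
  simp only [sub_zero] at h3
  rw [hvar] at h3
  refine ENNReal.toReal_le_of_le_ofReal ?_ h3
  exact div_nonneg (mul_nonneg (Nat.cast_nonneg _) (integral_nonneg fun x => sq_nonneg _))
    (sq_nonneg _)

theorem half_card (n : ℕ) (hn : 2 ≤ n) :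
    (n : ℝ) ≤ 3 * ((Finset.univ.filter fun i : Fin n => ¬ 2 * i.1 < n).card : ℝ) ∧
    (n : ℝ) ≤ 2 * ((Finset.univ.filter fun i : Fin n => 2 * i.1 < n).card : ℝ) := by
  have h0 : (Finset.univ.filter fun i : Fin n => 2 * i.1 < n).card = (n + 1) / 2 := by
    have h1 : (Finset.univ.filter fun i : Fin n => 2 * i.1 < n) =
        Finset.univ.filter fun i : Fin n => i.1 < (n + 1) / 2 := by
      ext i
      simp only [Finset.mem_filter, Finset.mem_univ, true_and]
      omega
    rw [h1, Fin.card_filter_val_lt]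
    omega
  have h2 := Finset.card_filter_add_card_filter_not (s := (Finset.univ : Finset (Fin n)))
    (fun i : Fin n => 2 * i.1 < n)
  rw [h0, Finset.card_univ, Fintype.card_fin] at h2
  constructor
  · have : n ≤ 3 * (Finset.univ.filter fun i : Fin n => ¬ 2 * i.1 < n).card := by omega
    exact_mod_cast this
  · have : n ≤ 2 * (Finset.univ.filter fun i : Fin n => 2 * i.1 < n).card := by omega
    exact_mod_cast this

theorem card_sub_le {n : ℕ} (p : Fin n → Prop) [DecidablePred p] :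
    ((Fintype.card {i // p i} : ℕ) : ℝ) ≤ n := by
  have := Fintype.card_subtype_le p
  rw [Fintype.card_fin] at this
  exact_mod_cast this

/-- Splitting into two halves. -/
theorem two_halves (ν : Measure (ℕ × ℕ)) (hν : Assump ν) :
    ∃ K : ℝ, 0 < K ∧ ∃ n0 : ℕ, 2 ≤ n0 ∧ ∀ n ≥ n0, ∀ (E : Set (Fin n → ℕ × ℕ))
      (A : Set ({i : Fin n // 2 * i.1 < n} → ℕ × ℕ))
      (A' : Set ({i : Fin n // ¬ 2 * i.1 < n} → ℕ × ℕ)),
      (∀ d ∈ E, (fun i : {i : Fin n // 2 * i.1 < n} => d i) ∈ A ∨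
        (fun i : {i : Fin n // ¬ 2 * i.1 < n} => d i) ∈ A') →
      (seqLaw ν n).real E ≤ K * (Measure.pi fun _ : {i : Fin n // 2 * i.1 < n} => ν).real A +
        K * (Measure.pi fun _ : {i : Fin n // ¬ 2 * i.1 < n} => ν).real A' := by
  obtain ⟨K, hK, n0, hn0⟩ := halves ν hν
  refine ⟨K, hK, max n0 2, le_max_right _ _, ?_⟩
  intro n hn E A A' hE
  have hn1 : n0 ≤ n := (le_max_left _ _).trans hn
  have hn2 : 2 ≤ n := (le_max_right _ _).trans hn
  have h1 := hn0 n hn1 (fun i : Fin n => 2 * i.1 < n) (half_card n hn2).1 A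
  have h2 := hn0 n hn1 (fun i : Fin n => ¬ 2 * i.1 < n) (by
    have h3 := (half_card n hn2).2
    have h4 : (Finset.univ.filter fun i : Fin n => ¬ ¬ 2 * i.1 < n) =
        Finset.univ.filter fun i : Fin n => 2 * i.1 < n := by
      ext i
      simp
    rw [h4]
    have : (0 : ℝ) ≤ ((Finset.univ.filter fun i : Fin n => 2 * i.1 < n).card : ℝ) :=
      Nat.cast_nonneg _
    linarith) A'
  have : IsFiniteMeasure (seqLaw ν n) := by
    unfold seqLaw
    infer_instance
  have h5 : (seqLaw ν n).real E ≤ (seqLaw ν n).real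
      ({d | (fun i : {i : Fin n // 2 * i.1 < n} => d i) ∈ A} ∪
        {d | (fun i : {i : Fin n // ¬ 2 * i.1 < n} => d i) ∈ A'}) :=
    measureReal_mono (fun d hd => hE d hd)
  exact h5.trans ((measureReal_union_le _ _).trans (add_le_add h1 h2))

theorem ev_markov (ν : Measure (ℕ × ℕ)) (hν : Assump ν) (f : ℕ × ℕ → ℝ) (hf0 : ∀ x, 0 ≤ f x)
    (hf : Integrable f ν) (ε : ℝ) (hε : 0 < ε) :
    ∃ K : ℝ, 0 < K ∧ ∃ n0 : ℕ, ∀ n ≥ n0,
      (seqLaw ν n).real {d | K * n < ∑ i, f (d i)} ≤ ε := by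
  have := hν.prob
  obtain ⟨K0, hK0, n0, hn2, h0⟩ := two_halves ν hν
  set J := ∫ x, f x ∂ν with hJ
  have hJ0 : 0 ≤ J := integral_nonneg hf0
  refine ⟨4 * K0 * J / ε + 1, by positivity, n0, fun n hn => ?_⟩
  set K := 4 * K0 * J / ε + 1 with hK
  have hKpos : 0 < K := by positivity
  have hnpos : (0 : ℝ) < n := by
    have : 0 < n := by omega
    exact_mod_cast this
  have hT : 0 < K * n / 2 := by positivity
  have h1 := h0 n hn {d | K * n < ∑ i, f (d i)}
    {a | K * n / 2 ≤ ∑ i, f (a i)} {a | K * n / 2 ≤ ∑ i, f (a i)} (by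
      intro d hd
      have hd' : K * n < ∑ i, f (d i) := hd
      rw [sum_split (fun i : Fin n => 2 * i.1 < n) fun i => f (d i)] at hd'
      by_contra hcon
      rw [not_or] at hcon
      obtain ⟨hc1, hc2⟩ := hcon
      simp only [Set.mem_ofPred_eq, not_le] at hc1 hc2
      linarith)
  have hb : ∀ (p : Fin n → Prop) [DecidablePred p],
      (Measure.pi fun _ : {i : Fin n // p i} => ν).real {a | K * n / 2 ≤ ∑ i, f (a i)} ≤
        2 * J / K := by
    intro p _
    refine (markov_pi ν f hf0 hf hT).trans ?_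
    rw [div_le_div_iff₀ hT hKpos]
    have h3 := card_sub_le p
    have h4 : (Fintype.card {i // p i} : ℝ) * J * K ≤ n * J * K := by gcongr
    calc (Fintype.card {i // p i} : ℝ) * J * K ≤ n * J * K := h4
      _ = 2 * J * (K * n / 2) := by ring
  have h5 := hb (fun i : Fin n => 2 * i.1 < n)
  have h6 := hb (fun i : Fin n => ¬ 2 * i.1 < n)
  have h7 : K0 * (2 * J / K) + K0 * (2 * J / K) ≤ ε := by
    have h8 : 4 * K0 * J ≤ ε * K := by
      rw [hK]
      have : ε * (4 * K0 * J / ε + 1) = 4 * K0 * J + ε := by field_simp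
      linarith
    have h9 : K0 * (2 * J / K) + K0 * (2 * J / K) = 4 * K0 * J / K := by ring
    rw [h9, div_le_iff₀ hKpos]
    exact h8
  have h10 := mul_le_mul_of_nonneg_left h5 hK0.le
  have h11 := mul_le_mul_of_nonneg_left h6 hK0.le
  linarith

theorem ev_cheb (ν : Measure (ℕ × ℕ)) (hν : Assump ν) (f : ℕ × ℕ → ℝ)
    (hf : Integrable f ν) (hf2 : Integrable (fun x => f x ^ 2) ν) (hf0 : ∫ x, f x ∂ν = 0)
    (ε : ℝ) (hε : 0 < ε) :
    ∃ n0 : ℕ, ∀ n ≥ n0,
      (seqLaw ν n).real {d | (n : ℝ) ^ ((2 : ℝ) / 3) < |∑ i, f (d i)|} ≤ ε := by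
  have := hν.prob
  obtain ⟨K0, hK0, n0, hn2, h0⟩ := two_halves ν hν
  set V := ∫ x, f x ^ 2 ∂ν with hV
  have hV0 : 0 ≤ V := integral_nonneg fun x => sq_nonneg _
  set R := 8 * K0 * V / ε + 1 with hR
  have hRpos : 0 < R := by positivity
  refine ⟨max n0 ⌈R ^ 3⌉₊, fun n hn => ?_⟩
  have hn0 : n0 ≤ n := (le_max_left _ _).trans hn
  have hnpos : (0 : ℝ) < n := by
    have : 0 < n := by omega
    exact_mod_cast this
  have hR3 : R ^ 3 ≤ n := by
    have h1 : ⌈R ^ 3⌉₊ ≤ n := (le_max_right _ _).trans hn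
    exact (Nat.le_ceil _).trans (by exact_mod_cast h1)
  set r := (n : ℝ) ^ ((1 : ℝ) / 3) with hr
  have hr0 : 0 < r := Real.rpow_pos_of_pos hnpos _
  have hr3 : r ^ 3 = n := by
    rw [hr, ← Real.rpow_natCast, ← Real.rpow_mul hnpos.le]
    norm_num
  have hrR : R ≤ r := by
    rw [← hr3] at hR3
    exact le_of_pow_le_pow_left₀ (by norm_num) hr0.le hR3
  have hn23 : (n : ℝ) ^ ((2 : ℝ) / 3) = r ^ 2 := by
    rw [hr, ← Real.rpow_natCast, ← Real.rpow_mul hnpos.le]
    norm_num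
  have hc : 0 < r ^ 2 / 2 := by positivity
  have h1 := h0 n hn0 {d | (n : ℝ) ^ ((2 : ℝ) / 3) < |∑ i, f (d i)|}
    {a | r ^ 2 / 2 ≤ |∑ i, f (a i)|} {a | r ^ 2 / 2 ≤ |∑ i, f (a i)|} (by
      intro d hd
      have hd' : (n : ℝ) ^ ((2 : ℝ) / 3) < |∑ i, f (d i)| := hd
      rw [hn23, sum_split (fun i : Fin n => 2 * i.1 < n) fun i => f (d i)] at hd'
      have hd2 := hd'.trans_le (abs_add_le _ _)
      by_contra hcon
      rw [not_or] at hcon
      obtain ⟨hc1, hc2⟩ := hcon
      simp only [Set.mem_ofPred_eq, not_le] at hc1 hc2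
      linarith)
  have hb : ∀ (p : Fin n → Prop) [DecidablePred p],
      (Measure.pi fun _ : {i : Fin n // p i} => ν).real {a | r ^ 2 / 2 ≤ |∑ i, f (a i)|} ≤
        4 * V / r := by
    intro p _
    refine (cheb_pi ν f hf hf2 hf0 hc).trans ?_
    rw [div_le_div_iff₀ (by positivity) hr0]
    have h3 := card_sub_le p
    rw [← hr3] at h3
    have h4 : (Fintype.card {i // p i} : ℝ) * V * r ≤ r ^ 3 * V * r := by gcongr
    calc (Fintype.card {i // p i} : ℝ) * V * r ≤ r ^ 3 * V * r := h4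
      _ = 4 * V * (r ^ 2 / 2) ^ 2 := by ring
  have h5 := hb (fun i : Fin n => 2 * i.1 < n)
  have h6 := hb (fun i : Fin n => ¬ 2 * i.1 < n)
  have h7 : K0 * (4 * V / r) + K0 * (4 * V / r) ≤ ε := by
    have h8 : 8 * K0 * V ≤ ε * r := by
      have h81 : ε * R ≤ ε * r := mul_le_mul_of_nonneg_left hrR hε.le
      have h82 : ε * R = 8 * K0 * V + ε := by
        rw [hR]
        field_simp
      linarith
    have h9 : K0 * (4 * V / r) + K0 * (4 * V / r) = 8 * K0 * V / r := by ring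
    rw [h9, div_le_iff₀ hr0]
    exact h8
  have h10 := mul_le_mul_of_nonneg_left h5 hK0.le
  have h11 := mul_le_mul_of_nonneg_left h6 hK0.le
  linarith

open Classical in
theorem ev_count (ν : Measure (ℕ × ℕ)) (hν : Assump ν) (B : Set (ℕ × ℕ)) (hB : ν B ≠ 0) :
    ∃ c : ℝ, 0 < c ∧ ∀ ε : ℝ, 0 < ε → ∃ n0 : ℕ, ∀ n ≥ n0,
      (seqLaw ν n).real {d | ((Finset.univ.filter fun i => d i ∈ B).card : ℝ) < c * n} ≤ ε := by
  have := hν.prob
  obtain ⟨K0, hK0, n0, hn2, h0⟩ := two_halves ν hν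
  set β := ν.real B with hβ
  have hβ0 : 0 < β := by
    rw [hβ, Measure.real]
    exact ENNReal.toReal_pos hB (measure_ne_top _ _)
  have hBm : MeasurableSet B := MeasurableSet.of_discrete
  let f : ℕ × ℕ → ℝ := fun x => B.indicator (fun _ => (1 : ℝ)) x - β
  have hind : Integrable (B.indicator (fun _ => (1 : ℝ))) ν :=
    (integrable_const (1 : ℝ)).indicator hBm
  have hf : Integrable f ν := hind.sub (integrable_const β)
  have hf1 : ∫ x, f x ∂ν = 0 := by
    show ∫ x, (B.indicator (fun _ => (1 : ℝ)) x - β) ∂ν = 0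
    rw [integral_sub hind (integrable_const β), integral_indicator hBm]
    simp [hβ]
  have hβ1 : β ≤ 1 := measureReal_le_one
  have hfb : ∀ x, f x ^ 2 ≤ 1 := by
    intro x
    show (B.indicator (fun _ => (1 : ℝ)) x - β) ^ 2 ≤ 1
    by_cases hx : x ∈ B
    · rw [Set.indicator_of_mem hx]
      nlinarith
    · rw [Set.indicator_of_notMem hx]
      nlinarith
  have hf2 : Integrable (fun x => f x ^ 2) ν := by
    refine Integrable.mono' (integrable_const (1 : ℝ)) ?_ (Filter.Eventually.of_forall fun x => ?_)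
    · exact (hf.aestronglyMeasurable.pow 2)
    · rw [Real.norm_eq_abs, abs_of_nonneg (sq_nonneg _)]
      exact hfb x
  have hV1 : ∫ x, f x ^ 2 ∂ν ≤ 1 := by
    calc ∫ x, f x ^ 2 ∂ν ≤ ∫ x, (1 : ℝ) ∂ν :=
          integral_mono hf2 (integrable_const _) hfb
      _ = 1 := by simp
  have hV0 : 0 ≤ ∫ x, f x ^ 2 ∂ν := integral_nonneg fun x => sq_nonneg _
  refine ⟨β / 4, by positivity, fun ε hε => ?_⟩
  set R := 16 * K0 / (β ^ 2 * ε) with hR
  refine ⟨max n0 ⌈R⌉₊, fun n hn => ?_⟩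
  have hn0 : n0 ≤ n := (le_max_left _ _).trans hn
  have hnpos : (0 : ℝ) < n := by
    have : 0 < n := by omega
    exact_mod_cast this
  have hRn : R ≤ n := by
    have h1 : ⌈R⌉₊ ≤ n := (le_max_right _ _).trans hn
    exact (Nat.le_ceil _).trans (by exact_mod_cast h1)
  have hc : 0 < β * n / 4 := by positivity
  have h1 := h0 n hn0 {d | ((Finset.univ.filter fun i => d i ∈ B).card : ℝ) < β / 4 * n}
    {a | β * n / 4 ≤ |∑ i, f (a i)|} ∅ (by
      intro d hd
      left
      have hd' : ((Finset.univ.filter fun i => d i ∈ B).card : ℝ) < β / 4 * n := hd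
      have h2 : ∑ i : Fin n, B.indicator (fun _ => (1 : ℝ)) (d i) =
          ((Finset.univ.filter fun i => d i ∈ B).card : ℝ) := by
        rw [← Finset.sum_boole]
        refine Finset.sum_congr rfl fun i _ => ?_
        by_cases hi : d i ∈ B
        · rw [Set.indicator_of_mem hi, if_pos hi]
        · rw [Set.indicator_of_notMem hi, if_neg hi]
      rw [← h2, sum_split (fun i : Fin n => 2 * i.1 < n)] at hd'
      have h3 : 0 ≤ ∑ i : {i : Fin n // ¬ 2 * i.1 < n},
          B.indicator (fun _ => (1 : ℝ)) (d i) :=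
        Finset.sum_nonneg fun i _ => Set.indicator_nonneg (fun _ _ => zero_le_one) _
      have h4 : ∑ i : {i : Fin n // 2 * i.1 < n}, f (d i) =
          ∑ i : {i : Fin n // 2 * i.1 < n}, B.indicator (fun _ => (1 : ℝ)) (d i) -
            (Fintype.card {i : Fin n // 2 * i.1 < n} : ℝ) * β := by
        show ∑ i : {i : Fin n // 2 * i.1 < n}, (B.indicator (fun _ => (1 : ℝ)) (d i) - β) = _
        rw [Finset.sum_sub_distrib, Finset.sum_const, Finset.card_univ, nsmul_eq_mul]
      have h5 : (n : ℝ) ≤ 2 * (Fintype.card {i : Fin n // 2 * i.1 < n} : ℝ) := by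
        rw [Fintype.card_subtype]
        exact (half_card n (by omega)).2
      have h6 : (n : ℝ) * β ≤ 2 * (Fintype.card {i : Fin n // 2 * i.1 < n} : ℝ) * β :=
        mul_le_mul_of_nonneg_right h5 hβ0.le
      show β * n / 4 ≤ |∑ i : {i : Fin n // 2 * i.1 < n}, f (d i)|
      rw [h4, le_abs]
      right
      linarith)
  have hb : (Measure.pi fun _ : {i : Fin n // 2 * i.1 < n} => ν).real
      {a | β * n / 4 ≤ |∑ i, f (a i)|} ≤ 16 / (β ^ 2 * n) := by
    refine (cheb_pi ν f hf hf2 hf1 hc).trans ?_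
    rw [div_le_div_iff₀ (by positivity) (by positivity)]
    have h3 := card_sub_le (fun i : Fin n => 2 * i.1 < n)
    have h4 : (Fintype.card {i : Fin n // 2 * i.1 < n} : ℝ) * (∫ x, f x ^ 2 ∂ν) * (β ^ 2 * n) ≤
        n * 1 * (β ^ 2 * n) := by gcongr
    calc _ ≤ _ := h4
      _ = 16 * (β * n / 4) ^ 2 := by ring
  rw [measureReal_empty, mul_zero, add_zero] at h1
  refine h1.trans ((mul_le_mul_of_nonneg_left hb hK0.le).trans ?_)
  rw [hR, div_le_iff₀ (by positivity)] at hRn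
  rw [mul_div_assoc', div_le_iff₀ (by positivity)]
  linarith

theorem ev_ae (ν : Measure (ℕ × ℕ)) (hν : Assump ν) (B : Set (ℕ × ℕ)) (hB : ν B = 0) (n : ℕ) :
    (seqLaw ν n).real {d | ∃ i, d i ∈ B} = 0 := by
  have := hν.prob
  have h1 : (Measure.pi fun _ : Fin n => ν) {d | ∃ i, d i ∈ B} = 0 := by
    have h2 : {d : Fin n → ℕ × ℕ | ∃ i, d i ∈ B} = ⋃ i, (Function.eval i) ⁻¹' B := by
      ext d
      simp
    rw [h2, measure_iUnion_null_iff]
    intro i
    rw [(measurePreserving_eval (fun _ : Fin n => ν) i).measure_preimage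
      (MeasurableSet.of_discrete (s := B)).nullMeasurableSet]
    exact hB
  have h3 : (seqLaw ν n) {d | ∃ i, d i ∈ B} = 0 :=
    ProbabilityTheory.cond_absolutelyContinuous h1
  rw [Measure.real, h3, ENNReal.toReal_zero]

end H95.DCM
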