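import Pool.Agent.H95.DCM.Law

/-!
# Job DCM-16: examples

`exists_degenerate`: `ν = 1/4 δ_(0,2) + 1/2 δ_(2,1) + 1/4 δ_(1,1)`
(`E D⁻ = E D⁺ = E D⁻D⁺ = 5/4`, the differences are `-2, 1, 0`, and `D⁺ = 1` whenever `D⁻ ≥ 1`).
`exists_nondegenerate`: e.g. `D⁻`, `D⁺` independent and uniform on `{0,1,2}`, i.e. the uniform law on
the nine pairs.
-/

open MeasureTheory
open scoped NNReal ENNReal

namespace H95.DCM

namespace Example

/-- A law with finite support. -/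
noncomputable def fin (s : Finset (ℕ × ℕ)) (w : ℕ × ℕ → ℝ≥0) : Measure (ℕ × ℕ) :=
  ∑ x ∈ s, w x • Measure.dirac x

theorem fin_integrable (s : Finset (ℕ × ℕ)) (w : ℕ × ℕ → ℝ≥0) (f : ℕ × ℕ → ℝ) :
    Integrable f (fin s w) := by
  unfold fin
  refine integrable_finsetSum_measure.2 fun x _ => ?_
  exact (integrable_dirac (by simp)).smul_measure_nnreal

theorem fin_integral (s : Finset (ℕ × ℕ)) (w : ℕ × ℕ → ℝ≥0) (f : ℕ × ℕ → ℝ) :
    ∫ x, f x ∂(fin s w) = ∑ x ∈ s, (w x : ℝ) * f x := by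
  unfold fin
  rw [integral_finsetSum_measure]
  · refine Finset.sum_congr rfl fun x _ => ?_
    rw [integral_smul_nnreal_measure, integral_dirac]
    rfl
  · intro x _
    exact (integrable_dirac (by simp)).smul_measure_nnreal

theorem fin_univ (s : Finset (ℕ × ℕ)) (w : ℕ × ℕ → ℝ≥0) (h1 : ∑ x ∈ s, w x = 1) :
    fin s w Set.univ = 1 := by
  unfold fin
  rw [Measure.finsetSum_apply]
  have : ∀ x ∈ s, (w x • Measure.dirac x : Measure (ℕ × ℕ)) Set.univ = (w x : ℝ≥0∞) := by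
    intro x _
    simp
  rw [Finset.sum_congr rfl this, ← ENNReal.ofNNReal_finsetSum, h1]
  rfl

theorem fin_pos (s : Finset (ℕ × ℕ)) (w : ℕ × ℕ → ℝ≥0) (x : ℕ × ℕ) (hx : x ∈ s) (hw : w x ≠ 0)
    (A : Set (ℕ × ℕ)) (hA : x ∈ A) : fin s w A ≠ 0 := by
  unfold fin
  rw [Measure.finsetSum_apply]
  intro h
  rw [Finset.sum_eq_zero_iff] at h
  have := h x hx
  rw [Measure.smul_apply, Measure.dirac_apply_of_mem hA] at this
  simp at this
  exact hw this

theorem assump (s : Finset (ℕ × ℕ)) (w : ℕ × ℕ → ℝ≥0) (h1 : ∑ x ∈ s, w x = 1)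
    (hmean : ∑ x ∈ s, (w x : ℝ) * (x.1 : ℝ) = ∑ x ∈ s, (w x : ℝ) * (x.2 : ℝ))
    (hcrit : ∑ x ∈ s, (w x : ℝ) * ((x.1 : ℝ) * (x.2 : ℝ)) = ∑ x ∈ s, (w x : ℝ) * (x.1 : ℝ))
    (x0 x1 : ℕ × ℕ) (hx0 : x0 ∈ s) (hx1 : x1 ∈ s) (hw0 : w x0 ≠ 0) (hw1 : w x1 ≠ 0)
    (hd0 : (x0.1 : ℝ) - (x0.2 : ℝ) = 0) (hd1 : (x1.1 : ℝ) - (x1.2 : ℝ) = 1) :
    Assump (fin s w) where
  prob := ⟨fin_univ s w h1⟩
  mom := fun i j _ _ => fin_integrable s w _
  mom13 := fin_integrable s w _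
  mom31 := fin_integrable s w _
  mean := by rw [fin_integral, fin_integral]; exact hmean
  crit := by rw [fin_integral, fin_integral]; exact hcrit
  aper := by
    intro p hp c h
    have : IsProbabilityMeasure (fin s w) := ⟨fin_univ s w h1⟩
    have hc : fin s w {x | ∃ z : ℤ, (x.1 : ℝ) - (x.2 : ℝ) = c + p * z}ᶜ = 0 :=
      (prob_compl_eq_zero_iff (MeasurableSet.of_discrete)).2 h
    have m0 : x0 ∈ {x : ℕ × ℕ | ∃ z : ℤ, (x.1 : ℝ) - (x.2 : ℝ) = c + p * z} := by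
      by_contra hn
      exact fin_pos s w x0 hx0 hw0 _ hn hc
    have m1 : x1 ∈ {x : ℕ × ℕ | ∃ z : ℤ, (x.1 : ℝ) - (x.2 : ℝ) = c + p * z} := by
      by_contra hn
      exact fin_pos s w x1 hx1 hw1 _ hn hc
    obtain ⟨z0, hz0⟩ := m0
    obtain ⟨z1, hz1⟩ := m1
    rw [hd0] at hz0
    rw [hd1] at hz1
    have h2 : (p : ℝ) * ((z1 - z0 : ℤ) : ℝ) = 1 := by
      push_cast
      linarith
    have h3 : (p : ℤ) * (z1 - z0) = 1 := by exact_mod_cast h2
    have h4 : (p : ℤ) ∣ 1 := ⟨_, h3.symm⟩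
    have h5 : p ∣ 1 := by exact_mod_cast h4
    have h6 : p = 1 := Nat.dvd_one.mp h5
    omega

end Example

open Example in
theorem exists_degenerate : ∃ ν : Measure (ℕ × ℕ), Assump ν ∧ ¬ Nondeg ν := by
  let w : ℕ × ℕ → ℝ≥0 := fun x => if x = (2, 1) then 1 / 2 else 1 / 4
  have hw0 : w (0, 2) = 1 / 4 := by simp [w]
  have hw1 : w (2, 1) = 1 / 2 := by simp [w]
  have hw2 : w (1, 1) = 1 / 4 := by simp [w]
  have hsum : ∀ {M : Type} [AddCommMonoid M] (f : ℕ × ℕ → M),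
      ∑ x ∈ ({(0, 2), (2, 1), (1, 1)} : Finset (ℕ × ℕ)), f x = f (0, 2) + (f (2, 1) + f (1, 1)) := by
    intro M _ f
    rw [Finset.sum_insert (by decide), Finset.sum_insert (by decide), Finset.sum_singleton]
  refine ⟨fin {(0, 2), (2, 1), (1, 1)} w, ?_, ?_⟩
  · refine assump _ w ?_ ?_ ?_ (1, 1) (2, 1) (by decide) (by decide) ?_ ?_ (by norm_num)
      (by norm_num)
    · rw [hsum, hw0, hw1, hw2]
      rw [← NNReal.coe_inj]; push_cast; norm_num
    · rw [hsum, hsum, hw0, hw1, hw2]; push_cast; norm_num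
    · rw [hsum, hsum, hw0, hw1, hw2]; push_cast; norm_num
    · rw [hw2]; norm_num
    · rw [hw1]; norm_num
  · intro h
    refine h.1 ?_
    unfold fin
    rw [Measure.finsetSum_apply, hsum]
    rw [Measure.smul_apply, Measure.smul_apply, Measure.smul_apply,
      Measure.dirac_apply' _ MeasurableSet.of_discrete,
      Measure.dirac_apply' _ MeasurableSet.of_discrete,
      Measure.dirac_apply' _ MeasurableSet.of_discrete]
    simp

open Example in
theorem exists_nondegenerate : ∃ ν : Measure (ℕ × ℕ), Assump ν ∧ Nondeg ν := by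
  let w : ℕ × ℕ → ℝ≥0 := fun _ => 1 / 9
  have hw : ∀ x, w x = 1 / 9 := fun _ => rfl
  have hw' : (1 / 9 : ℝ≥0) ≠ 0 := by norm_num
  refine ⟨fin (Finset.range 3 ×ˢ Finset.range 3) w, ?_, ?_, ?_⟩
  · refine assump _ w ?_ ?_ ?_ (1, 1) (2, 1) (by decide) (by decide) hw' hw' (by norm_num)
      (by norm_num)
    · rw [Finset.sum_product]
      simp only [Finset.sum_range_succ, Finset.sum_range_zero, hw]
      rw [← NNReal.coe_inj]; push_cast; norm_num
    · rw [Finset.sum_product, Finset.sum_product]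
      simp only [Finset.sum_range_succ, Finset.sum_range_zero, hw]
      push_cast; norm_num
    · rw [Finset.sum_product, Finset.sum_product]
      simp only [Finset.sum_range_succ, Finset.sum_range_zero, hw]
      push_cast; norm_num
  · exact fin_pos _ w (1, 2) (by decide) hw' _ (by simp)
  · exact fin_pos _ w (2, 1) (by decide) hw' _ (by simp)

end H95.DCM
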