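import Pool.Agent.H95.DCM.ExploreAux

/-!
# The exploration lemma
-/

open Finset

namespace H95.DCM

variable {V O I : Type*} [Fintype V] [DecidableEq V] [Fintype O] [DecidableEq O] [Fintype I]
  [DecidableEq I]

omit [DecidableEq O] [DecidableEq I] in
/-- `∑_{i} deg src (tgt i) = ∑_v deg tgt v * deg src v` -/
theorem sum_deg_tgt (src : O → V) (tgt : I → V) :
    ∑ i, (deg src (tgt i) : ℝ) = ∑ v, (deg tgt v : ℝ) * (deg src v : ℝ) := by
  have h : ∀ v, (deg tgt v : ℝ) * (deg src v : ℝ) =
      ∑ i ∈ univ.filter (fun i => tgt i = v), (deg src (tgt i) : ℝ) := by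
    intro v
    rw [Finset.sum_congr rfl (g := fun _ => (deg src v : ℝ))]
    · rw [Finset.sum_const, nsmul_eq_mul, deg]
    · intro i hi
      rw [(mem_filter.1 hi).2]
  simp_rw [h]
  rw [Finset.sum_fiberwise]

section Phi

variable (q c : ℕ → ℝ) (δ γ α β κ : ℝ)

/-- potential -/
noncomputable def PrP (P : List (O × ℕ)) : ℝ := (P.map fun x => 1 - q x.2).prod
/-- potential -/
noncomputable def SbP (P : List (O × ℕ)) : ℝ := (P.map fun x => (1 + δ) ^ x.2).sum
/-- potential -/
noncomputable def ScP (P : List (O × ℕ)) : ℝ := (P.map fun x => c x.2).sum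

/-- The potential of a state after `j` steps with pending list `P`. -/
noncomputable def Phi (j : ℕ) (P : List (O × ℕ)) : ℝ :=
  2 * α * (1 - PrP q P / (1 + γ) ^ j) + β * SbP δ P + κ * ScP c P

end Phi

theorem explore (src : O → V) (tgt : I → V) (hOI : Fintype.card O = Fintype.card I)
    {L T : ℕ} {δ γ ρ : ℝ} {q c : ℕ → ℝ} (hN : Num L T δ γ ρ q c) (hm : 2 * T < Fintype.card O)
    (hQ : ∑ v, (deg tgt v : ℝ) * (deg src v : ℝ) ≤ (1 + δ) * ((Fintype.card O : ℝ) - 2 * T))
    (hn : ρ * (Fintype.card O : ℝ) ≤
      ((univ.filter fun v => 1 ≤ deg tgt v ∧ 2 ≤ deg src v).card : ℝ) - (2 * T + 2))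
    (s₀ : Finset (O × I)) (F : Finset V) (v : V) (hpm : IsPM s₀) (hs₀ : s₀.card ≤ T)
    (hF : F.card ≤ T + 1) (_hv : v ∈ F)
    (hsF : ∀ p ∈ s₀, src p.1 ∈ F ∧ tgt p.2 ∈ F ∧ src p.1 ≠ v)
    (G : (O ≃ I) → ℝ) (_hG0 : ∀ π, 0 ≤ G π) (hG1 : ∀ π, G π ≤ 1)
    (α β : ℝ) (hα : 0 ≤ α) (hβ : 0 ≤ β)
    (hfin : ∀ s D, Inv src tgt s₀ F v L s D [] → ∀ π ∈ ext s, G π = 0)
    (hbad : ∀ s D P, Inv src tgt s₀ F v L s D P → s.card ≤ s₀.card + T →
      ∑ π ∈ ext s, G π ≤ ((Fintype.card O - s.card).factorial : ℝ) * (α + β * P.length)) :
    ∑ π ∈ ext s₀, G π ≤ ((Fintype.card O - s₀.card).factorial : ℝ) *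
      ((deg src v : ℝ) * (2 * α * q L + β * (1 + δ) ^ L +
        c L * (((freeI s₀).filter fun i => tgt i ∈ F).card : ℝ) /
          ((Fintype.card O : ℝ) - 2 * T))) := by
  classical
  set m := Fintype.card O with hmdef
  have hmR : (2 * T : ℝ) < m := by exact_mod_cast hm
  have hM : 0 < (m : ℝ) - 2 * T := by linarith
  set h₀ : ℝ := (((freeI s₀).filter fun i => tgt i ∈ F).card : ℝ) with hh₀
  set κ : ℝ := h₀ / ((m : ℝ) - 2 * T) with hκdef
  have hκ0 : 0 ≤ κ := div_nonneg (Nat.cast_nonneg _) hM.le
  have hγ1 : (1 : ℝ) ≤ 1 + γ := by linarith [hN.γ0]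
  have hδ1 : (1 : ℝ) ≤ 1 + δ := by linarith [hN.δ0]
  have hc0 : ∀ k, 0 ≤ c k := by
    intro k
    induction k with
    | zero => rw [hN.c0]
    | succ k ih =>
      rw [hN.cstep]
      nlinarith
  -- elementary facts about the potentials
  have hPr0 : ∀ P : List (O × ℕ), 0 ≤ PrP q P := by
    intro P
    apply List.prod_nonneg
    intro a ha
    obtain ⟨x, _, rfl⟩ := List.mem_map.1 ha
    linarith [hN.q_le x.2]
  have hPr1 : ∀ P : List (O × ℕ), PrP q P ≤ 1 := by
    intro P
    induction P with
    | nil => simp [PrP]
    | cons a P ih =>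
      have : PrP q (a :: P) = (1 - q a.2) * PrP q P := by simp [PrP]
      rw [this]
      have := hN.q_nonneg a.2
      have := hN.q_le a.2
      have := hPr0 P
      nlinarith
  have hSb : ∀ P : List (O × ℕ), (P.length : ℝ) ≤ SbP δ P := by
    intro P
    induction P with
    | nil => simp [SbP]
    | cons a P ih =>
      have : SbP δ (a :: P) = (1 + δ) ^ a.2 + SbP δ P := by simp [SbP]
      rw [this]
      have := one_le_pow₀ (n := a.2) hδ1
      push_cast [List.length_cons]
      linarith
  have hSc : ∀ P : List (O × ℕ), 0 ≤ ScP c P := by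
    intro P
    apply List.sum_nonneg
    intro a ha
    obtain ⟨x, _, rfl⟩ := List.mem_map.1 ha
    exact hc0 _
  have hPrApp : ∀ (P : List (O × ℕ)) (w : V) (k : ℕ),
      PrP q (P ++ newl src w k) = PrP q P * (1 - q k) ^ (deg src w) := by
    intro P w k
    simp only [PrP, List.map_append, List.prod_append]
    congr 1
    rw [← length_newl src w k]
    rw [List.prod_eq_pow_card _ (1 - q k)]
    · simp
    · intro x hx
      obtain ⟨y, hy, rfl⟩ := List.mem_map.1 hx
      rw [(mem_newl.1 hy).2]
  have hSbApp : ∀ (P : List (O × ℕ)) (w : V) (k : ℕ),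
      SbP δ (P ++ newl src w k) = SbP δ P + (deg src w) * (1 + δ) ^ k := by
    intro P w k
    simp only [SbP, List.map_append, List.sum_append]
    congr 1
    rw [← length_newl src w k]
    rw [List.sum_eq_card_nsmul _ ((1 + δ) ^ k)]
    · simp
    · intro x hx
      obtain ⟨y, hy, rfl⟩ := List.mem_map.1 hx
      rw [(mem_newl.1 hy).2]
  have hScApp : ∀ (P : List (O × ℕ)) (w : V) (k : ℕ),
      ScP c (P ++ newl src w k) = ScP c P + (deg src w) * c k := by
    intro P w k
    simp only [ScP, List.map_append, List.sum_append]
    congr 1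
    rw [← length_newl src w k]
    rw [List.sum_eq_card_nsmul _ (c k)]
    · simp
    · intro x hx
      obtain ⟨y, hy, rfl⟩ := List.mem_map.1 hx
      rw [(mem_newl.1 hy).2]
  have hPhi0 : ∀ j P, 0 ≤ Phi q c δ γ α β κ (O := O) j P := by
    intro j P
    have h1 : PrP q P / (1 + γ) ^ j ≤ 1 := by
      rw [div_le_one (by positivity)]
      exact (hPr1 P).trans (one_le_pow₀ hγ1)
    have h2 := hSb P
    have h3 := hSc P
    have h4 : (0 : ℝ) ≤ P.length := Nat.cast_nonneg _
    unfold Phi
    have : 0 ≤ 2 * α * (1 - PrP q P / (1 + γ) ^ j) := by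
      apply mul_nonneg (by linarith)
      linarith
    have : 0 ≤ β * SbP δ P := mul_nonneg hβ (by linarith)
    have : 0 ≤ κ * ScP c P := mul_nonneg hκ0 h3
    linarith
  -- main induction
  have main : ∀ fuel : ℕ, ∀ s D P, Inv src tgt s₀ F v L s D P → s.card + fuel = s₀.card + T →
      ∑ π ∈ ext s, G π ≤ ((m - s.card).factorial : ℝ) *
        Phi q c δ γ α β κ (s.card - s₀.card) P := by
    intro fuel
    induction fuel with
    | zero =>
      intro s D P hI hcard
      have hj : s.card - s₀.card = T := by omega
      refine (hbad s D P hI (by omega)).trans ?_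
      apply mul_le_mul_of_nonneg_left _ (Nat.cast_nonneg _)
      rw [hj]
      have h1 : PrP q P / (1 + γ) ^ T ≤ 1 / 2 := by
        rw [div_le_iff₀ (by positivity)]
        have := hPr1 P
        have := hN.hT
        linarith
      have h2 := mul_le_mul_of_nonneg_left (hSb P) hβ
      have h3 := mul_nonneg hκ0 (hSc P)
      unfold Phi
      nlinarith
    | succ fuel ih =>
      intro s D P hI hcard
      rcases P with _ | ⟨⟨o, k'⟩, P⟩
      · rw [Finset.sum_eq_zero (hfin s D hI)]
        exact mul_nonneg (Nat.cast_nonneg _) (hPhi0 _ _)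
      · rcases k' with _ | k
        · refine (hbad s D _ hI (by omega)).trans ?_
          apply mul_le_mul_of_nonneg_left _ (Nat.cast_nonneg _)
          have h1 : PrP q ((o, 0) :: P) = 0 := by simp [PrP, hN.q0]
          have h2 := mul_le_mul_of_nonneg_left (hSb ((o, 0) :: P)) hβ
          have h3 := mul_nonneg hκ0 (hSc ((o, 0) :: P))
          unfold Phi
          rw [h1]
          simp only [zero_div, sub_zero, mul_one]
          linarith
        · -- the real step
          have hpo := hI.pend (o, k + 1) (by simp)
          have hkL : k < L := hpo.2.2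
          rw [sum_ext_split s G o hpo.2.1]
          have hcs : s.card < m := by omega
          have hfree : (freeI s).card + s.card = m := by rw [card_freeI hI.pm, hOI]
          have hsc : s₀.card ≤ s.card := card_le_card hI.sub
          set j := s.card - s₀.card with hj
          let ξ : I → ℕ := fun i => if tgt i ∈ F ∨ tgt i ∈ D then 0 else deg src (tgt i)
          have claim : ∀ i ∈ freeI s, ∑ π ∈ ext (insert (o, i) s), G π ≤
              ((m - (s.card + 1)).factorial : ℝ) *
              (2 * α * (1 - PrP q P * (1 - q k) ^ (ξ i) / ((1 + γ) ^ j * (1 + γ))) +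
                β * (SbP δ P + ξ i * (1 + δ) ^ k) +
                κ * (ScP c P + ξ i * c k) + if tgt i ∈ F then 1 else 0) := by
            intro i hi
            have hcc := card_insert_pair (i := i) hI
            have hpm' : IsPM (insert (o, i) s) := hI.pm.insert' hpo.2.1 (mem_freeI.1 hi)
            have hj1 : (insert (o, i) s).card - s₀.card = j + 1 := by omega
            by_cases hiF : tgt i ∈ F
            · have hξ : ξ i = 0 := by simp [ξ, hiF]
              rw [hξ, if_pos hiF]
              have hle : ∑ π ∈ ext (insert (o, i) s), G π ≤ ((m - (s.card + 1)).factorial : ℝ) := by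
                calc ∑ π ∈ ext (insert (o, i) s), G π ≤ ∑ π ∈ ext (insert (o, i) s), (1 : ℝ) :=
                      Finset.sum_le_sum fun π _ => hG1 π
                  _ = ((ext (insert (o, i) s)).card : ℝ) := by simp
                  _ = _ := by rw [card_ext hOI hpm', hcc]
              refine hle.trans ?_
              have hf : (0 : ℝ) ≤ ((m - (s.card + 1)).factorial : ℝ) := Nat.cast_nonneg _
              have h1 : PrP q P / ((1 + γ) ^ j * (1 + γ)) ≤ 1 := by
                rw [div_le_one (by positivity)]
                have := one_le_pow₀ (n := j) hγ1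
                have := hPr1 P
                nlinarith
              have h2 : 0 ≤ 2 * α * (1 - PrP q P / ((1 + γ) ^ j * (1 + γ))) :=
                mul_nonneg (by linarith) (by linarith)
              have h3 : 0 ≤ β * SbP δ P :=
                mul_nonneg hβ ((Nat.cast_nonneg (α := ℝ) P.length).trans (hSb P))
              have h4 : 0 ≤ κ * ScP c P := mul_nonneg hκ0 (hSc P)
              simp only [pow_zero, mul_one, Nat.cast_zero, zero_mul, add_zero]
              nlinarith
            · rw [if_neg hiF, add_zero]
              by_cases hiD : tgt i ∈ D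
              · have hξ : ξ i = 0 := by simp [ξ, hiD]
                have := ih _ _ _ (hI.old hi hiD hiF) (by omega)
                rw [hcc] at this
                refine this.trans (le_of_eq ?_)
                rw [hξ]
                unfold Phi
                have : s.card + 1 - s₀.card = j + 1 := by omega
                rw [this, pow_succ]
                simp
              · have hξ : ξ i = deg src (tgt i) := by simp [ξ, hiD, hiF]
                have := ih _ _ _ (hI.new (fun p hp => (hsF p hp).1) hi hiD hiF) (by omega)
                rw [hcc] at this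
                refine this.trans (le_of_eq ?_)
                rw [hξ]
                unfold Phi
                rw [hPrApp, hSbApp, hScApp]
                have : s.card + 1 - s₀.card = j + 1 := by omega
                rw [this, pow_succ]
          refine (Finset.sum_le_sum claim).trans ?_
          rw [← Finset.mul_sum]
          have hX : ∑ i ∈ freeI s, (ξ i : ℝ) ≤ (1 + δ) * ((m : ℝ) - 2 * T) := by
            refine le_trans ?_ hQ
            rw [← sum_deg_tgt]
            refine (Finset.sum_le_sum (g := fun i => (deg src (tgt i) : ℝ)) ?_).trans ?_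
            · intro i _
              simp only [ξ]
              split_ifs
              · simp
              · exact le_rfl
            · exact Finset.sum_le_sum_of_subset_of_nonneg (subset_univ _)
                fun i _ _ => Nat.cast_nonneg _
          have hU : (m : ℝ) - 2 * T ≤ (freeI s).card := by
            have : (m : ℝ) = (freeI s).card + s.card := by exact_mod_cast hfree.symm
            have : (s.card : ℝ) ≤ 2 * T := by
              have : s.card ≤ 2 * T := by omega
              exact_mod_cast this
            linarith
          have hξ2 : ρ * (freeI s).card ≤ (((freeI s).filter fun i => 2 ≤ ξ i).card : ℝ) := by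
            have h1 : ρ * (freeI s).card ≤ ρ * m := by
              apply mul_le_mul_of_nonneg_left _ hN.ρ0
              have : (freeI s).card ≤ m := by omega
              exact_mod_cast this
            refine h1.trans (hn.trans ?_)
            -- injection
            have hsub : (univ.filter fun w => 1 ≤ deg tgt w ∧ 2 ≤ deg src w) ⊆
                (((freeI s).filter fun i => 2 ≤ ξ i).image tgt) ∪ (F ∪ D) := by
              intro w hw
              obtain ⟨_, hw1, hw2⟩ := mem_filter.1 hw
              by_cases hwF : w ∈ F
              · exact mem_union_right _ (mem_union_left _ hwF)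
              by_cases hwD : w ∈ D
              · exact mem_union_right _ (mem_union_right _ hwD)
              apply mem_union_left
              obtain ⟨i, hi⟩ := Finset.card_pos.1 (show 0 < (univ.filter fun i => tgt i = w).card
                from hw1)
              have hiw := (mem_filter.1 hi).2
              refine mem_image.2 ⟨i, mem_filter.2 ⟨mem_freeI.2 ?_, ?_⟩, hiw⟩
              · intro p hp hpi
                by_cases hp0 : p ∈ s₀
                · apply hwF
                  rw [← hiw, ← hpi]
                  exact (hsF p hp0).2.1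
                · apply hwD
                  rw [← hiw, ← hpi]
                  exact (hI.tgt_mem p hp hp0).1
              · simp only [ξ, hiw, hwF, hwD, or_self, if_false]
                exact hw2
            have hc1 := card_le_card hsub
            have hc2 := card_union_le (((freeI s).filter fun i => 2 ≤ ξ i).image tgt) (F ∪ D)
            have hc3 := card_union_le F D
            have hc4 := card_image_le (s := (freeI s).filter fun i => 2 ≤ ξ i) (f := tgt)
            have hc5 := hI.cardD
            have hc6 : (univ.filter fun w => 1 ≤ deg tgt w ∧ 2 ≤ deg src w).card ≤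
                ((freeI s).filter fun i => 2 ≤ ξ i).card + (2 * T + 2) := by omega
            have hc7 : ((univ.filter fun w => 1 ≤ deg tgt w ∧ 2 ≤ deg src w).card : ℝ) ≤
                ((freeI s).filter fun i => 2 ≤ ξ i).card + (2 * T + 2) := by exact_mod_cast hc6
            linarith
          have hhit : (((freeI s).filter fun i => tgt i ∈ F).card : ℝ) ≤
              κ * ((m : ℝ) - 2 * T) := by
            rw [hκdef, div_mul_cancel₀ _ hM.ne', hh₀]
            have : (freeI s).filter (fun i => tgt i ∈ F) ⊆ (freeI s₀).filter fun i => tgt i ∈ F := by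
              intro i hi
              obtain ⟨h1, h2⟩ := mem_filter.1 hi
              exact mem_filter.2 ⟨mem_freeI.2 fun p hp => mem_freeI.1 h1 p (hI.sub hp), h2⟩
            exact_mod_cast card_le_card this
          have hst := step_ineq (freeI s) ξ (fun i => tgt i ∈ F) (q := q k) (c := c k)
            (q' := q (k + 1)) (c' := c (k + 1)) (δ := δ) (γ := γ) (ρ := ρ) (α := α) (β := β)
            (κ := κ) (A := PrP q P) (B := SbP δ P) (C := ScP c P) (E := (1 + γ) ^ j)
            (g := (1 + δ) ^ k) hM hU hX hξ2 hhit (hN.q_nonneg k) (hN.q_le k) hN.δ0 hN.γ0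
            (hN.qstep k hkL) (hN.cstep k) hα hβ hκ0 (hPr0 P) (by positivity) (hc0 k)
            (by positivity)
          refine (mul_le_mul_of_nonneg_left hst (Nat.cast_nonneg _)).trans (le_of_eq ?_)
          have hfac : ((m - s.card).factorial : ℝ) =
              ((m - (s.card + 1)).factorial : ℝ) * (freeI s).card := by
            have h1 : m - s.card = (m - (s.card + 1)) + 1 := by omega
            have h2 : (freeI s).card = (m - (s.card + 1)) + 1 := by omega
            rw [h1, h2, Nat.factorial_succ]
            push_cast
            ring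
          have e1 : PrP q ((o, k + 1) :: P) = PrP q P * (1 - q (k + 1)) := by
            simp [PrP, mul_comm]
          have e2 : SbP δ ((o, k + 1) :: P) = SbP δ P + (1 + δ) * (1 + δ) ^ k := by
            simp [SbP, pow_succ, mul_comm, add_comm]
          have e3 : ScP c ((o, k + 1) :: P) = ScP c P + c (k + 1) := by
            simp [ScP, add_comm]
          unfold Phi
          rw [e1, e2, e3, hfac]
          ring
  -- conclusion
  have h0 := main T s₀ {v} (newl src v L) (Inv.init hpm fun p hp => (hsF p hp).2.2) rfl
  refine h0.trans ?_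
  apply mul_le_mul_of_nonneg_left _ (Nat.cast_nonneg _)
  have e1 : PrP q (newl src v L) = (1 - q L) ^ (deg src v) := by
    have := hPrApp [] v L
    simpa [PrP] using this
  have e2 : SbP δ (newl src v L) = (deg src v) * (1 + δ) ^ L := by
    have := hSbApp [] v L
    simpa [SbP] using this
  have e3 : ScP c (newl src v L) = (deg src v) * c L := by
    have := hScApp [] v L
    simpa [ScP] using this
  unfold Phi
  rw [e1, e2, e3, Nat.sub_self, pow_zero, div_one]
  have hB : 1 - (1 - q L) ^ (deg src v) ≤ (deg src v) * q L := by
    have := one_sub_pow_ge (q L) (hN.q_nonneg L) (hN.q_le L) (deg src v)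
    have h2 : 0 ≤ (q L) ^ 2 * (if 2 ≤ deg src v then (1 : ℝ) else 0) := by
      split_ifs <;> positivity
    linarith
  have hB' := mul_le_mul_of_nonneg_left hB (show 0 ≤ 2 * α by linarith)
  have e4 : c L * h₀ / ((m : ℝ) - 2 * T) = κ * c L := by
    rw [hκdef]
    ring
  rw [e4]
  nlinarith

end H95.DCM
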