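import Pool.Agent.H95.DCM.Ext

/-!
# Exploration: preservation of the invariant and the one-step inequality
-/

open Finset

namespace H95.DCM

section Step
variable {V O I : Type*} [DecidableEq V] [Fintype O] [DecidableEq O] [Fintype I]
  [DecidableEq I]

theorem ext_mono {s t : Finset (O × I)} (h : s ⊆ t) : ext t ⊆ ext s := by
  intro π hπ
  simp only [ext, mem_filter, mem_univ, true_and] at hπ ⊢
  exact fun p hp => hπ p (h hp)

theorem mem_extE {s : Finset (O × I)} {π : O ≃ I} : π ∈ ext s ↔ ∀ p ∈ s, π p.1 = p.2 := by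
  simp [ext]

theorem mem_freeI {s : Finset (O × I)} {i : I} : i ∈ freeI s ↔ ∀ p ∈ s, p.2 ≠ i := by
  simp [freeI]

/-- the half-edges of `w`, pending with depth `k` -/
noncomputable def newl (src : O → V) (w : V) (k : ℕ) : List (O × ℕ) :=
  (univ.filter fun o => src o = w).toList.map fun o => (o, k)

omit [DecidableEq O] in
theorem mem_newl {src : O → V} {w : V} {k : ℕ} {x : O × ℕ} :
    x ∈ newl src w k ↔ src x.1 = w ∧ x.2 = k := by
  simp only [newl, List.mem_map, Finset.mem_toList, mem_filter, mem_univ, true_and]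
  constructor
  · rintro ⟨o, h, rfl⟩
    exact ⟨h, rfl⟩
  · rintro ⟨h1, h2⟩
    exact ⟨x.1, h1, by rw [← h2]⟩

omit [DecidableEq O] in
theorem length_newl (src : O → V) (w : V) (k : ℕ) : (newl src w k).length = deg src w := by
  simp [newl, deg]

omit [DecidableEq O] in
theorem nodup_newl (src : O → V) (w : V) (k : ℕ) : ((newl src w k).map Prod.fst).Nodup := by
  have : (newl src w k).map Prod.fst = (univ.filter fun o => src o = w).toList := by
    simp [newl, Function.comp_def]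
  rw [this]
  exact Finset.nodup_toList _

variable {src : O → V} {tgt : I → V} {s₀ : Finset (O × I)} {F : Finset V} {v : V} {L : ℕ}
  {s : Finset (O × I)} {D : Finset V} {P : List (O × ℕ)} {o : O} {i : I} {k : ℕ}

theorem card_insert_pair (hP : Inv src tgt s₀ F v L s D ((o, k) :: P)) :
    (insert (o, i) s).card = s.card + 1 := by
  rw [card_insert_of_notMem]
  intro h
  exact (hP.pend (o, k) (by simp)).2.1 _ h rfl

theorem Inv.old (hP : Inv src tgt s₀ F v L s D ((o, k) :: P)) (hi : i ∈ freeI s)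
    (hD : tgt i ∈ D) (hF : tgt i ∉ F) : Inv src tgt s₀ F v L (insert (o, i) s) D P := by
  have hpo := hP.pend (o, k) (by simp)
  have hnd := hP.nodup
  simp only [List.map_cons, List.nodup_cons] at hnd
  refine ⟨hP.pm.insert' hpo.2.1 (mem_freeI.1 hi), hP.sub.trans (subset_insert _ _), hP.vD, hP.inter,
    ?_, ?_, ?_, hnd.2, ?_, ?_, ?_, ?_⟩
  · intro p hp hp0
    rcases mem_insert.1 hp with rfl | hp
    · exact hpo.1
    · exact hP.src_mem p hp hp0
  · intro p hp hp0
    rcases mem_insert.1 hp with rfl | hp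
    · exact ⟨hD, hF⟩
    · exact hP.tgt_mem p hp hp0
  · rw [card_insert_pair hP]
    have := hP.cardD
    omega
  · intro x hx
    have := hP.pend x (by simp [hx])
    refine ⟨this.1, ?_, this.2.2⟩
    intro p hp
    rcases mem_insert.1 hp with rfl | hp
    · intro h
      exact hnd.1 (List.mem_map.2 ⟨x, hx, h.symm⟩)
    · exact this.2.1 p hp
  · intro o' ho'
    rcases hP.cover o' ho' with ⟨i', hi'⟩ | ⟨k', hk'⟩
    · exact Or.inl ⟨i', mem_insert_of_mem hi'⟩
    · rcases List.mem_cons.1 hk' with h | h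
      · left
        refine ⟨i, ?_⟩
        have : o' = o := (Prod.ext_iff.1 h).1
        rw [this]
        exact mem_insert_self _ _
      · exact Or.inr ⟨k', h⟩
  · intro w hw π hπ
    exact hP.depthD w hw π (ext_mono (subset_insert _ _) hπ)
  · intro x hx π hπ
    exact hP.depthP x (by simp [hx]) π (ext_mono (subset_insert _ _) hπ)

theorem Inv.new (hs0 : ∀ p ∈ s₀, src p.1 ∈ F)
    (hP : Inv src tgt s₀ F v L s D ((o, k + 1) :: P)) (hi : i ∈ freeI s)
    (hD : tgt i ∉ D) (hF : tgt i ∉ F) :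
    Inv src tgt s₀ F v L (insert (o, i) s) (insert (tgt i) D) (P ++ newl src (tgt i) k) := by
  have hpo := hP.pend (o, k + 1) (by simp)
  have hkL : k + 1 ≤ L := hpo.2.2
  have hnd := hP.nodup
  simp only [List.map_cons, List.nodup_cons] at hnd
  refine ⟨hP.pm.insert' hpo.2.1 (mem_freeI.1 hi), hP.sub.trans (subset_insert _ _),
    mem_insert_of_mem hP.vD, ?_, ?_, ?_, ?_, ?_, ?_, ?_, ?_, ?_⟩
  · intro w hw hwF
    rcases mem_insert.1 hw with rfl | hw
    · exact absurd hwF hF
    · exact hP.inter w hw hwF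
  · intro p hp hp0
    rcases mem_insert.1 hp with rfl | hp
    · exact mem_insert_of_mem hpo.1
    · exact mem_insert_of_mem (hP.src_mem p hp hp0)
  · intro p hp hp0
    rcases mem_insert.1 hp with rfl | hp
    · exact ⟨mem_insert_self _ _, hF⟩
    · exact ⟨mem_insert_of_mem (hP.tgt_mem p hp hp0).1, (hP.tgt_mem p hp hp0).2⟩
  · rw [card_insert_pair hP, card_insert_of_notMem hD]
    have := hP.cardD
    omega
  · rw [List.map_append]
    refine List.Nodup.append hnd.2 (nodup_newl _ _ _) ?_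
    intro a ha hb
    rw [List.mem_map] at ha hb
    obtain ⟨x, hx, rfl⟩ := ha
    obtain ⟨y, hy, hxy⟩ := hb
    have h1 := (hP.pend x (by simp [hx])).1
    rw [← hxy, (mem_newl.1 hy).1] at h1
    exact hD h1
  · intro x hx
    rcases List.mem_append.1 hx with hx | hx
    · have := hP.pend x (by simp [hx])
      refine ⟨mem_insert_of_mem this.1, ?_, this.2.2⟩
      intro p hp
      rcases mem_insert.1 hp with rfl | hp
      · intro h
        exact hnd.1 (List.mem_map.2 ⟨x, hx, h.symm⟩)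
      · exact this.2.1 p hp
    · obtain ⟨h1, h2⟩ := mem_newl.1 hx
      refine ⟨by rw [h1]; exact mem_insert_self _ _, ?_, by omega⟩
      intro p hp h
      rcases mem_insert.1 hp with rfl | hp
      · apply hD
        rw [← h1, ← h]
        exact hpo.1
      · by_cases hp0 : p ∈ s₀
        · apply hF
          rw [← h1, ← h]
          exact hs0 p hp0
        · apply hD
          rw [← h1, ← h]
          exact hP.src_mem p hp hp0
  · intro o' ho'
    rcases mem_insert.1 ho' with h | h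
    · right
      exact ⟨k, List.mem_append_right _ (mem_newl.2 ⟨h, rfl⟩)⟩
    · rcases hP.cover o' h with ⟨i', hi'⟩ | ⟨k', hk'⟩
      · exact Or.inl ⟨i', mem_insert_of_mem hi'⟩
      · rcases List.mem_cons.1 hk' with h | h
        · left
          refine ⟨i, ?_⟩
          have : o' = o := (Prod.ext_iff.1 h).1
          rw [this]
          exact mem_insert_self _ _
        · exact Or.inr ⟨k', List.mem_append_left _ h⟩
  · intro w hw π hπ
    rcases mem_insert.1 hw with rfl | hw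
    · obtain ⟨k', hk', hst⟩ := hP.depthP (o, k + 1) (by simp) π
        (ext_mono (subset_insert _ _) hπ)
      refine ⟨k' + 1, by simp only at hk'; omega, src o, hst, o, rfl, ?_⟩
      rw [mem_extE.1 hπ (o, i) (mem_insert_self _ _)]
    · exact hP.depthD w hw π (ext_mono (subset_insert _ _) hπ)
  · intro x hx π hπ
    rcases List.mem_append.1 hx with hx | hx
    · exact hP.depthP x (by simp [hx]) π (ext_mono (subset_insert _ _) hπ)
    · obtain ⟨h1, h2⟩ := mem_newl.1 hx
      obtain ⟨k', hk', hst⟩ := hP.depthP (o, k + 1) (by simp) π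
        (ext_mono (subset_insert _ _) hπ)
      refine ⟨k' + 1, by simp only at hk'; omega, ?_⟩
      rw [h1]
      refine ⟨src o, hst, o, rfl, ?_⟩
      rw [mem_extE.1 hπ (o, i) (mem_insert_self _ _)]

theorem Inv.init (hpm : IsPM s₀) (hv : ∀ p ∈ s₀, src p.1 ≠ v) :
    Inv src tgt s₀ F v L s₀ {v} (newl src v L) := by
  refine ⟨hpm, subset_rfl, by simp, by simp, fun p hp hp0 => absurd hp hp0,
    fun p hp hp0 => absurd hp hp0, by simp [add_comm], nodup_newl _ _ _, ?_, ?_, ?_, ?_⟩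
  · intro x hx
    obtain ⟨h1, h2⟩ := mem_newl.1 hx
    refine ⟨by simp [h1], ?_, by omega⟩
    intro p hp h
    apply hv p hp
    rw [h, h1]
  · intro o ho
    right
    exact ⟨L, mem_newl.2 ⟨by simpa using ho, rfl⟩⟩
  · intro w hw π _
    have hwv : w = v := by simpa using hw
    exact ⟨0, by omega, hwv.symm⟩
  · intro x hx π _
    obtain ⟨h1, h2⟩ := mem_newl.1 hx
    exact ⟨0, by omega, h1.symm⟩

end Step

section Ineq

theorem one_sub_pow_ge (q : ℝ) (h0 : 0 ≤ q) (h1 : q ≤ 1) (k : ℕ) :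
    1 - q * k + q ^ 2 * (if 2 ≤ k then 1 else 0) ≤ (1 - q) ^ k := by
  induction k with
  | zero => simp
  | succ n ih =>
    rcases n with _ | _ | n
    · simp
    · norm_num
      nlinarith
    · have h2 : 2 ≤ n + 1 + 1 := by omega
      have h3 : 2 ≤ n + 1 + 1 + 1 := by omega
      rw [if_pos h2] at ih
      rw [if_pos h3]
      have hps : (1 - q) ^ (n + 1 + 1 + 1) = (1 - q) ^ (n + 1 + 1) - q * (1 - q) ^ (n + 1 + 1) := by
        ring
      rw [hps]
      have hp : (1 - q) ^ (n + 1 + 1) ≤ 1 := pow_le_one₀ (by linarith) (by linarith)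
      push_cast at ih ⊢
      have : q * (1 - q) ^ (n + 1 + 1) ≤ q := by nlinarith
      nlinarith

/-- The one-step supermartingale inequality. -/
theorem step_ineq {I : Type*} (U : Finset I) (ξ : I → ℕ) (hit : I → Prop) [DecidablePred hit]
    {q c q' c' δ γ ρ α β κ A B C E M : ℝ} (hM : 0 < M) (hU : M ≤ U.card)
    (hX : ∑ i ∈ U, (ξ i : ℝ) ≤ (1 + δ) * M)
    (hξ : ρ * U.card ≤ ((U.filter fun i => 2 ≤ ξ i).card : ℝ))
    (hh : ((U.filter fun i => hit i).card : ℝ) ≤ κ * M)
    (hq0 : 0 ≤ q) (hq1 : q ≤ 1) (hδ : 0 ≤ δ) (hγ : 0 ≤ γ)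
    (hqs : (1 + γ) * (1 - q') ≤ 1 - q * (1 + δ) + ρ * q ^ 2)
    (hc : c' = 1 + (1 + δ) * c) (hα : 0 ≤ α) (hβ : 0 ≤ β) (hκ : 0 ≤ κ) (hA : 0 ≤ A) (hE : 0 < E)
    (hc0 : 0 ≤ c) {g : ℝ} (hg : 0 ≤ g) :
    ∑ i ∈ U, (2 * α * (1 - A * (1 - q) ^ (ξ i) / (E * (1 + γ))) + β * (B + ξ i * g) +
      κ * (C + ξ i * c) + if hit i then 1 else 0) ≤
      U.card * (2 * α * (1 - A * (1 - q') / E) + β * (B + (1 + δ) * g) + κ * (C + c')) := by
  have hN : 0 < (U.card : ℝ) := lt_of_lt_of_le hM hU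
  have hXN : ∑ i ∈ U, (ξ i : ℝ) ≤ (1 + δ) * U.card :=
    hX.trans (mul_le_mul_of_nonneg_left hU (by linarith))
  have hhN : ((U.filter fun i => hit i).card : ℝ) ≤ κ * U.card :=
    hh.trans (mul_le_mul_of_nonneg_left hU hκ)
  have h1 : (U.card : ℝ) * ((1 + γ) * (1 - q')) ≤ ∑ i ∈ U, (1 - q) ^ (ξ i) := by
    have hlow : ∑ i ∈ U, (1 - q * (ξ i : ℝ) + q ^ 2 * (if 2 ≤ ξ i then (1 : ℝ) else 0)) ≤
        ∑ i ∈ U, (1 - q) ^ (ξ i) := Finset.sum_le_sum fun i _ => one_sub_pow_ge q hq0 hq1 (ξ i)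
    have heq : ∑ i ∈ U, (1 - q * (ξ i : ℝ) + q ^ 2 * (if 2 ≤ ξ i then (1 : ℝ) else 0)) =
        U.card - q * ∑ i ∈ U, (ξ i : ℝ) + q ^ 2 * ((U.filter fun i => 2 ≤ ξ i).card : ℝ) := by
      rw [Finset.sum_add_distrib, Finset.sum_sub_distrib, ← Finset.mul_sum, ← Finset.mul_sum,
        Finset.sum_boole]
      simp
    rw [heq] at hlow
    refine le_trans ?_ hlow
    have e1 : q * ∑ i ∈ U, (ξ i : ℝ) ≤ q * ((1 + δ) * U.card) :=
      mul_le_mul_of_nonneg_left hXN hq0
    have e2 : q ^ 2 * (ρ * U.card) ≤ q ^ 2 * ((U.filter fun i => 2 ≤ ξ i).card : ℝ) :=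
      mul_le_mul_of_nonneg_left hξ (by positivity)
    have e3 : (U.card : ℝ) * ((1 + γ) * (1 - q')) ≤
        U.card * (1 - q * (1 + δ) + ρ * q ^ 2) := mul_le_mul_of_nonneg_left hqs hN.le
    nlinarith
  have hsum : ∑ i ∈ U, (2 * α * (1 - A * (1 - q) ^ (ξ i) / (E * (1 + γ))) + β * (B + ξ i * g) +
      κ * (C + ξ i * c) + if hit i then (1 : ℝ) else 0) =
      2 * α * (U.card - A / (E * (1 + γ)) * ∑ i ∈ U, (1 - q) ^ (ξ i)) +
      β * (U.card * B + g * ∑ i ∈ U, (ξ i : ℝ)) +
      κ * (U.card * C + c * ∑ i ∈ U, (ξ i : ℝ)) + ((U.filter fun i => hit i).card : ℝ) := by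
    rw [Finset.sum_add_distrib, Finset.sum_add_distrib, Finset.sum_add_distrib, Finset.sum_boole]
    congr 1
    · congr 1
      · congr 1
        · rw [← Finset.mul_sum, Finset.sum_sub_distrib, Finset.mul_sum]
          congr 2
          · simp
          · exact Finset.sum_congr rfl fun i _ => by ring
        · rw [← Finset.mul_sum, Finset.sum_add_distrib, Finset.mul_sum]
          congr 2
          · simp
          · exact Finset.sum_congr rfl fun i _ => by ring
      · rw [← Finset.mul_sum, Finset.sum_add_distrib, Finset.mul_sum]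
        congr 2
        · simp
        · exact Finset.sum_congr rfl fun i _ => by ring
  rw [hsum]
  have hg1 : (0 : ℝ) < 1 + γ := by linarith
  have t1 : A / (E * (1 + γ)) * (U.card * ((1 + γ) * (1 - q'))) ≤
      A / (E * (1 + γ)) * ∑ i ∈ U, (1 - q) ^ (ξ i) :=
    mul_le_mul_of_nonneg_left h1 (by positivity)
  have t1' : A / (E * (1 + γ)) * (U.card * ((1 + γ) * (1 - q'))) = U.card * (A * (1 - q') / E) := by
    field_simp
  have t2 : g * ∑ i ∈ U, (ξ i : ℝ) ≤ g * ((1 + δ) * U.card) := mul_le_mul_of_nonneg_left hXN hg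
  have t3 : c * ∑ i ∈ U, (ξ i : ℝ) ≤ c * ((1 + δ) * U.card) := mul_le_mul_of_nonneg_left hXN hc0
  have u1 : 2 * α * (U.card - A / (E * (1 + γ)) * ∑ i ∈ U, (1 - q) ^ (ξ i)) ≤
      2 * α * (U.card - U.card * (A * (1 - q') / E)) := by
    apply mul_le_mul_of_nonneg_left _ (by positivity)
    linarith
  have u2 : β * (U.card * B + g * ∑ i ∈ U, (ξ i : ℝ)) ≤ β * (U.card * B + g * ((1 + δ) * U.card)) :=
    mul_le_mul_of_nonneg_left (by linarith) hβ
  have u3 : κ * (U.card * C + c * ∑ i ∈ U, (ξ i : ℝ)) ≤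
      κ * (U.card * C + c * ((1 + δ) * U.card)) :=
    mul_le_mul_of_nonneg_left (by linarith) hκ
  rw [hc]
  nlinarith

end Ineq

end H95.DCM
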