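import Pool.Agent.H95.DCM.Defs

/-!
# Job DCM-1: counting the pairings that extend a partial matching
-/

open Finset

namespace H95.DCM

variable {O I : Type*} [Fintype O] [DecidableEq O] [Fintype I] [DecidableEq I]

omit [Fintype O] [DecidableEq O] [Fintype I] [DecidableEq I] in
theorem isPM_empty : IsPM (∅ : Finset (O × I)) := by
  intro p hp
  simp at hp

omit [Fintype O] [Fintype I] in
theorem IsPM.insert' {s : Finset (O × I)} (hs : IsPM s) {o : O} {i : I}
    (ho : ∀ p ∈ s, p.1 ≠ o) (hi : ∀ p ∈ s, p.2 ≠ i) : IsPM (insert (o, i) s) := by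
  intro p hp q hq
  rw [mem_insert] at hp hq
  rcases hp with rfl | hp <;> rcases hq with rfl | hq
  · simp
  · exact ⟨fun h => absurd h.symm (ho q hq), fun h => absurd h.symm (hi q hq)⟩
  · exact ⟨fun h => absurd h (ho p hp), fun h => absurd h (hi p hp)⟩
  · exact hs p hp q hq

omit [Fintype O] [DecidableEq O] [Fintype I] [DecidableEq I] in
theorem IsPM.subset {s t : Finset (O × I)} (hs : IsPM s) (h : t ⊆ s) : IsPM t :=
  fun p hp q hq => hs p (h hp) q (h hq)

theorem card_freeI {s : Finset (O × I)} (hs : IsPM s) :
    (freeI s).card + s.card = Fintype.card I := by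
  have h1 : (s.image Prod.snd).card = s.card := by
    refine card_image_of_injOn ?_
    intro p hp q hq h
    exact Prod.ext ((hs p hp q hq).2 h) h
  have h2 : freeI s = (s.image Prod.snd)ᶜ := by
    ext i
    simp only [freeI, mem_filter, mem_univ, true_and, mem_compl, mem_image, not_exists, not_and]
  rw [h2, ← h1, add_comm, card_add_card_compl]

theorem card_freeO {s : Finset (O × I)} (hs : IsPM s) :
    (freeO s).card + s.card = Fintype.card O := by
  have h1 : (s.image Prod.fst).card = s.card := by
    refine card_image_of_injOn ?_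
    intro p hp q hq h
    exact Prod.ext h ((hs p hp q hq).1 h)
  have h2 : freeO s = (s.image Prod.fst)ᶜ := by
    ext i
    simp only [freeO, mem_filter, mem_univ, true_and, mem_compl, mem_image, not_exists, not_and]
  rw [h2, ← h1, add_comm, card_add_card_compl]

/-- Reveal the partner of the free half-edge `o`. -/
theorem sum_ext_split (s : Finset (O × I)) (G : (O ≃ I) → ℝ) (o : O) (ho : ∀ p ∈ s, p.1 ≠ o) :
    ∑ π ∈ ext s, G π = ∑ i ∈ freeI s, ∑ π ∈ ext (insert (o, i) s), G π := by
  have hmap : ∀ π ∈ ext s, π o ∈ freeI s := by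
    intro π hπ
    simp only [ext, freeI, mem_filter, mem_univ, true_and] at hπ ⊢
    intro p hp h
    exact ho p hp (π.injective ((hπ p hp).trans h))
  rw [← sum_fiberwise_of_maps_to hmap]
  refine sum_congr rfl fun i _ => ?_
  refine sum_congr ?_ fun _ _ => rfl
  ext π
  simp only [ext, mem_filter, mem_univ, true_and, mem_insert, forall_eq_or_imp]
  exact and_comm

/-- A partial matching with `t` pairs has `(m - t)!` extensions. -/
theorem card_ext (hOI : Fintype.card O = Fintype.card I) {s : Finset (O × I)} (hs : IsPM s) :
    (ext s).card = (Fintype.card O - s.card).factorial := by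
  have key : ∀ k : ℕ, ∀ s : Finset (O × I), IsPM s → (freeO s).card = k →
      (ext s).card = k.factorial := by
    intro k
    induction k with
    | zero =>
      intro s hs hk
      rw [card_eq_zero] at hk
      have hex : ∀ o : O, ∃ i : I, (o, i) ∈ s := by
        intro o
        have : o ∉ freeO s := by rw [hk]; simp
        simp only [freeO, mem_filter, mem_univ, true_and, not_forall, not_not] at this
        obtain ⟨p, hp, hpo⟩ := this
        exact ⟨p.2, by rw [← hpo]; exact hp⟩
      choose f hf using hex
      have hinj : Function.Injective f := by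
        intro a b hab
        exact (hs _ (hf a) _ (hf b)).2 hab
      have hbij : Function.Bijective f :=
        (Fintype.bijective_iff_injective_and_card f).2 ⟨hinj, hOI⟩
      rw [Nat.factorial_zero, card_eq_one]
      refine ⟨Equiv.ofBijective f hbij, ?_⟩
      ext π
      simp only [ext, mem_filter, mem_univ, true_and, mem_singleton]
      constructor
      · intro h
        ext o
        exact h _ (hf o)
      · rintro rfl p hp
        exact (hs (p.1, f p.1) (hf p.1) p hp).1 rfl
    | succ k ih =>
      intro s hs hk
      have hne : (freeO s).Nonempty := by rw [← card_pos]; omega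
      obtain ⟨o, ho⟩ := hne
      have ho' : ∀ p ∈ s, p.1 ≠ o := by simpa [freeO] using ho
      have hsum := sum_ext_split s (fun _ => (1 : ℝ)) o ho'
      simp only [sum_const, nsmul_eq_mul, mul_one] at hsum
      have h3 : ∀ i ∈ freeI s, ((ext (insert (o, i) s)).card : ℝ) = (k.factorial : ℝ) := by
        intro i hi
        have hi' : ∀ p ∈ s, p.2 ≠ i := by simpa [freeI] using hi
        have hpm := hs.insert' ho' hi'
        have hnot : (o, i) ∉ s := fun h => ho' _ h rfl
        have h1 := card_freeO hpm
        have h2 := card_freeO hs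
        rw [card_insert_of_notMem hnot] at h1
        rw [ih _ hpm (by omega)]
      rw [sum_congr rfl h3, sum_const, nsmul_eq_mul] at hsum
      have h1 := card_freeO hs
      have h2 := card_freeI hs
      have h4 : (freeI s).card = k + 1 := by omega
      rw [h4] at hsum
      rw [Nat.factorial_succ]
      exact_mod_cast hsum
  have h1 := card_freeO hs
  exact key _ s hs (by omega)

/-- Symmetry between in- and out-half-edges. -/
theorem sum_ext_swap (s : Finset (O × I)) (G : (O ≃ I) → ℝ) :
    ∑ π ∈ ext s, G π = ∑ π ∈ ext (s.image Prod.swap), G π.symm := by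
  refine sum_bij' (fun π _ => π.symm) (fun π _ => π.symm) ?_ ?_ ?_ ?_ ?_
  · intro π hπ
    simp only [ext, mem_filter, mem_univ, true_and, mem_image] at hπ ⊢
    rintro _ ⟨p, hp, rfl⟩
    rw [Prod.fst_swap, Prod.snd_swap, ← hπ p hp, Equiv.symm_apply_apply]
  · intro π hπ
    simp only [ext, mem_filter, mem_univ, true_and, mem_image] at hπ ⊢
    intro p hp
    have := hπ _ ⟨p, hp, rfl⟩
    rw [Prod.fst_swap, Prod.snd_swap] at this
    rw [← this, Equiv.symm_apply_apply]
  · intro π _; simp
  · intro π _; simp
  · intro π _; simp

omit [Fintype O] [Fintype I] in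
theorem isPM_swap {s : Finset (O × I)} (hs : IsPM s) : IsPM (s.image Prod.swap) := by
  intro p hp q hq
  rw [mem_image] at hp hq
  obtain ⟨p, hp, rfl⟩ := hp
  obtain ⟨q, hq, rfl⟩ := hq
  simp only [Prod.fst_swap, Prod.snd_swap]
  exact (hs p hp q hq).symm

end H95.DCM
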