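import Pool.Agent.H95.DCM.Law

/-!
# Job DCM-9: uniform simple digraph = pairing conditioned to be simple

`fiber_card`: for `E ∈ simpleDigraphs n d` the simple pairings `π` with `edges d π = E` correspond
to pairs `(α : OutH d ≃ E, β : InH d ≃ E)` with `(α o).1 = src o`, `(β i).2 = tgt i`:
`α o = (src o, tgt (π o))`, `β = α ∘ π⁻¹`, `π = β⁻¹ ∘ α`. For two digraphs `E`, `E'` with the same
degrees there are bijections `E ≃ E'` preserving the first, resp. the second coordinate (fibrewise
equal cardinalities), composing with them gives a bijection of the fibres. Nonempty: choose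
`α`, `β` fibrewise.
-/

open Finset

namespace H95.DCM

namespace Fib

/-- Two finite types over `V` with equal fibre cardinalities are equivalent over `V`. -/
theorem fib_equiv {X Y V : Type*} [Fintype X] [Fintype Y] [DecidableEq V] (f : X → V) (g : Y → V)
    (h : ∀ v, (univ.filter fun x => f x = v).card = (univ.filter fun y => g y = v).card) :
    ∃ e : X ≃ Y, ∀ x, g (e x) = f x := by
  have hc : ∀ v, Fintype.card {x // f x = v} = Fintype.card {y // g y = v} := by
    intro v
    rw [Fintype.card_subtype, Fintype.card_subtype]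
    exact h v
  refine ⟨(Equiv.sigmaFiberEquiv f).symm.trans
    ((Equiv.sigmaCongrRight fun v => Fintype.equivOfCardEq (hc v)).trans
      (Equiv.sigmaFiberEquiv g)), ?_⟩
  intro x
  simp only [Equiv.trans_apply]
  have := ((Fintype.equivOfCardEq (hc (f x))) ⟨x, rfl⟩).2
  exact this

variable {n : ℕ} (d : Fin n → ℕ × ℕ)

theorem card_out (v : Fin n) : (univ.filter fun o : OutH d => o.1 = v).card = (d v).2 := by
  have h : (univ.filter fun o : OutH d => o.1 = v) =
      (univ : Finset (Fin (d v).2)).map ⟨fun k => (⟨v, k⟩ : OutH d), fun a b hab => by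
        simpa using hab⟩ := by
    ext ⟨w, k⟩
    simp only [mem_filter, mem_univ, true_and, mem_map, Function.Embedding.coeFn_mk]
    constructor
    · rintro rfl
      exact ⟨k, rfl⟩
    · rintro ⟨a, ha⟩
      exact (congrArg Sigma.fst ha).symm
  rw [h, card_map, card_univ, Fintype.card_fin]

theorem card_in (v : Fin n) : (univ.filter fun o : InH d => o.1 = v).card = (d v).1 := by
  have h : (univ.filter fun o : InH d => o.1 = v) =
      (univ : Finset (Fin (d v).1)).map ⟨fun k => (⟨v, k⟩ : InH d), fun a b hab => by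
        simpa using hab⟩ := by
    ext ⟨w, k⟩
    simp only [mem_filter, mem_univ, true_and, mem_map, Function.Embedding.coeFn_mk]
    constructor
    · rintro rfl
      exact ⟨k, rfl⟩
    · rintro ⟨a, ha⟩
      exact (congrArg Sigma.fst ha).symm
  rw [h, card_map, card_univ, Fintype.card_fin]

theorem card_sub {W : Type*} [DecidableEq W] (E : Finset (Fin n × Fin n)) (f : Fin n × Fin n → W)
    (w : W) :
    (univ.filter fun e : E => f e.1 = w).card = (E.filter fun e => f e = w).card := by
  have h : (E.filter fun e => f e = w) =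
      (univ.filter fun e : E => f e.1 = w).map (Function.Embedding.subtype _) := by
    ext e
    simp only [mem_filter, mem_map, mem_univ, true_and, Function.Embedding.subtype_apply]
    constructor
    · rintro ⟨h1, h2⟩
      exact ⟨⟨e, h1⟩, h2, rfl⟩
    · rintro ⟨a, ha, rfl⟩
      exact ⟨a.2, ha⟩
  rw [h, card_map]

variable {d}

theorem mem_edges {π : OutH d ≃ InH d} {E : Finset (Fin n × Fin n)} (h : edges d π = E)
    (o : OutH d) : (srcD d o, tgtD d (π o)) ∈ E := by
  rw [← h]
  exact mem_image_of_mem _ (mem_univ o)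

/-- The equivalence `o ↦ (src o, tgt (π o))` of a simple pairing. -/
noncomputable def al (π : OutH d ≃ InH d) (E : Finset (Fin n × Fin n))
    (hs : Simple (srcD d) (tgtD d) π) (h : edges d π = E) : OutH d ≃ E :=
  Equiv.ofBijective (fun o => ⟨(srcD d o, tgtD d (π o)), mem_edges h o⟩) (by
    constructor
    · intro o o' hoo
      have := congrArg Subtype.val hoo
      simp only [Prod.mk.injEq] at this
      exact hs.2 o o' this.1 this.2
    · rintro ⟨e, he⟩
      rw [← h] at he
      obtain ⟨o, _, ho⟩ := mem_image.1 he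
      exact ⟨o, Subtype.ext ho⟩)

theorem al_apply (π : OutH d ≃ InH d) (E : Finset (Fin n × Fin n))
    (hs : Simple (srcD d) (tgtD d) π) (h : edges d π = E) (o : OutH d) :
    ((al π E hs h) o).1 = (srcD d o, tgtD d (π o)) := rfl

/-- A pair `(α, β)` of equivalences over `V` gives a simple pairing with edge set `E`. -/
theorem of_pair {E : Finset (Fin n × Fin n)} (hE : ∀ e ∈ E, e.1 ≠ e.2) (α : OutH d ≃ E)
    (β : InH d ≃ E) (hα : ∀ o, (α o).1.1 = o.1) (hβ : ∀ i, (β i).1.2 = i.1) :
    Simple (srcD d) (tgtD d) (α.trans β.symm) ∧ edges d (α.trans β.symm) = E := by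
  have key : ∀ o, (srcD d o, tgtD d ((α.trans β.symm) o)) = (α o).1 := by
    intro o
    have h1 := hα o
    have h2 := hβ (β.symm (α o))
    rw [Equiv.apply_symm_apply] at h2
    exact Prod.ext h1.symm h2.symm
  refine ⟨⟨?_, ?_⟩, ?_⟩
  · intro o ho
    have hk := key o
    have := hE _ (α o).2
    rw [← hk] at this
    exact this ho
  · intro o o' h1 h2
    have hk := key o
    have hk' := key o'
    apply α.injective
    apply Subtype.ext
    rw [← hk, ← hk', h1, h2]
  · ext e
    simp only [edges, mem_image, mem_univ, true_and]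
    constructor
    · rintro ⟨o, rfl⟩
      rw [key o]
      exact (α o).2
    · intro he
      refine ⟨α.symm ⟨e, he⟩, ?_⟩
      rw [key, Equiv.apply_symm_apply]

theorem fst_card {E : Finset (Fin n × Fin n)} (hE : E ∈ simpleDigraphs n d) (v : Fin n) :
    (univ.filter fun e : E => e.1.1 = v).card = (d v).2 := by
  rw [card_sub E Prod.fst v]
  exact ((mem_filter.1 hE).2.2 v).2

theorem snd_card {E : Finset (Fin n × Fin n)} (hE : E ∈ simpleDigraphs n d) (v : Fin n) :
    (univ.filter fun e : E => e.1.2 = v).card = (d v).1 := by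
  rw [card_sub E Prod.snd v]
  exact ((mem_filter.1 hE).2.2 v).1

theorem exists_phi {E E' : Finset (Fin n × Fin n)} (hE : E ∈ simpleDigraphs n d)
    (hE' : E' ∈ simpleDigraphs n d) : ∃ φ : E ≃ E', ∀ e, (φ e).1.1 = e.1.1 :=
  fib_equiv (fun e : E => e.1.1) (fun e : E' => e.1.1) fun v => by
    rw [fst_card hE, fst_card hE']

theorem exists_psi {E E' : Finset (Fin n × Fin n)} (hE : E ∈ simpleDigraphs n d)
    (hE' : E' ∈ simpleDigraphs n d) : ∃ φ : E ≃ E', ∀ e, (φ e).1.2 = e.1.2 :=
  fib_equiv (fun e : E => e.1.2) (fun e : E' => e.1.2) fun v => by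
    rw [snd_card hE, snd_card hE']

open Classical in
theorem fiber_le {E E' : Finset (Fin n × Fin n)}
    (hE : E ∈ simpleDigraphs n d) (hE' : E' ∈ simpleDigraphs n d) :
    (univ.filter fun π : OutH d ≃ InH d => Simple (srcD d) (tgtD d) π ∧ edges d π = E).card ≤
    (univ.filter fun π : OutH d ≃ InH d => Simple (srcD d) (tgtD d) π ∧ edges d π = E').card := by
  obtain ⟨φ, hφ⟩ := exists_phi hE hE'
  obtain ⟨ψ, hψ⟩ := exists_psi hE hE'
  let F : (OutH d ≃ InH d) → (OutH d ≃ InH d) := fun π =>
    if h : Simple (srcD d) (tgtD d) π ∧ edges d π = E then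
      ((al π E h.1 h.2).trans φ).trans ((π.symm.trans (al π E h.1 h.2)).trans ψ).symm
    else π
  have hF : ∀ π (h : Simple (srcD d) (tgtD d) π ∧ edges d π = E), F π =
      ((al π E h.1 h.2).trans φ).trans ((π.symm.trans (al π E h.1 h.2)).trans ψ).symm := by
    intro π h
    exact dif_pos h
  have hE'1 : ∀ e ∈ E', e.1 ≠ e.2 := (mem_filter.1 hE').2.1
  have hα : ∀ π (h : Simple (srcD d) (tgtD d) π ∧ edges d π = E) (o : OutH d),
      (((al π E h.1 h.2).trans φ) o).1.1 = o.1 := by
    intro π h o
    rw [Equiv.trans_apply, hφ, al_apply]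
  have hβ : ∀ π (h : Simple (srcD d) (tgtD d) π ∧ edges d π = E) (i : InH d),
      (((π.symm.trans (al π E h.1 h.2)).trans ψ) i).1.2 = i.1 := by
    intro π h i
    rw [Equiv.trans_apply, hψ, Equiv.trans_apply, al_apply, Equiv.apply_symm_apply]
  apply card_le_card_of_injOn F
  · intro π hπ
    have h := (mem_filter.1 (mem_coe.1 hπ)).2
    rw [mem_coe, mem_filter, hF π h]
    exact ⟨mem_univ _, of_pair hE'1 _ _ (hα π h) (hβ π h)⟩
  · intro π hπ π' hπ' heq
    have h := (mem_filter.1 (mem_coe.1 hπ)).2
    have h' := (mem_filter.1 (mem_coe.1 hπ')).2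
    have hk : ∀ π (h : Simple (srcD d) (tgtD d) π ∧ edges d π = E) (o : OutH d),
        (φ (al π E h.1 h.2 o)).1 = (o.1, (F π o).1) := by
      intro π h o
      rw [hF π h]
      have h1 := hα π h o
      have h2 := hβ π h ((((π.symm.trans (al π E h.1 h.2)).trans ψ).symm)
        (((al π E h.1 h.2).trans φ) o))
      rw [Equiv.apply_symm_apply] at h2
      exact Prod.ext h1 h2
    have hal : ∀ o, al π E h.1 h.2 o = al π' E h'.1 h'.2 o := by
      intro o
      apply φ.injective
      apply Subtype.ext
      rw [hk π h o, hk π' h' o, heq]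
    have hal' : al π E h.1 h.2 = al π' E h'.1 h'.2 := Equiv.ext hal
    have h3 := heq
    rw [hF π h, hF π' h', hal'] at h3
    -- cancel
    apply Equiv.ext
    intro o
    have h4 : ∀ i, (((π.symm.trans (al π' E h'.1 h'.2)).trans ψ)) i =
        (((π'.symm.trans (al π' E h'.1 h'.2)).trans ψ)) i := by
      intro i
      have h5 : ((π.symm.trans (al π' E h'.1 h'.2)).trans ψ).symm =
          ((π'.symm.trans (al π' E h'.1 h'.2)).trans ψ).symm := by
        apply Equiv.ext
        intro e
        have := congrArg (fun (q : OutH d ≃ InH d) => q (((al π' E h'.1 h'.2).trans φ).symm e)) h3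
        simp only [Equiv.trans_apply, Equiv.apply_symm_apply, Equiv.symm_trans_apply,
          Equiv.symm_symm] at this ⊢
        simpa using this
      have h6 := congrArg Equiv.symm h5
      rw [Equiv.symm_symm, Equiv.symm_symm] at h6
      rw [h6]
    have h7 := h4 (π o)
    simp only [Equiv.trans_apply, Equiv.symm_apply_apply] at h7
    have h8 := (al π' E h'.1 h'.2).injective (ψ.injective h7)
    exact π'.symm_apply_eq.1 h8.symm

end Fib

open Classical in
theorem fiber_card {n : ℕ} (d : Fin n → ℕ × ℕ) {E E' : Finset (Fin n × Fin n)}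
    (hE : E ∈ simpleDigraphs n d) (hE' : E' ∈ simpleDigraphs n d) :
    (univ.filter fun π : OutH d ≃ InH d => Simple (srcD d) (tgtD d) π ∧ edges d π = E).card =
    (univ.filter fun π : OutH d ≃ InH d => Simple (srcD d) (tgtD d) π ∧ edges d π = E').card :=
  le_antisymm (Fib.fiber_le hE hE') (Fib.fiber_le hE' hE)

theorem fiber_nonempty {n : ℕ} (d : Fin n → ℕ × ℕ) {E : Finset (Fin n × Fin n)}
    (hE : E ∈ simpleDigraphs n d) :
    ∃ π : OutH d ≃ InH d, Simple (srcD d) (tgtD d) π ∧ edges d π = E := by
  obtain ⟨α, hα⟩ := Fib.fib_equiv (fun o : OutH d => o.1) (fun e : E => e.1.1) fun v => by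
    rw [Fib.fst_card hE, Fib.card_out]
  obtain ⟨β, hβ⟩ := Fib.fib_equiv (fun o : InH d => o.1) (fun e : E => e.1.2) fun v => by
    rw [Fib.snd_card hE, Fib.card_in]
  exact ⟨_, Fib.of_pair (mem_filter.1 hE).2.1 α β hα hβ⟩

theorem edges_mem {n : ℕ} (d : Fin n → ℕ × ℕ) (π : OutH d ≃ InH d)
    (hπ : Simple (srcD d) (tgtD d) π) : edges d π ∈ simpleDigraphs n d := by
  have hinj : Function.Injective fun o : OutH d => (srcD d o, tgtD d (π o)) := by
    intro o o' h
    simp only [Prod.mk.injEq] at h
    exact hπ.2 o o' h.1 h.2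
  rw [simpleDigraphs, mem_filter]
  refine ⟨mem_univ _, ?_, ?_⟩
  · intro e he
    obtain ⟨o, _, rfl⟩ := mem_image.1 he
    exact hπ.1 o
  · intro v
    constructor
    · have h1 : ((edges d π).filter fun e => e.2 = v) =
          (univ.filter fun o : OutH d => tgtD d (π o) = v).image
            fun o : OutH d => (srcD d o, tgtD d (π o)) := by
        ext e
        simp only [edges, mem_filter, mem_image, mem_univ, true_and]
        constructor
        · rintro ⟨⟨o, rfl⟩, h⟩
          exact ⟨o, h, rfl⟩
        · rintro ⟨o, h, rfl⟩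
          exact ⟨⟨o, rfl⟩, h⟩
      rw [h1, card_image_of_injective _ hinj, ← Fib.card_in d v]
      apply card_bij (fun o _ => π o)
      · intro o ho
        exact mem_filter.2 ⟨mem_univ _, (mem_filter.1 ho).2⟩
      · intro o _ o' _ h
        exact π.injective h
      · intro i hi
        refine ⟨π.symm i, mem_filter.2 ⟨mem_univ _, ?_⟩, π.apply_symm_apply i⟩
        rw [π.apply_symm_apply]
        exact (mem_filter.1 hi).2
    · have h1 : ((edges d π).filter fun e => e.1 = v) =
          (univ.filter fun o : OutH d => o.1 = v).image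
            fun o : OutH d => (srcD d o, tgtD d (π o)) := by
        ext e
        simp only [edges, mem_filter, mem_image, mem_univ, true_and]
        constructor
        · rintro ⟨⟨o, rfl⟩, h⟩
          exact ⟨o, h, rfl⟩
        · rintro ⟨o, h, rfl⟩
          exact ⟨⟨o, rfl⟩, h⟩
      rw [h1, card_image_of_injective _ hinj, Fib.card_out d v]

open Classical in
theorem condProb_eq {n : ℕ} (d : Fin n → ℕ × ℕ) (A : Set (Finset (Fin n × Fin n))) :
    condProb n d A =
      ((univ.filter fun π : OutH d ≃ InH d =>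
          Simple (srcD d) (tgtD d) π ∧ edges d π ∈ A).card : ℝ) /
        ((univ.filter fun π : OutH d ≃ InH d => Simple (srcD d) (tgtD d) π).card : ℝ) := by
  have hsum : ∀ S : Finset (Finset (Fin n × Fin n)), S ⊆ simpleDigraphs n d →
      (univ.filter fun π : OutH d ≃ InH d => Simple (srcD d) (tgtD d) π ∧ edges d π ∈ S).card =
      ∑ E ∈ S, (univ.filter fun π : OutH d ≃ InH d =>
        Simple (srcD d) (tgtD d) π ∧ edges d π = E).card := by
    intro S _
    rw [card_eq_sum_card_fiberwise (f := fun π => edges d π) (t := S)]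
    · apply sum_congr rfl
      intro E hE
      congr 1
      ext π
      simp only [mem_filter, mem_univ, true_and]
      constructor
      · rintro ⟨⟨h1, _⟩, h2⟩
        exact ⟨h1, h2⟩
      · rintro ⟨h1, h2⟩
        exact ⟨⟨h1, h2 ▸ hE⟩, h2⟩
    · intro π hπ
      exact (mem_filter.1 (mem_coe.1 hπ)).2.2
  have e1 : (univ.filter fun π : OutH d ≃ InH d =>
      Simple (srcD d) (tgtD d) π ∧ edges d π ∈ A).card =
      (univ.filter fun π : OutH d ≃ InH d =>
        Simple (srcD d) (tgtD d) π ∧ edges d π ∈ (simpleDigraphs n d).filter fun E => E ∈ A).card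
      := by
    congr 1
    ext π
    simp only [mem_filter, mem_univ, true_and]
    constructor
    · rintro ⟨h1, h2⟩
      exact ⟨h1, edges_mem d π h1, h2⟩
    · rintro ⟨h1, _, h2⟩
      exact ⟨h1, h2⟩
  have e2 : (univ.filter fun π : OutH d ≃ InH d => Simple (srcD d) (tgtD d) π).card =
      (univ.filter fun π : OutH d ≃ InH d =>
        Simple (srcD d) (tgtD d) π ∧ edges d π ∈ simpleDigraphs n d).card := by
    congr 1
    ext π
    simp only [mem_filter, mem_univ, true_and]
    constructor
    · intro h1
      exact ⟨h1, edges_mem d π h1⟩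
    · rintro ⟨h1, _⟩
      exact h1
  rw [e1, e2, hsum _ (filter_subset _ _), hsum _ (Subset.refl _), condProb]
  rcases (simpleDigraphs n d).eq_empty_or_nonempty with h0 | ⟨E0, hE0⟩
  · rw [h0]
    simp
  · have hK : (univ.filter fun π : OutH d ≃ InH d =>
        Simple (srcD d) (tgtD d) π ∧ edges d π = E0).card ≠ 0 := by
      obtain ⟨π, hπ⟩ := fiber_nonempty d hE0
      exact card_ne_zero_of_mem (mem_filter.2 ⟨mem_univ π, hπ⟩)
    have hc : ∀ S : Finset (Finset (Fin n × Fin n)), S ⊆ simpleDigraphs n d →
        ∑ E ∈ S, (univ.filter fun π : OutH d ≃ InH d =>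
          Simple (srcD d) (tgtD d) π ∧ edges d π = E).card = S.card *
          (univ.filter fun π : OutH d ≃ InH d =>
            Simple (srcD d) (tgtD d) π ∧ edges d π = E0).card := by
      intro S hS
      rw [sum_congr rfl fun E hE => fiber_card d (hS hE) hE0]
      simp
    rw [hc _ (filter_subset _ _), hc _ (Subset.refl _)]
    push_cast
    rw [mul_div_mul_right]
    exact_mod_cast hK

end H95.DCM
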