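import Pool.Agent.H95.DCM.Ext
import Pool.Agent.H95.DCM.Middle

/-!
# Job DCM-15: degenerate degree sequences have long paths

Assume that every vertex with an in-half-edge has exactly one out-half-edge. Choose an
out-half-edge `o₀`, `x₀ = src o₀`, with `deg tgt x₀ ≤ 1` (it exists: the sum over `o` of
`deg tgt (src o)` is `∑_v deg src v * deg tgt v = ∑_v deg tgt v = m`, so the average is `1`).
Follow `x₁ = tgt (π o₀)`, `x_{k+1} = tgt (π (the out-half-edge of x_k))`. If
`x₀, x₁, ..., x_{J+1}` are distinct then `diam ≥ J` (`le_diam`: from `x₁` every walk follows the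
sequence, as `x₁, x₂, ..` have one out-half-edge, so the only walk of length `k ≤ J` from `x₁` ends
in `x_{k+1}`).
State: partial matching `s` (the revealed pairs, `≤ J + 1` of them), visited set `D ∋ x₀`
with `W = ∑_{w ∈ D} deg tgt w`, current (free) out-half-edge `o`, `r` remaining reveals. Claim by
induction on `r`: `#{π ∈ ext s | a repetition occurs within the next r reveals} ≤ (m - |s|)! *
(r W + M r² / 2) / (m - J - 1)` where `M = (∑_v (deg tgt v)²) / (m - J - 1)`. Step
(`sum_ext_split`): a repetition happens now for at most `W` of the `m - |s|` free in-half-edges, and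
the sum over the free `i` of `deg tgt (tgt i)` is at most `∑_v (deg tgt v)^2`;
`W + (r-1)(W + M) + M (r-1)²/2 ≤ r W + M r²/2`. With `r = J + 1`, `W ≤ 1 ≤ M` (`∑ (deg tgt v)² ≥ m`)
and `m - J - 1 ≥ m / 2` one gets the statement (`1 + 1/2 = 3/2`, times `4`, gives `6`).
-/

open Finset

namespace H95.DCM

variable {V O I : Type*} [Fintype V] [DecidableEq V] [Fintype O] [DecidableEq O] [Fintype I]
  [DecidableEq I]

omit [Fintype V] [DecidableEq O] [DecidableEq I] in
/-- Sum over half-edges of a function of the owner. -/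
theorem sum_ownerP [Fintype V] (f : O → V) (g : V → ℝ) :
    ∑ o, g (f o) = ∑ v, (deg f v : ℝ) * g v := by
  classical
  rw [← Finset.sum_fiberwise (s := (univ : Finset O)) (g := f) (f := fun o => g (f o))]
  refine Finset.sum_congr rfl fun v _ => ?_
  rw [Finset.sum_congr rfl (g := fun _ => g v), Finset.sum_const, nsmul_eq_mul]
  · rfl
  · intro o ho
    rw [(mem_filter.1 ho).2]

omit [DecidableEq O] in
/-- The total degree of a set of vertices. -/
theorem card_owner_mem (f : O → V) (D : Finset V) :
    ((univ.filter fun o => f o ∈ D).card : ℝ) = ∑ w ∈ D, (deg f w : ℝ) := by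
  have h : (univ.filter fun o => f o ∈ D).card = ∑ w ∈ D, (univ.filter fun o => f o = w).card := by
    rw [Finset.card_eq_sum_card_fiberwise (f := f) (s := univ.filter fun o => f o ∈ D) (t := D)]
    · refine Finset.sum_congr rfl fun w hw => ?_
      congr 1
      ext o
      simp only [mem_filter, mem_univ, true_and]
      constructor
      · exact fun h => h.2
      · exact fun h => ⟨h ▸ hw, h⟩
    · intro o ho
      exact (mem_filter.1 (Finset.mem_coe.1 ho)).2
  rw [h]
  push_cast
  rfl

/-- A repetition occurs within the next `r` reveals. -/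
def Rep (tgt : I → V) (nx : I → O) (π : O ≃ I) : ℕ → Finset V → O → Prop
  | 0 => fun _ _ => False
  | (r + 1) => fun D o => tgt (π o) ∈ D ∨ Rep tgt nx π r (insert (tgt (π o)) D) (nx (π o))

open Classical in
theorem rep_count (src : O → V) (tgt : I → V) (nx : I → O)
    (hOI : Fintype.card O = Fintype.card I) (hnx : ∀ i, src (nx i) = tgt i) (J : ℕ)
    (hJ : J + 1 < Fintype.card O) (S q : ℝ) (hS : S = ∑ v, (deg tgt v : ℝ) ^ 2)
    (hq : q = (Fintype.card O : ℝ) - J - 1) :
    ∀ (r : ℕ) (s : Finset (O × I)) (D : Finset V) (o : O), IsPM s → (∀ p ∈ s, src p.1 ∈ D) →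
      (∀ p ∈ s, p.1 ≠ o) → src o ∈ D → s.card + r ≤ J + 1 →
      ∑ π ∈ ext s, (if Rep tgt nx π r D o then (1 : ℝ) else 0) ≤
        ((Fintype.card O - s.card).factorial : ℝ) *
          ((r * (∑ w ∈ D, (deg tgt w : ℝ)) + S / q * r ^ 2 / 2) / q) := by
  have hq0 : 0 < q := by
    rw [hq]
    have : ((J + 1 : ℕ) : ℝ) < (Fintype.card O : ℝ) := by exact_mod_cast hJ
    push_cast at this
    linarith
  have hS0 : 0 ≤ S := by
    rw [hS]
    exact Finset.sum_nonneg fun _ _ => by positivity
  intro r
  induction r with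
  | zero =>
    intro s D o _ _ _ _ _
    simp [Rep]
  | succ r ih =>
    intro s D o hs hsD hso hoD hcard
    have hsm : s.card < Fintype.card O := by omega
    set a : ℝ := (Fintype.card O : ℝ) - s.card with ha
    have haq : q ≤ a := by
      rw [ha, hq]
      have : ((s.card : ℕ) : ℝ) ≤ ((J + 1 : ℕ) : ℝ) := by
        exact_mod_cast (by omega : s.card ≤ J + 1)
      push_cast at this
      linarith
    set W : ℝ := ∑ w ∈ D, (deg tgt w : ℝ) with hW
    have hW0 : 0 ≤ W := Finset.sum_nonneg fun _ _ => by positivity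
    set F : ℝ := ((Fintype.card O - (s.card + 1)).factorial : ℝ) with hF
    have hF0 : 0 ≤ F := by positivity
    have hfac : ((Fintype.card O - s.card).factorial : ℝ) = a * F := by
      have h1 : Fintype.card O - s.card = (Fintype.card O - (s.card + 1)) + 1 := by omega
      rw [h1, Nat.factorial_succ, hF, ha]
      push_cast
      congr 1
      have h2 : ((Fintype.card O - (s.card + 1) : ℕ) : ℝ) =
          (Fintype.card O : ℝ) - ((s.card : ℝ) + 1) := by
        rw [Nat.cast_sub (by omega)]
        push_cast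
        ring
      rw [h2]
      ring
    have hfree : ((freeI s).card : ℝ) = a := by
      have h1 := card_freeI hs
      rw [ha]
      have h2 : (freeI s).card + s.card = Fintype.card O := by rw [h1, hOI]
      have h3 : (((freeI s).card + s.card : ℕ) : ℝ) = (Fintype.card O : ℝ) := by rw [h2]
      push_cast at h3
      linarith
    rw [sum_ext_split s _ o hso]
    have hstep : ∀ i ∈ freeI s,
        ∑ π ∈ ext (insert (o, i) s), (if Rep tgt nx π (r + 1) D o then (1 : ℝ) else 0) ≤
          F * (if tgt i ∈ D then 1 else 0) +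
            F * ((r * (W + deg tgt (tgt i)) + S / q * r ^ 2 / 2) / q) := by
      intro i hi
      have hi' : ∀ p ∈ s, p.2 ≠ i := (mem_filter.1 hi).2
      have hnot : (o, i) ∉ s := fun h => hso _ h rfl
      have hcard' : (insert (o, i) s).card = s.card + 1 := card_insert_of_notMem hnot
      have hpm : IsPM (insert (o, i) s) := hs.insert' hso hi'
      have hnn : 0 ≤ F * ((r * (W + deg tgt (tgt i)) + S / q * r ^ 2 / 2) / q) := by positivity
      by_cases hD : tgt i ∈ D
      · rw [if_pos hD, mul_one]
        have h1 : ∑ π ∈ ext (insert (o, i) s),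
            (if Rep tgt nx π (r + 1) D o then (1 : ℝ) else 0) ≤
              ∑ π ∈ ext (insert (o, i) s), (1 : ℝ) :=
          Finset.sum_le_sum fun π _ => by split_ifs <;> norm_num
        have h2 : ∑ π ∈ ext (insert (o, i) s), (1 : ℝ) = F := by
          rw [Finset.sum_const, nsmul_eq_mul, mul_one, card_ext hOI hpm, hcard']
        linarith
      · rw [if_neg hD, mul_zero, zero_add]
        have hπ : ∀ π ∈ ext (insert (o, i) s), π o = i := fun π hπ =>
          (mem_filter.1 hπ).2 (o, i) (mem_insert_self _ _)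
        have h1 : ∑ π ∈ ext (insert (o, i) s),
            (if Rep tgt nx π (r + 1) D o then (1 : ℝ) else 0) =
              ∑ π ∈ ext (insert (o, i) s),
                (if Rep tgt nx π r (insert (tgt i) D) (nx i) then (1 : ℝ) else 0) := by
          refine Finset.sum_congr rfl fun π hπm => ?_
          have h3 : Rep tgt nx π (r + 1) D o ↔ Rep tgt nx π r (insert (tgt i) D) (nx i) := by
            show (tgt (π o) ∈ D ∨ Rep tgt nx π r (insert (tgt (π o)) D) (nx (π o))) ↔ _
            rw [hπ π hπm]
            exact ⟨fun h => h.resolve_left hD, Or.inr⟩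
          simp only [h3]
        rw [h1]
        have h4 := ih (insert (o, i) s) (insert (tgt i) D) (nx i) hpm (by
          intro p hp
          rcases mem_insert.1 hp with rfl | hp
          · exact mem_insert_of_mem hoD
          · exact mem_insert_of_mem (hsD p hp)) (by
          intro p hp h
          apply hD
          rw [← hnx i, ← h]
          rcases mem_insert.1 hp with rfl | hp
          · exact hoD
          · exact hsD p hp) (by
          rw [hnx i]
          exact mem_insert_self _ _) (by rw [hcard']; omega)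
        rw [hcard', Finset.sum_insert hD] at h4
        rw [← hW, add_comm (deg tgt (tgt i) : ℝ) W] at h4
        exact h4
    refine (Finset.sum_le_sum hstep).trans ?_
    rw [Finset.sum_add_distrib, ← Finset.mul_sum, ← Finset.mul_sum, ← Finset.sum_div,
      Finset.sum_add_distrib, ← Finset.mul_sum, Finset.sum_add_distrib, Finset.sum_const,
      Finset.sum_const, nsmul_eq_mul, nsmul_eq_mul, hfree]
    have h1 : ∑ i ∈ freeI s, (if tgt i ∈ D then (1 : ℝ) else 0) ≤ W := by
      calc ∑ i ∈ freeI s, (if tgt i ∈ D then (1 : ℝ) else 0)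
          ≤ ∑ i, (if tgt i ∈ D then (1 : ℝ) else 0) :=
            Finset.sum_le_sum_of_subset_of_nonneg (subset_univ _) fun i _ _ => by
              split_ifs <;> norm_num
        _ = W := by
            rw [hW, ← card_owner_mem, Finset.sum_boole]
    have h2 : ∑ i ∈ freeI s, (deg tgt (tgt i) : ℝ) ≤ S := by
      calc ∑ i ∈ freeI s, (deg tgt (tgt i) : ℝ)
          ≤ ∑ i, (deg tgt (tgt i) : ℝ) :=
            Finset.sum_le_sum_of_subset_of_nonneg (subset_univ _) fun i _ _ => by positivity
        _ = S := by
            rw [sum_ownerP tgt (fun v => (deg tgt v : ℝ)), hS]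
            exact Finset.sum_congr rfl fun v _ => by ring
    rw [hfac]
    have hr0 : (0 : ℝ) ≤ r := Nat.cast_nonneg r
    calc F * ∑ i ∈ freeI s, (if tgt i ∈ D then (1 : ℝ) else 0) +
          F * ((r * (a * W + ∑ i ∈ freeI s, (deg tgt (tgt i) : ℝ)) +
            a * (S / q * r ^ 2 / 2)) / q)
        ≤ F * (a * W / q) + F * ((r * (a * W + a * (S / q)) + a * (S / q * r ^ 2 / 2)) / q) := by
          have e1 : W ≤ a * W / q := by
            rw [le_div_iff₀ hq0]
            nlinarith
          have e2 : S ≤ a * (S / q) := by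
            have : a * (S / q) = a * S / q := by ring
            rw [this, le_div_iff₀ hq0]
            nlinarith
          gcongr
          · exact h1.trans e1
          · exact h2.trans e2
      _ ≤ a * F * ((((r + 1 : ℕ) : ℝ) * W + S / q * ((r + 1 : ℕ) : ℝ) ^ 2 / 2) / q) := by
          have e3 : a * F * ((((r + 1 : ℕ) : ℝ) * W + S / q * ((r + 1 : ℕ) : ℝ) ^ 2 / 2) / q) -
              (F * (a * W / q) +
                F * ((r * (a * W + a * (S / q)) + a * (S / q * r ^ 2 / 2)) / q)) =
              a * F * (S / q / 2) / q := by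
            push_cast
            ring
          have ha0 : 0 ≤ a := hq0.le.trans haq
          have e4 : 0 ≤ a * F * (S / q / 2) / q := by positivity
          linarith

omit [Fintype V] [Fintype O] [DecidableEq O] [Fintype I] [DecidableEq I] in
theorem not_rep (src : O → V) (tgt : I → V) (nx : I → O) (hnx : ∀ i, src (nx i) = tgt i)
    (π : O ≃ I) : ∀ (r : ℕ) (D : Finset V) (o : O), ¬ Rep tgt nx π r D o →
      (∀ j, 1 ≤ j → j ≤ r → src ((fun x => nx (π x))^[j] o) ∉ D) ∧
      (∀ i j, 1 ≤ i → i < j → j ≤ r →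
        src ((fun x => nx (π x))^[i] o) ≠ src ((fun x => nx (π x))^[j] o)) := by
  intro r
  induction r with
  | zero =>
    intro D o _
    exact ⟨fun j h1 h2 => by omega, fun i j h1 h2 h3 => by omega⟩
  | succ r ih =>
    intro D o h
    have h' : ¬ (tgt (π o) ∈ D ∨ Rep tgt nx π r (insert (tgt (π o)) D) (nx (π o))) := h
    rw [not_or] at h'
    obtain ⟨hD, hr⟩ := h'
    obtain ⟨ih1, ih2⟩ := ih _ _ hr
    have key : ∀ j, 1 ≤ j → j ≤ r + 1 → j ≠ 1 →
        src ((fun x => nx (π x))^[j] o) ∉ insert (tgt (π o)) D := by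
      intro j h1 h2 h3
      obtain ⟨k, rfl⟩ : ∃ k, j = k + 1 := ⟨j - 1, by omega⟩
      rw [Function.iterate_succ_apply]
      exact ih1 k (by omega) (by omega)
    have hone : src ((fun x => nx (π x))^[1] o) = tgt (π o) := by
      rw [Function.iterate_one]
      exact hnx _
    refine ⟨fun j h1 h2 => ?_, fun i j h1 h2 h3 => ?_⟩
    · by_cases hj : j = 1
      · subst hj
        rw [hone]
        exact hD
      · exact fun hh => key j h1 h2 hj (mem_insert_of_mem hh)
    · by_cases hi : i = 1
      · subst hi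
        rw [hone]
        intro hh
        exact key j (by omega) h3 (by omega) (by rw [← hh]; exact mem_insert_self _ _)
      · obtain ⟨k, rfl⟩ : ∃ k, i = k + 1 := ⟨i - 1, by omega⟩
        obtain ⟨l, rfl⟩ : ∃ l, j = l + 1 := ⟨j - 1, by omega⟩
        rw [Function.iterate_succ_apply, Function.iterate_succ_apply]
        exact ih2 k l (by omega) (by omega) (by omega)

omit [DecidableEq V] [DecidableEq O] [DecidableEq I] [Fintype O] [Fintype I] in
theorem le_diam_of_not_rep [DecidableEq V] (src : O → V) (tgt : I → V) (nx : I → O)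
    (hnx : ∀ i, src (nx i) = tgt i) (huniq : ∀ i o, src o = tgt i → o = nx i)
    (π : O ≃ I) (J : ℕ) (D : Finset V) (o : O) (h : ¬ Rep tgt nx π (J + 1) D o) :
    J ≤ diam (Adj src tgt π) := by
  obtain ⟨-, h2⟩ := not_rep src tgt nx hnx π _ _ _ h
  have hstep : ∀ k w, Step (Adj src tgt π) k (src ((fun x => nx (π x))^[1] o)) w ↔
      w = src ((fun x => nx (π x))^[k + 1] o) := by
    intro k
    induction k with
    | zero =>
      intro w
      exact ⟨fun h => (h : _ = _).symm, fun h => (h.symm : _ = _)⟩
    | succ k ih =>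
      intro w
      have hs : src ((fun x => nx (π x))^[k + 1] o) = tgt (π ((fun x => nx (π x))^[k] o)) := by
        rw [Function.iterate_succ_apply']
        exact hnx _
      constructor
      · rintro ⟨w', hw', o', ho', hw⟩
        rw [ih] at hw'
        have ho2 : o' = (fun x => nx (π x))^[k + 1] o := by
          rw [Function.iterate_succ_apply']
          exact huniq _ _ (by rw [ho', hw', hs])
        rw [← hw, ho2, Function.iterate_succ_apply' _ (k + 1)]
        exact (hnx _).symm
      · intro hw
        refine ⟨_, (ih _).2 rfl, (fun x => nx (π x))^[k + 1] o, rfl, ?_⟩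
        rw [hw, Function.iterate_succ_apply' _ (k + 1)]
        exact (hnx _).symm
  refine le_diam _ J (src ((fun x => nx (π x))^[1] o)) (src ((fun x => nx (π x))^[J + 1] o))
    ⟨J, (hstep J _).2 rfl⟩ fun k hk hh => ?_
  rw [hstep] at hh
  exact h2 (k + 1) (J + 1) (by omega) (by omega) le_rfl hh.symm

open Classical in
theorem path_bound (src : O → V) (tgt : I → V) (hOI : Fintype.card O = Fintype.card I)
    (hdeg : ∀ v, 1 ≤ deg tgt v → deg src v = 1) (J : ℕ) (hJ : 2 * (J + 1) ≤ Fintype.card O) :
    ((univ.filter fun π : O ≃ I => diam (Adj src tgt π) < J).card : ℝ) ≤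
      ((Fintype.card O).factorial : ℝ) *
        (6 * (∑ v, (deg tgt v : ℝ) ^ 2) * ((J : ℝ) + 1) ^ 2 / (Fintype.card O : ℝ) ^ 2) := by
  have hm : (0 : ℝ) < Fintype.card O := by
    have : 0 < Fintype.card O := by omega
    exact_mod_cast this
  -- the next half-edge
  have hex : ∀ i, ∃ o, src o = tgt i ∧ ∀ o', src o' = tgt i → o' = o := by
    intro i
    have h1 : 1 ≤ deg tgt (tgt i) := Finset.card_pos.2 ⟨i, by simp⟩
    obtain ⟨o, ho⟩ := Finset.card_eq_one.1 (hdeg _ h1)
    refine ⟨o, ?_, fun o' ho' => ?_⟩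
    · have : o ∈ univ.filter fun o => src o = tgt i := by rw [ho]; exact mem_singleton_self _
      exact (mem_filter.1 this).2
    · have : o' ∈ univ.filter fun o => src o = tgt i := by simp [ho']
      rw [ho] at this
      exact mem_singleton.1 this
  choose nx hnx huniq using hex
  -- the sums of the degrees
  have hsum1 : ∑ v, (deg tgt v : ℝ) = Fintype.card O := by
    have h1 := sum_ownerP tgt (fun _ => (1 : ℝ))
    simp only [Finset.sum_const, nsmul_eq_mul, mul_one, Finset.card_univ] at h1
    rw [← h1, hOI]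
  have hsum2 : ∑ o, (deg tgt (src o) : ℝ) = Fintype.card O := by
    rw [sum_ownerP src (fun v => (deg tgt v : ℝ)), ← hsum1]
    refine Finset.sum_congr rfl fun v _ => ?_
    rcases Nat.eq_zero_or_pos (deg tgt v) with h0 | h0
    · rw [h0]
      simp
    · rw [hdeg v h0]
      simp
  obtain ⟨o₀, ho₀⟩ : ∃ o, (deg tgt (src o) : ℝ) ≤ 1 := by
    by_contra hcon
    push Not at hcon
    have hne : (univ : Finset O).Nonempty := by
      rw [← Finset.card_pos, Finset.card_univ]
      omega
    have := Finset.sum_lt_sum_of_nonempty hne fun o _ => hcon o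
    rw [hsum2, Finset.sum_const, nsmul_eq_mul, mul_one, Finset.card_univ] at this
    exact lt_irrefl _ this
  set S : ℝ := ∑ v, (deg tgt v : ℝ) ^ 2 with hS
  have hSm : (Fintype.card O : ℝ) ≤ S := by
    rw [← hsum1, hS]
    refine Finset.sum_le_sum fun v _ => ?_
    have : (deg tgt v : ℝ) ≤ (deg tgt v : ℝ) * (deg tgt v : ℝ) := by
      exact_mod_cast Nat.le_mul_self _
    rw [sq]
    exact this
  have hcount := rep_count src tgt nx hOI hnx J (by omega) S ((Fintype.card O : ℝ) - J - 1) hS rfl
    (J + 1) ∅ {src o₀} o₀ isPM_empty (by simp) (by simp) (by simp) (by simp)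
  have hext : ext (∅ : Finset (O × I)) = univ := by
    ext π
    simp [ext]
  rw [hext, Finset.sum_boole, Finset.card_empty, Nat.sub_zero, Finset.sum_singleton] at hcount
  have hle : ((univ.filter fun π : O ≃ I => diam (Adj src tgt π) < J).card : ℝ) ≤
      ((univ.filter fun π : O ≃ I => Rep tgt nx π (J + 1) {src o₀} o₀).card : ℝ) := by
    refine Nat.cast_le.2 (Finset.card_le_card fun π hπ => ?_)
    rw [mem_filter] at hπ ⊢
    refine ⟨hπ.1, ?_⟩
    by_contra hcon
    exact absurd (le_diam_of_not_rep src tgt nx hnx (fun i o => huniq i o) π J _ _ hcon)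
      (not_le.2 hπ.2)
  refine (hle.trans hcount).trans ?_
  refine mul_le_mul_of_nonneg_left ?_ (by positivity)
  set m : ℝ := (Fintype.card O : ℝ) with hmdef
  have hJm : 2 * ((J : ℝ) + 1) ≤ m := by
    rw [hmdef]
    exact_mod_cast hJ
  have hJ0 : (0 : ℝ) ≤ J := Nat.cast_nonneg J
  have hq : m / 2 ≤ m - J - 1 := by linarith
  have hm2 : 0 < m / 2 := by positivity
  have hq0 : 0 < m - J - 1 := by linarith
  have hS0 : 0 ≤ S := hm.le.trans hSm
  push_cast
  have a1 : S / (m - J - 1) ≤ S / (m / 2) := by gcongr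
  have a2 : ((J : ℝ) + 1) * (deg tgt (src o₀) : ℝ) ≤ (J + 1) ^ 2 * (S / m) := by
    have b1 : 1 ≤ S / m := by rwa [le_div_iff₀ hm, one_mul]
    have b2 : ((J : ℝ) + 1) * (deg tgt (src o₀) : ℝ) ≤ (J + 1) * 1 := by gcongr
    have b3 : ((J : ℝ) + 1) * 1 ≤ (J + 1) * ((J + 1) * (S / m)) := by
      gcongr
      nlinarith
    linarith [b2, b3, (by ring : (J + 1 : ℝ) * ((J + 1) * (S / m)) = (J + 1) ^ 2 * (S / m))]
  have a3 : ((J : ℝ) + 1) * (deg tgt (src o₀) : ℝ) + S / (m - J - 1) * ((J : ℝ) + 1) ^ 2 / 2 ≤
      2 * ((J + 1) ^ 2 * (S / m)) := by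
    have : S / (m - J - 1) * ((J : ℝ) + 1) ^ 2 / 2 ≤ S / (m / 2) * ((J : ℝ) + 1) ^ 2 / 2 := by
      gcongr
    have h2 : S / (m / 2) * ((J : ℝ) + 1) ^ 2 / 2 = (J + 1) ^ 2 * (S / m) := by
      field_simp
    linarith
  calc (((J : ℝ) + 1) * (deg tgt (src o₀) : ℝ) + S / (m - J - 1) * ((J : ℝ) + 1) ^ 2 / 2) /
        (m - J - 1)
      ≤ (2 * ((J + 1) ^ 2 * (S / m))) / (m / 2) := by
        gcongr
    _ = 4 * S * ((J : ℝ) + 1) ^ 2 / m ^ 2 := by
        field_simp
        ring
    _ ≤ 6 * S * ((J : ℝ) + 1) ^ 2 / m ^ 2 := by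
        gcongr
        norm_num

open Classical in
/-- The same with the roles of in- and out-half-edges exchanged (use `diam_swap`). -/
theorem path_bound' (src : O → V) (tgt : I → V) (hOI : Fintype.card O = Fintype.card I)
    (hdeg : ∀ v, 1 ≤ deg src v → deg tgt v = 1) (J : ℕ) (hJ : 2 * (J + 1) ≤ Fintype.card O) :
    ((univ.filter fun π : O ≃ I => diam (Adj src tgt π) < J).card : ℝ) ≤
      ((Fintype.card O).factorial : ℝ) *
        (6 * (∑ v, (deg src v : ℝ) ^ 2) * ((J : ℝ) + 1) ^ 2 / (Fintype.card O : ℝ) ^ 2) := by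
  have h := path_bound tgt src hOI.symm hdeg J (by omega)
  rw [← hOI] at h
  have hc : (univ.filter fun π : O ≃ I => diam (Adj src tgt π) < J).card =
      (univ.filter fun π : I ≃ O => diam (Adj tgt src π) < J).card := by
    refine Finset.card_bij (fun π _ => π.symm) ?_ ?_ ?_
    · intro π hπ
      rw [mem_filter] at hπ ⊢
      refine ⟨mem_univ _, ?_⟩
      have h1 : Adj tgt src π.symm = fun u v => Adj src tgt π v u := by
        funext u v
        apply propext
        constructor
        · rintro ⟨i, hi, ho⟩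
          exact ⟨π.symm i, ho, by rw [Equiv.apply_symm_apply]; exact hi⟩
        · rintro ⟨o, ho, hi⟩
          exact ⟨π o, hi, by rw [Equiv.symm_apply_apply]; exact ho⟩
      rw [h1, diam_swap]
      exact hπ.2
    · intro π _ π' _ hh
      have := congrArg Equiv.symm hh
      simpa using this
    · intro π hπ
      rw [mem_filter] at hπ
      refine ⟨π.symm, ?_, Equiv.symm_symm π⟩
      rw [mem_filter]
      refine ⟨mem_univ _, ?_⟩
      have h1 : Adj src tgt π.symm = fun u v => Adj tgt src π v u := by
        funext u v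
        apply propext
        constructor
        · rintro ⟨i, hi, ho⟩
          exact ⟨π.symm i, ho, by rw [Equiv.apply_symm_apply]; exact hi⟩
        · rintro ⟨o, ho, hi⟩
          exact ⟨π o, hi, by rw [Equiv.symm_apply_apply]; exact ho⟩
      rw [h1, diam_swap]
      exact hπ.2
  rw [hc]
  exact h

end H95.DCM
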