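import Pool.Agent.H95.DCM.GoodWhp
import Pool.Agent.H95.DCM.Bad
import Pool.Agent.H95.DCM.Fiber
import Pool.Agent.H95.DCM.Path
import Pool.Agent.H95.DCM.Example

/-!
# Final assembly for MP_269591_pr
-/

open Finset MeasureTheory

namespace H95.DCM

theorem condProb_nonneg {n : ℕ} (d : Fin n → ℕ × ℕ) (A : Set (Finset (Fin n × Fin n))) :
    0 ≤ condProb n d A := div_nonneg (Nat.cast_nonneg _) (Nat.cast_nonneg _)

theorem condProb_le_one {n : ℕ} (d : Fin n → ℕ × ℕ) (A : Set (Finset (Fin n × Fin n))) :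
    condProb n d A ≤ 1 := by
  classical
  unfold condProb
  apply div_le_one_of_le₀ _ (Nat.cast_nonneg _)
  exact_mod_cast card_le_card (filter_subset _ _)

theorem condProb_mono {n : ℕ} (d : Fin n → ℕ × ℕ) {A B : Set (Finset (Fin n × Fin n))}
    (h : A ⊆ B) : condProb n d A ≤ condProb n d B := by
  classical
  unfold condProb
  apply div_le_div_of_nonneg_right _ (Nat.cast_nonneg _)
  have : (simpleDigraphs n d).filter (fun E => E ∈ A) ⊆
      (simpleDigraphs n d).filter fun E => E ∈ B := by
    intro E hE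
    obtain ⟨h1, h2⟩ := mem_filter.1 hE
    exact mem_filter.2 ⟨h1, h h2⟩
  exact_mod_cast card_le_card this

theorem integrable_condProb {n : ℕ} (μ : Measure (Fin n → ℕ × ℕ)) [IsFiniteMeasure μ]
    (A : Set (Finset (Fin n × Fin n))) : Integrable (fun d => condProb n d A) μ := by
  refine Integrable.of_bound (Measurable.of_discrete.aestronglyMeasurable) 1 ?_
  refine Filter.Eventually.of_forall fun d => ?_
  rw [Real.norm_eq_abs, abs_of_nonneg (condProb_nonneg d A)]
  exact condProb_le_one d A

instance seqLaw_finite (ν : Measure (ℕ × ℕ)) [IsProbabilityMeasure ν] (n : ℕ) :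
    IsFiniteMeasure (seqLaw ν n) := by
  unfold seqLaw
  infer_instance

theorem graphProb_mono (ν : Measure (ℕ × ℕ)) [IsProbabilityMeasure ν] (n : ℕ)
    {A B : Set (Finset (Fin n × Fin n))} (h : A ⊆ B) : graphProb ν n A ≤ graphProb ν n B := by
  unfold graphProb
  exact integral_mono (integrable_condProb _ _) (integrable_condProb _ _)
    fun d => condProb_mono d h

/-- upper bound of an average by splitting off an exceptional set -/
theorem graphProb_le (ν : Measure (ℕ × ℕ)) [IsProbabilityMeasure ν] (n : ℕ)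
    [IsProbabilityMeasure (seqLaw ν n)]
    (A : Set (Finset (Fin n × Fin n))) (B : Set (Fin n → ℕ × ℕ)) (η : ℝ) (hη : 0 ≤ η)
    (h : ∀ d ∉ B, condProb n d A ≤ η) : graphProb ν n A ≤ (seqLaw ν n).real B + η := by
  unfold graphProb
  have hB : MeasurableSet B := MeasurableSet.of_discrete
  have h1 : ∫ d, condProb n d A ∂(seqLaw ν n) ≤
      ∫ d, (B.indicator (fun _ => (1 : ℝ)) d + η) ∂(seqLaw ν n) := by
    apply integral_mono (integrable_condProb _ _)
    · exact ((integrable_const (1 : ℝ)).indicator hB).add (integrable_const _)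
    · intro d
      by_cases hd : d ∈ B
      · simp only [Set.indicator_of_mem hd]
        have := condProb_le_one d A
        linarith
      · simp only [Set.indicator_of_notMem hd, zero_add]
        exact h d hd
  refine h1.trans (le_of_eq ?_)
  rw [integral_add ((integrable_const (1 : ℝ)).indicator hB) (integrable_const _),
    integral_indicator_const _ hB]
  simp

theorem le_graphProb (ν : Measure (ℕ × ℕ)) [IsProbabilityMeasure ν] (n : ℕ)
    [IsProbabilityMeasure (seqLaw ν n)]
    (A : Set (Finset (Fin n × Fin n))) (B : Set (Fin n → ℕ × ℕ)) (η : ℝ) (hη : 0 ≤ η)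
    (h : ∀ d ∉ B, 1 - η ≤ condProb n d A) : 1 - (seqLaw ν n).real B - η ≤ graphProb ν n A := by
  unfold graphProb
  have hB : MeasurableSet B := MeasurableSet.of_discrete
  have h1 : ∫ d, ((1 - η) - B.indicator (fun _ => (1 : ℝ)) d) ∂(seqLaw ν n) ≤
      ∫ d, condProb n d A ∂(seqLaw ν n) := by
    apply integral_mono _ (integrable_condProb _ _)
    · intro d
      by_cases hd : d ∈ B
      · simp only [Set.indicator_of_mem hd]
        have := condProb_nonneg d A
        linarith
      · simp only [Set.indicator_of_notMem hd, sub_zero]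
        exact h d hd
    · exact (integrable_const _).sub ((integrable_const (1 : ℝ)).indicator hB)
  refine le_trans (le_of_eq ?_) h1
  rw [integral_sub (integrable_const _) ((integrable_const (1 : ℝ)).indicator hB),
    integral_indicator_const _ hB]
  simp
  ring

theorem deg_srcDF {n : ℕ} (d : Fin n → ℕ × ℕ) (v : Fin n) : deg (srcD d) v = (d v).2 := by
  unfold deg
  have : (univ.filter fun o : OutH d => srcD d o = v) =
      (univ : Finset (Fin (d v).2)).map ⟨fun j => (⟨v, j⟩ : OutH d), fun a b h => by simpa using h⟩ := by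
    ext ⟨u, j⟩
    simp only [mem_filter, mem_univ, true_and, mem_map, Function.Embedding.coeFn_mk]
    constructor
    · intro h
      have h' : u = v := h
      subst h'
      exact ⟨j, rfl⟩
    · rintro ⟨j', h⟩
      exact (congrArg Sigma.fst h).symm
  rw [this, card_map, card_univ, Fintype.card_fin]

theorem deg_tgtDF {n : ℕ} (d : Fin n → ℕ × ℕ) (v : Fin n) : deg (tgtD d) v = (d v).1 := by
  unfold deg
  have : (univ.filter fun o : InH d => tgtD d o = v) =
      (univ : Finset (Fin (d v).1)).map ⟨fun j => (⟨v, j⟩ : InH d), fun a b h => by simpa using h⟩ := by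
    ext ⟨u, j⟩
    simp only [mem_filter, mem_univ, true_and, mem_map, Function.Embedding.coeFn_mk]
    constructor
    · intro h
      have h' : u = v := h
      subst h'
      exact ⟨j, rfl⟩
    · rintro ⟨j', h⟩
      exact (congrArg Sigma.fst h).symm
  rw [this, card_map, card_univ, Fintype.card_fin]

/-- transfer from pairings to uniform simple digraphs, upper bound -/
theorem condProb_le_of {n : ℕ} (d : Fin n → ℕ × ℕ) (A : Set (Finset (Fin n × Fin n)))
    (κ η : ℝ) (hκ : 0 < κ)
    (hs : open Classical in κ * ((Fintype.card (OutH d)).factorial : ℝ) ≤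
      ((univ.filter fun π : OutH d ≃ InH d => Simple (srcD d) (tgtD d) π).card : ℝ))
    (hA : open Classical in ((univ.filter fun π : OutH d ≃ InH d => edges d π ∈ A).card : ℝ) ≤
      η * ((Fintype.card (OutH d)).factorial : ℝ)) : condProb n d A ≤ η / κ := by
  classical
  rw [condProb_eq]
  have hm : (0 : ℝ) < ((Fintype.card (OutH d)).factorial : ℝ) := by
    exact_mod_cast Nat.factorial_pos _
  have h1 : ((univ.filter fun π : OutH d ≃ InH d =>
      Simple (srcD d) (tgtD d) π ∧ edges d π ∈ A).card : ℝ) ≤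
      ((univ.filter fun π : OutH d ≃ InH d => edges d π ∈ A).card : ℝ) := by
    have : (univ.filter fun π : OutH d ≃ InH d => Simple (srcD d) (tgtD d) π ∧ edges d π ∈ A) ⊆
        univ.filter fun π : OutH d ≃ InH d => edges d π ∈ A := by
      intro π hπ
      simp only [mem_filter, mem_univ, true_and] at hπ ⊢
      exact hπ.2
    exact_mod_cast card_le_card this
  have h2 : (0 : ℝ) < κ * ((Fintype.card (OutH d)).factorial : ℝ) := mul_pos hκ hm
  rw [div_le_div_iff₀ (lt_of_lt_of_le h2 (by convert hs)) hκ]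
  have h3 : ((univ.filter fun π : OutH d ≃ InH d =>
      Simple (srcD d) (tgtD d) π ∧ edges d π ∈ A).card : ℝ) ≤
      η * ((Fintype.card (OutH d)).factorial : ℝ) := h1.trans (by convert hA)
  have hη : 0 ≤ η := by
    have : (0 : ℝ) ≤ η * ((Fintype.card (OutH d)).factorial : ℝ) :=
      (Nat.cast_nonneg _).trans h3
    by_contra hneg
    push Not at hneg
    nlinarith
  have hs' : κ * ((Fintype.card (OutH d)).factorial : ℝ) ≤
      ((univ.filter fun π : OutH d ≃ InH d => Simple (srcD d) (tgtD d) π).card : ℝ) := by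
    convert hs
  calc _ ≤ η * ((Fintype.card (OutH d)).factorial : ℝ) * κ := by
        exact mul_le_mul_of_nonneg_right h3 hκ.le
    _ = η * (κ * ((Fintype.card (OutH d)).factorial : ℝ)) := by ring
    _ ≤ _ := mul_le_mul_of_nonneg_left hs' hη

/-- The complement has the complementary probability when a simple digraph exists. -/
theorem condProb_compl {n : ℕ} (d : Fin n → ℕ × ℕ) (A : Set (Finset (Fin n × Fin n)))
    (h : simpleDigraphs n d ≠ ∅) : condProb n d A + condProb n d Aᶜ = 1 := by
  classical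
  unfold condProb
  have hpos : (0 : ℝ) < ((simpleDigraphs n d).card : ℝ) := by
    exact_mod_cast card_pos.2 (nonempty_iff_ne_empty.2 h)
  rw [← add_div, div_eq_one_iff_eq hpos.ne']
  have := card_filter_add_card_filter_not (s := simpleDigraphs n d) (p := fun E => E ∈ A)
  simp only [Set.mem_compl_iff]
  exact_mod_cast this

theorem simple_ne_empty {n : ℕ} (d : Fin n → ℕ × ℕ) (κ : ℝ) (hκ : 0 < κ)
    (hs : open Classical in κ * ((Fintype.card (OutH d)).factorial : ℝ) ≤
      ((univ.filter fun π : OutH d ≃ InH d => Simple (srcD d) (tgtD d) π).card : ℝ)) :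
    simpleDigraphs n d ≠ ∅ := by
  classical
  have hm : (0 : ℝ) < ((Fintype.card (OutH d)).factorial : ℝ) := by
    exact_mod_cast Nat.factorial_pos _
  have h2 : (0 : ℝ) < κ * ((Fintype.card (OutH d)).factorial : ℝ) := mul_pos hκ hm
  have h3 := lt_of_lt_of_le h2 hs
  have h4 : 0 < (univ.filter fun π : OutH d ≃ InH d => Simple (srcD d) (tgtD d) π).card := by
    exact_mod_cast h3
  obtain ⟨π, hπ⟩ := card_pos.1 h4
  intro h
  have := edges_mem d π (mem_filter.1 hπ).2
  rw [h] at this
  simp at this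

/-- Tightness in the nondegenerate case. -/
theorem tight_of_nondeg (ν : Measure (ℕ × ℕ)) (hν : Assump ν) (hd : Nondeg ν) : TightDiam ν := by
  classical
  have := hν.prob
  intro ε hε
  obtain ⟨c, C, hc, hC, n1, h1⟩ := good_whp ν hν hd (ε / 2) (half_pos hε)
  obtain ⟨κ, hκ, n2, h2⟩ := simple_bound c C hc hC
  obtain ⟨K, hK, n3, h3⟩ := diam_bound c C hc hC
  obtain ⟨n4, h4⟩ := seqLaw_prob ν hν
  set N := max (max n1 n2) (max n3 n4) with hN
  set A : ℝ := 2 * K / (ε * κ) with hA
  have hA0 : 0 < A := by positivity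
  refine ⟨max A N, fun n => ?_⟩
  by_cases hn : N ≤ n
  · have := h4 n (by omega)
    have hle : graphProb ν n {E | max A N * (n : ℝ) ^ ((1 : ℝ) / 3) < (diamE E : ℝ)} ≤
        graphProb ν n {E | A * (n : ℝ) ^ ((1 : ℝ) / 3) < (diamE E : ℝ)} := by
      apply graphProb_mono
      intro E hE
      rw [Set.mem_ofPred_eq] at hE ⊢
      refine lt_of_le_of_lt ?_ hE
      exact mul_le_mul_of_nonneg_right (le_max_left _ _) (by positivity)
    refine hle.trans ?_
    have key := graphProb_le ν n {E | A * (n : ℝ) ^ ((1 : ℝ) / 3) < (diamE E : ℝ)}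
      {d | ¬ GoodSeq c C n d} (ε / 2) (half_pos hε).le ?_
    · have := h1 n (by omega)
      linarith
    · intro d hd
      have hg : GoodSeq c C n d := by
        by_contra h
        exact hd h
      have hs := h2 n (by omega) (Fin n) (OutH d) (InH d) (srcD d) (tgtD d) hg.good.hOI hg.low
        hg.sq1 hg.sq2
      have hb := h3 n (by omega) (Fin n) (OutH d) (InH d) (srcD d) (tgtD d) hg.good A hA0
      have hr : K / A / κ = ε / 2 := by
        rw [hA]
        field_simp
      rw [← hr]
      apply condProb_le_of d _ κ (K / A) hκ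
      · convert hs
      · simp only [Set.mem_ofPred_eq, diamE_edges]
        convert hb
  · push Not at hn
    have hempty : {E : Finset (Fin n × Fin n) |
        max A N * (n : ℝ) ^ ((1 : ℝ) / 3) < (diamE E : ℝ)} = ∅ := by
      ext E
      simp only [Set.mem_ofPred_eq, Set.mem_empty_iff_false, iff_false, not_lt]
      have hdn : diamE E ≤ n := by
        have := diam_le_card (V := Fin n) fun u v => (u, v) ∈ E
        rwa [Fintype.card_fin] at this
      rcases Nat.eq_zero_or_pos n with h0 | h0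
      · subst h0
        have : diamE E = 0 := by omega
        rw [this]
        simp
      · have h5 : (1 : ℝ) ≤ (n : ℝ) ^ ((1 : ℝ) / 3) := by
          apply Real.one_le_rpow _ (by norm_num)
          exact_mod_cast h0
        have h6 : (diamE E : ℝ) ≤ N := by
          have : diamE E ≤ N := by omega
          exact_mod_cast this
        have h7 : (N : ℝ) ≤ max A N := le_max_right _ _
        have h8 : (0 : ℝ) ≤ max A N := hA0.le.trans (le_max_left _ _)
        nlinarith
    have : graphProb ν n {E : Finset (Fin n × Fin n) |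
        max A N * (n : ℝ) ^ ((1 : ℝ) / 3) < (diamE E : ℝ)} = 0 := by
      rw [hempty]
      unfold graphProb condProb
      simp
    rw [this]
    exact hε.le

/-- Order `√n` in the degenerate case. -/
theorem deg_sqrt (ν : Measure (ℕ × ℕ)) (hν : Assump ν) (hd : ¬ Nondeg ν) (ε : ℝ) (hε : 0 < ε) :
    ∃ b : ℝ, 0 < b ∧ ∃ n₀ : ℕ, ∀ n ≥ n₀,
      1 - ε ≤ graphProb ν n {E | b * √(n : ℝ) ≤ (diamE E : ℝ)} := by
  classical
  have := hν.prob
  obtain ⟨c, C, hc, hC, n1, h1⟩ := deg_whp ν hν hd (ε / 2) (half_pos hε)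
  obtain ⟨κ, hκ, n2, h2⟩ := simple_bound c C hc hC
  obtain ⟨n4, h4⟩ := seqLaw_prob ν hν
  -- choose `b` with `24 C b² / c² ≤ κ ε / 2`
  obtain ⟨b, hb0, hb1⟩ : ∃ b : ℝ, 0 < b ∧ 54 * C * b ^ 2 / c ^ 2 ≤ κ * (ε / 2) := by
    refine ⟨√(κ * (ε / 2) * c ^ 2 / (54 * C)), Real.sqrt_pos.2 (by positivity), ?_⟩
    rw [Real.sq_sqrt (by positivity)]
    apply le_of_eq
    field_simp
  -- large `n`
  obtain ⟨n5, h5⟩ : ∃ n5 : ℕ, ∀ n ≥ n5, 1 ≤ b * √(n : ℝ) ∧ 6 * b * √(n : ℝ) ≤ c * n ∧ 1 ≤ n := by
    have t1 : Filter.Tendsto (fun n : ℕ => √(n : ℝ)) Filter.atTop Filter.atTop :=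
      Real.tendsto_sqrt_atTop.comp tendsto_natCast_atTop_atTop
    have e1 := t1.eventually_ge_atTop (1 / b)
    have e2 := t1.eventually_ge_atTop (6 * b / c)
    have e3 := e1.and (e2.and (Filter.eventually_ge_atTop 1))
    obtain ⟨n5, h5⟩ := Filter.eventually_atTop.1 e3
    refine ⟨n5, fun n hn => ?_⟩
    obtain ⟨f1, f2, f3⟩ := h5 n hn
    refine ⟨?_, ?_, f3⟩
    · rw [div_le_iff₀ hb0] at f1
      linarith
    · rw [div_le_iff₀ hc] at f2
      have hs := Real.sq_sqrt (show (0 : ℝ) ≤ n from Nat.cast_nonneg _)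
      have hs0 := Real.sqrt_nonneg (n : ℝ)
      nlinarith
  refine ⟨b, hb0, max (max n1 n2) (max n4 n5), fun n hn => ?_⟩
  have := h4 n (by omega)
  obtain ⟨g1, g2, g3⟩ := h5 n (by omega)
  have hn0 : (0 : ℝ) < n := by exact_mod_cast g3
  have key := le_graphProb ν n {E | b * √(n : ℝ) ≤ (diamE E : ℝ)}
      {d | ¬ DegSeq c C n d} (ε / 2) (half_pos hε).le ?_
  · have := h1 n (by omega)
    linarith
  · intro d hd
    have hg : DegSeq c C n d := by
      by_contra h
      exact hd h
    have hs := h2 n (by omega) (Fin n) (OutH d) (InH d) (srcD d) (tgtD d) hg.hOI hg.low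
        hg.sq1 hg.sq2
    have hne : simpleDigraphs n d ≠ ∅ := simple_ne_empty d κ hκ (by convert hs)
    have hcomp := condProb_compl d {E | b * √(n : ℝ) ≤ (diamE E : ℝ)} hne
    -- the number of steps
    set J := ⌈b * √(n : ℝ)⌉₊ with hJ
    have hJ1 : (J : ℝ) < b * √(n : ℝ) + 1 := Nat.ceil_lt_add_one (by positivity)
    have hJ2 : b * √(n : ℝ) ≤ J := Nat.le_ceil _
    have hJ3 : (J : ℝ) + 1 ≤ 3 * (b * √(n : ℝ)) := by linarith
    have hJm : 2 * (J + 1) ≤ Fintype.card (OutH d) := by
      have h6 : (2 * (J + 1) : ℝ) ≤ Fintype.card (OutH d) := by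
        have := hg.low
        linarith
      exact_mod_cast h6
    have hpath : ((univ.filter fun π : OutH d ≃ InH d =>
        diam (Adj (srcD d) (tgtD d) π) < J).card : ℝ) ≤
        ((Fintype.card (OutH d)).factorial : ℝ) *
        (6 * (C * n) * ((J : ℝ) + 1) ^ 2 / (Fintype.card (OutH d) : ℝ) ^ 2) := by
      rcases hg.deg with hdeg | hdeg
      · have := path_bound (srcD d) (tgtD d) hg.hOI (fun v hv => by
          rw [deg_srcDF]
          rw [deg_tgtDF] at hv
          exact hdeg v hv) J hJm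
        refine (by convert this : _ ≤ ((Fintype.card (OutH d)).factorial : ℝ) * (6 *
          (∑ v, (deg (tgtD d) v : ℝ) ^ 2) * ((J : ℝ) + 1) ^ 2 /
            (Fintype.card (OutH d) : ℝ) ^ 2)).trans ?_
        have := hg.sq2
        gcongr
      · have := path_bound' (srcD d) (tgtD d) hg.hOI (fun v hv => by
          rw [deg_tgtDF]
          rw [deg_srcDF] at hv
          exact hdeg v hv) J hJm
        refine (by convert this : _ ≤ ((Fintype.card (OutH d)).factorial : ℝ) * (6 *
          (∑ v, (deg (srcD d) v : ℝ) ^ 2) * ((J : ℝ) + 1) ^ 2 /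
            (Fintype.card (OutH d) : ℝ) ^ 2)).trans ?_
        have := hg.sq1
        gcongr
    have hη : 6 * (C * n) * ((J : ℝ) + 1) ^ 2 / (Fintype.card (OutH d) : ℝ) ^ 2 ≤
        κ * (ε / 2) := by
      refine le_trans ?_ hb1
      have hlow := hg.low
      have hcn : 0 < c * n := by positivity
      have e1 : ((J : ℝ) + 1) ^ 2 ≤ 9 * b ^ 2 * n := by
        have := pow_le_pow_left₀ (by positivity) hJ3 2
        have hs := Real.sq_sqrt hn0.le
        calc ((J : ℝ) + 1) ^ 2 ≤ (3 * (b * √(n : ℝ))) ^ 2 := this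
          _ = 9 * b ^ 2 * (√(n : ℝ)) ^ 2 := by ring
          _ = _ := by rw [hs]
      have e2 : (c * n) ^ 2 ≤ (Fintype.card (OutH d) : ℝ) ^ 2 :=
        pow_le_pow_left₀ hcn.le hlow 2
      calc 6 * (C * n) * ((J : ℝ) + 1) ^ 2 / (Fintype.card (OutH d) : ℝ) ^ 2
          ≤ 6 * (C * n) * (9 * b ^ 2 * n) / (c * n) ^ 2 := by gcongr
        _ = _ := by field_simp; ring
    have hcp : condProb n d {E | b * √(n : ℝ) ≤ (diamE E : ℝ)}ᶜ ≤ κ * (ε / 2) / κ := by
      apply condProb_le_of d _ κ _ hκ
      · convert hs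
      · refine le_trans ?_ (mul_le_mul_of_nonneg_right hη (Nat.cast_nonneg _))
        rw [mul_comm _ ((Fintype.card (OutH d)).factorial : ℝ)]
        refine le_trans ?_ hpath
        have hsub : (univ.filter fun π : OutH d ≃ InH d =>
            edges d π ∈ {E | b * √(n : ℝ) ≤ (diamE E : ℝ)}ᶜ) ⊆
            univ.filter fun π : OutH d ≃ InH d => diam (Adj (srcD d) (tgtD d) π) < J := by
          intro π hπ
          simp only [mem_filter, mem_univ, true_and, Set.mem_compl_iff, Set.mem_ofPred_eq, not_le,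
            diamE_edges] at hπ ⊢
          have : (diam (Adj (srcD d) (tgtD d) π) : ℝ) < J := lt_of_lt_of_le hπ hJ2
          exact_mod_cast this
        have := card_le_card hsub
        exact_mod_cast (by convert this)
    rw [mul_div_cancel_left₀ _ hκ.ne'] at hcp
    linarith

theorem not_tight_of_deg (ν : Measure (ℕ × ℕ)) (hν : Assump ν) (hd : ¬ Nondeg ν) :
    ¬ TightDiam ν := by
  have := hν.prob
  intro ht
  obtain ⟨C, hC⟩ := ht (1 / 2) (by norm_num)
  obtain ⟨b, hb, n0, h0⟩ := deg_sqrt ν hν hd (1 / 4) (by norm_num)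
  have t1 : Filter.Tendsto (fun n : ℕ => (n : ℝ) ^ ((1 : ℝ) / 6)) Filter.atTop Filter.atTop :=
    (tendsto_rpow_atTop (by norm_num)).comp tendsto_natCast_atTop_atTop
  obtain ⟨n, hn0, hn1, hn2⟩ := ((Filter.eventually_ge_atTop n0).and
    ((Filter.eventually_ge_atTop 1).and (t1.eventually_gt_atTop (C / b)))).exists
  have h1 := h0 n hn0
  have h2 := hC n
  have hpos : (0 : ℝ) < n := by exact_mod_cast hn1
  have hsub : {E : Finset (Fin n × Fin n) | b * √(n : ℝ) ≤ (diamE E : ℝ)} ⊆
      {E | C * (n : ℝ) ^ ((1 : ℝ) / 3) < (diamE E : ℝ)} := by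
    intro E hE
    rw [Set.mem_ofPred_eq] at hE ⊢
    refine lt_of_lt_of_le ?_ hE
    have e1 : √(n : ℝ) = (n : ℝ) ^ ((1 : ℝ) / 6) * (n : ℝ) ^ ((1 : ℝ) / 3) := by
      rw [← Real.rpow_add hpos, Real.sqrt_eq_rpow]
      norm_num
    rw [e1, ← mul_assoc]
    apply mul_lt_mul_of_pos_right _ (by positivity)
    rw [div_lt_iff₀ hb] at hn2
    linarith
  have h3 := graphProb_mono ν n hsub
  linarith

/-- The random digraph is well defined with high probability. -/
theorem exists_simple (ν : Measure (ℕ × ℕ)) (hν : Assump ν) (ε : ℝ) (hε : 0 < ε) :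
    ∃ n₀ : ℕ, ∀ n ≥ n₀, IsProbabilityMeasure (seqLaw ν n) ∧
      (seqLaw ν n).real {d | simpleDigraphs n d = ∅} ≤ ε := by
  classical
  have := hν.prob
  obtain ⟨n4, h4⟩ := seqLaw_prob ν hν
  by_cases hd : Nondeg ν
  · obtain ⟨c, C, hc, hC, n1, h1⟩ := good_whp ν hν hd ε hε
    obtain ⟨κ, hκ, n2, h2⟩ := simple_bound c C hc hC
    refine ⟨max (max n1 n2) n4, fun n hn => ⟨h4 n (by omega), ?_⟩⟩
    have := h4 n (by omega)
    refine le_trans (measureReal_mono ?_) (h1 n (by omega))
    intro d hd' hg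
    have hs := h2 n (by omega) (Fin n) (OutH d) (InH d) (srcD d) (tgtD d) hg.good.hOI hg.low
        hg.sq1 hg.sq2
    exact simple_ne_empty d κ hκ (by convert hs) hd'
  · obtain ⟨c, C, hc, hC, n1, h1⟩ := deg_whp ν hν hd ε hε
    obtain ⟨κ, hκ, n2, h2⟩ := simple_bound c C hc hC
    refine ⟨max (max n1 n2) n4, fun n hn => ⟨h4 n (by omega), ?_⟩⟩
    have := h4 n (by omega)
    refine le_trans (measureReal_mono ?_) (h1 n (by omega))
    intro d hd' hg
    have hs := h2 n (by omega) (Fin n) (OutH d) (InH d) (srcD d) (tgtD d) hg.hOI hg.low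
        hg.sq1 hg.sq2
    exact simple_ne_empty d κ hκ (by convert hs) hd'

end H95.DCM
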