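import Pool.Agent.H95.DCM.Law

/-!
# Job DCM-10: Fourier inversion and decay of the characteristic function

* `inversion`: `1_{k = x} = (2π)⁻¹ ∫_{-π}^{π} e^{it(k-x)} dt` for integers, Fubini, and
  independence (`∫ ∏ f(d i) ∂(pi) = ∏ ∫ f`, `MeasureTheory.integral_fintype_prod_eq_pow` or similar).
* `phi_bound`: `|φ(t)|² = ∑_{x,y} ν{x} ν{y} cos (t (dif x - dif y))`
  `= 1 - ∫∫ (1 - cos (t (dif x - dif y)))`. Not constant: pick two values `a ≠ b` of `dif` with
  positive mass (otherwise `dif` is a.s. constant, contradicting `aper` with `p = 2`); near `0` use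
  `1 - cos u ≥ 2 u² / π²` for `|u| ≤ π`. For `0 < |t| ≤ π` one has `|φ(t)| < 1`: otherwise
  `t (dif x - dif y) ∈ 2π ℤ` for all `x, y` in the support; the differences generate a subgroup
  `g ℤ` of `ℤ` and `g ≥ 2` contradicts `aper` (with `p = g`, `c = dif x₀`), `g = 0` contradicts
  `aper` too, and `g = 1` gives `t ∈ 2πℤ`. Continuity and compactness give `|φ|² ≤ 1 - c' t²` on
  `[-π, π]`, hence `|φ| ≤ exp (- c t²)`.
-/

open MeasureTheory

namespace H95.DCM

/-- `D⁻ - D⁺`. -/
def dif (x : ℕ × ℕ) : ℤ := (x.1 : ℤ) - (x.2 : ℤ)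

/-- The characteristic function of `D⁻ - D⁺`. -/
noncomputable def phi (ν : Measure (ℕ × ℕ)) (t : ℝ) : ℂ :=
  ∫ x, Complex.exp ((t : ℂ) * ((dif x : ℝ) : ℂ) * Complex.I) ∂ν

lemma measurable_dif : Measurable dif := measurable_of_countable _

/-- orthogonality of the characters -/
lemma orth (k : ℤ) : (∫ t in (-Real.pi)..Real.pi, Complex.exp ((t : ℂ) * ((k : ℝ) : ℂ) * Complex.I))
    = if k = 0 then (2 * Real.pi : ℂ) else 0 := by
  by_cases hk : k = 0
  · subst hk
    simp
    ring
  · rw [if_neg hk]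
    have hc : ((k : ℝ) : ℂ) * Complex.I ≠ 0 :=
      mul_ne_zero (by simpa using hk) Complex.I_ne_zero
    have h1 : ∀ t : ℝ, Complex.exp ((t : ℂ) * ((k : ℝ) : ℂ) * Complex.I) =
        Complex.exp (((k : ℝ) : ℂ) * Complex.I * (t : ℂ)) := fun t => by ring_nf
    simp_rw [h1]
    rw [integral_exp_mul_complex hc]
    have h2 : Complex.exp (((k : ℝ) : ℂ) * Complex.I * ((Real.pi : ℝ) : ℂ)) =
        Complex.exp (((k : ℝ) : ℂ) * Complex.I * ((-Real.pi : ℝ) : ℂ)) := by
      rw [Complex.exp_eq_exp_iff_exists_int]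
      refine ⟨k, ?_⟩
      push_cast
      ring
    rw [h2, sub_self, zero_div]

theorem inversion (ν : Measure (ℕ × ℕ)) [IsProbabilityMeasure ν] (ι : Type) [Fintype ι] (x : ℤ) :
    (((Measure.pi fun _ : ι => ν).real {d | ∑ i, dif (d i) = x} : ℝ) : ℂ) =
      (1 / (2 * Real.pi) : ℂ) * ∫ t in (-Real.pi)..Real.pi,
        Complex.exp (-((t : ℂ) * ((x : ℝ) : ℂ) * Complex.I)) * (phi ν t) ^ (Fintype.card ι) := by
  set μ : Measure (ι → ℕ × ℕ) := Measure.pi fun _ : ι => ν with hμ
  set S : (ι → ℕ × ℕ) → ℤ := fun d => ∑ i, dif (d i) with hS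
  have hSm : Measurable S := by
    rw [hS]
    exact Finset.measurable_sum _ fun i _ => measurable_dif.comp (measurable_pi_apply i)
  have hpi : (0 : ℝ) < Real.pi := Real.pi_pos
  have h1 : ∀ t : ℝ, Complex.exp (-((t : ℂ) * ((x : ℝ) : ℂ) * Complex.I)) *
      (phi ν t) ^ (Fintype.card ι) =
      ∫ d, Complex.exp ((t : ℂ) * (((S d - x : ℤ) : ℝ) : ℂ) * Complex.I) ∂μ := by
    intro t
    unfold phi
    rw [← integral_fintype_prod_eq_pow, ← integral_const_mul]
    refine integral_congr_ae (Filter.Eventually.of_forall fun d => ?_)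
    simp only
    rw [← Complex.exp_sum, ← Complex.exp_add]
    congr 1
    rw [hS]
    push_cast
    rw [← Finset.sum_mul, ← Finset.mul_sum]
    ring
  simp_rw [h1]
  rw [intervalIntegral.integral_of_le (by linarith)]
  rw [integral_integral_swap]
  · have h2 : ∀ d : ι → ℕ × ℕ, (∫ t in Set.Ioc (-Real.pi) Real.pi,
        Complex.exp ((t : ℂ) * (((S d - x : ℤ) : ℝ) : ℂ) * Complex.I)) =
        Set.indicator {d | S d = x} (fun _ => (2 * Real.pi : ℂ)) d := by
      intro d
      rw [← intervalIntegral.integral_of_le (by linarith), orth]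
      by_cases h : S d = x
      · rw [Set.indicator_of_mem (show d ∈ {d | S d = x} from h), if_pos (by omega)]
      · rw [Set.indicator_of_notMem (show d ∉ {d | S d = x} from h), if_neg (by omega)]
    simp_rw [h2]
    have hmeas : MeasurableSet {d | S d = x} := hSm (measurableSet_singleton x)
    rw [integral_indicator_const _ hmeas]
    rw [Complex.real_smul]
    have : (Real.pi : ℂ) ≠ 0 := by exact_mod_cast hpi.ne'
    field_simp
    rfl
  · have hm : Measurable (Function.uncurry fun (t : ℝ) (d : ι → ℕ × ℕ) =>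
        Complex.exp ((t : ℂ) * (((S d - x : ℤ) : ℝ) : ℂ) * Complex.I)) := by
      unfold Function.uncurry
      apply Complex.measurable_exp.comp
      apply Measurable.mul_const
      apply Measurable.mul
      · exact Complex.measurable_ofReal.comp measurable_fst
      · apply Complex.measurable_ofReal.comp
        have : Measurable (fun z : ℤ => (z : ℝ)) := measurable_of_countable _
        exact this.comp ((hSm.comp measurable_snd).sub_const x)
    refine Integrable.mono' (g := fun _ => (1 : ℝ)) (integrable_const _) hm.aestronglyMeasurable ?_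
    refine Filter.Eventually.of_forall fun z => ?_
    unfold Function.uncurry
    have h3 : ((z.1 : ℝ) : ℂ) * (((S z.2 - x : ℤ) : ℝ) : ℂ) * Complex.I =
        ((z.1 * ((S z.2 - x : ℤ) : ℝ) : ℝ) : ℂ) * Complex.I := by push_cast; ring
    simp only
    rw [h3, Complex.norm_exp_ofReal_mul_I]

/-- almost every point is an atom -/
lemma ae_atom (ν : Measure (ℕ × ℕ)) : ∀ᵐ x ∂ν, ν {x} ≠ 0 := by
  rw [ae_iff]
  have h : {a : ℕ × ℕ | ¬ ν {a} ≠ 0} = ⋃ a ∈ {a : ℕ × ℕ | ν {a} = 0}, {a} := by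
    ext a; simp
  rw [h, measure_biUnion_null_iff (Set.to_countable _)]
  intro a ha
  exact ha

lemma norm_e (t : ℝ) (x : ℕ × ℕ) :
    ‖Complex.exp ((t : ℂ) * ((dif x : ℝ) : ℂ) * Complex.I)‖ = 1 := by
  have h3 : (t : ℂ) * ((dif x : ℝ) : ℂ) * Complex.I = ((t * (dif x : ℝ) : ℝ) : ℂ) * Complex.I := by
    push_cast; ring
  rw [h3, Complex.norm_exp_ofReal_mul_I]

lemma integrable_e (ν : Measure (ℕ × ℕ)) [IsProbabilityMeasure ν] (t : ℝ) :
    Integrable (fun x => Complex.exp ((t : ℂ) * ((dif x : ℝ) : ℂ) * Complex.I)) ν := by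
  refine Integrable.mono' (g := fun _ => (1 : ℝ)) (integrable_const _)
    (measurable_of_countable _).aestronglyMeasurable ?_
  exact Filter.Eventually.of_forall fun z => (norm_e t z).le

/-- norm of a sum of two unimodular numbers -/
lemma norm_add_exp (A B : ℝ) :
    ‖Complex.exp ((A : ℂ) * Complex.I) + Complex.exp ((B : ℂ) * Complex.I)‖ ≤
      2 - (1 - Real.cos (A - B)) / 2 := by
  have hcos := Real.cos_le_one (A - B)
  have hcos2 := Real.neg_one_le_cos (A - B)
  have h1 : ‖Complex.exp ((A : ℂ) * Complex.I) + Complex.exp ((B : ℂ) * Complex.I)‖ ^ 2 =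
      2 + 2 * Real.cos (A - B) := by
    rw [Complex.sq_norm, Complex.normSq_apply]
    simp only [Complex.add_re, Complex.add_im, Complex.exp_ofReal_mul_I_re,
      Complex.exp_ofReal_mul_I_im]
    rw [Real.cos_sub]
    have a1 := Real.sin_sq_add_cos_sq A
    have a2 := Real.sin_sq_add_cos_sq B
    nlinarith
  refine (pow_le_pow_iff_left₀ (norm_nonneg _) (by linarith) two_ne_zero).1 ?_
  rw [h1]
  nlinarith [sq_nonneg ((1 - Real.cos (A - B)) / 2)]

lemma phi_le_pair (ν : Measure (ℕ × ℕ)) [IsProbabilityMeasure ν] {x y : ℕ × ℕ} (hxy : x ≠ y)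
    {m : ℝ} (hm : 0 ≤ m) (hx : m ≤ ν.real {x}) (hy : m ≤ ν.real {y}) (t : ℝ) :
    ‖phi ν t‖ ≤ 1 - m * ((1 - Real.cos (t * ((dif x : ℝ) - (dif y : ℝ)))) / 2) := by
  set e : ℕ × ℕ → ℂ := fun x => Complex.exp ((t : ℂ) * ((dif x : ℝ) : ℂ) * Complex.I) with he
  have hint : Integrable e ν := integrable_e ν t
  have hme : ∀ x, ‖e x‖ = 1 := fun x => norm_e t x
  have h1 : phi ν t = ∫ z in {x}, e z ∂ν + (∫ z in {y}, e z ∂ν +
      ∫ z in ({x}ᶜ ∩ {y}ᶜ : Set (ℕ × ℕ)), e z ∂ν) := by
    have a1 : phi ν t = ∫ z in {x}, e z ∂ν + ∫ z in {x}ᶜ, e z ∂ν :=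
      (integral_add_compl (measurableSet_singleton x) hint).symm
    have a2 : ∫ z in ({x}ᶜ : Set (ℕ × ℕ)), e z ∂ν = ∫ z in {y}, e z ∂ν +
        ∫ z in ({x}ᶜ ∩ {y}ᶜ : Set (ℕ × ℕ)), e z ∂ν := by
      rw [← setIntegral_union]
      · congr 1
        congr 1
        ext z
        simp only [Set.mem_compl_iff, Set.mem_singleton_iff, Set.mem_union, Set.mem_inter_iff]
        constructor
        · intro h
          by_cases h2 : z = y
          · exact Or.inl h2
          · exact Or.inr ⟨h, h2⟩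
        · rintro (h | h)
          · rw [h]; exact hxy.symm
          · exact h.1
      · rw [Set.disjoint_left]
        rintro z hz ⟨_, h⟩
        exact h hz
      · exact ((measurableSet_singleton x).compl.inter (measurableSet_singleton y).compl)
      · exact hint.integrableOn
      · exact hint.integrableOn
    rw [a1, a2]
  rw [integral_singleton, integral_singleton] at h1
  have h2 : ‖∫ z in ({x}ᶜ ∩ {y}ᶜ : Set (ℕ × ℕ)), e z ∂ν‖ ≤ 1 - ν.real {x} - ν.real {y} := by
    have b1 : ‖∫ z in ({x}ᶜ ∩ {y}ᶜ : Set (ℕ × ℕ)), e z ∂ν‖ ≤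
        1 * ν.real ({x}ᶜ ∩ {y}ᶜ : Set (ℕ × ℕ)) := by
      apply norm_setIntegral_le_of_norm_le_const
      · exact measure_lt_top _ _
      · intro z _; exact (hme z).le
    have b2 : ν.real ({x}ᶜ ∩ {y}ᶜ : Set (ℕ × ℕ)) = 1 - ν.real {x} - ν.real {y} := by
      have c1 : ({x}ᶜ ∩ {y}ᶜ : Set (ℕ × ℕ)) = ({x} ∪ {y})ᶜ := by
        rw [Set.compl_union]
      have c2 : ν.real ({x} ∪ {y} : Set (ℕ × ℕ)) = ν.real {x} + ν.real {y} :=
        measureReal_union (by simpa using hxy) (measurableSet_singleton y)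
      rw [c1, measureReal_compl ((measurableSet_singleton x).union (measurableSet_singleton y)),
        c2]
      simp
      ring
    rw [b2, one_mul] at b1
    exact b1
  have h3 : ‖e x + e y‖ ≤ 2 - (1 - Real.cos (t * ((dif x : ℝ) - (dif y : ℝ)))) / 2 := by
    have d1 : e x = Complex.exp (((t * (dif x : ℝ) : ℝ) : ℂ) * Complex.I) := by
      rw [he]; push_cast; rfl
    have d2 : e y = Complex.exp (((t * (dif y : ℝ) : ℝ) : ℂ) * Complex.I) := by
      rw [he]; push_cast; rfl
    rw [d1, d2]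
    have := norm_add_exp (t * (dif x : ℝ)) (t * (dif y : ℝ))
    rw [← mul_sub] at this
    exact this
  have h4 : phi ν t = ((ν.real {x} - m : ℝ) : ℂ) * e x + ((ν.real {y} - m : ℝ) : ℂ) * e y +
      (m : ℂ) * (e x + e y) + ∫ z in ({x}ᶜ ∩ {y}ᶜ : Set (ℕ × ℕ)), e z ∂ν := by
    rw [h1, Complex.real_smul, Complex.real_smul]
    push_cast
    ring
  have n1 : ‖((ν.real {x} - m : ℝ) : ℂ) * e x‖ = ν.real {x} - m := by
    rw [norm_mul, hme, mul_one, Complex.norm_real, Real.norm_of_nonneg (by linarith)]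
  have n2 : ‖((ν.real {y} - m : ℝ) : ℂ) * e y‖ = ν.real {y} - m := by
    rw [norm_mul, hme, mul_one, Complex.norm_real, Real.norm_of_nonneg (by linarith)]
  have n3 : ‖(m : ℂ) * (e x + e y)‖ ≤
      m * (2 - (1 - Real.cos (t * ((dif x : ℝ) - (dif y : ℝ)))) / 2) := by
    rw [norm_mul, Complex.norm_real, Real.norm_of_nonneg hm]
    exact mul_le_mul_of_nonneg_left h3 hm
  rw [h4]
  refine (norm_add_le _ _).trans ?_
  refine (add_le_add (norm_add_le _ _) le_rfl).trans ?_
  refine (add_le_add (add_le_add (norm_add_le _ _) le_rfl) le_rfl).trans ?_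
  rw [n1, n2]
  nlinarith

lemma continuous_phi (ν : Measure (ℕ × ℕ)) [IsProbabilityMeasure ν] : Continuous (phi ν) := by
  unfold phi
  refine continuous_of_dominated (bound := fun _ => (1 : ℝ)) ?_ ?_ (integrable_const _) ?_
  · intro t
    exact (measurable_of_countable _).aestronglyMeasurable
  · intro t
    exact Filter.Eventually.of_forall fun z => (norm_e t z).le
  · exact Filter.Eventually.of_forall fun z => by fun_prop

theorem phi_bound (ν : Measure (ℕ × ℕ)) [IsProbabilityMeasure ν]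
    (aper : ∀ p : ℕ, 1 < p → ∀ c : ℝ, ν {x | ∃ z : ℤ, (x.1 : ℝ) - (x.2 : ℝ) = c + p * z} ≠ 1) :
    ∃ c : ℝ, 0 < c ∧ ∀ t : ℝ, |t| ≤ Real.pi → ‖phi ν t‖ ≤ Real.exp (-c * t ^ 2) := by
  have hpi : (0 : ℝ) < Real.pi := Real.pi_pos
  have hdif : ∀ x : ℕ × ℕ, ((dif x : ℤ) : ℝ) = (x.1 : ℝ) - (x.2 : ℝ) := by
    intro x; unfold dif; push_cast; ring
  -- from a subgroup containing all differences
  have hsub : ∀ (p : ℕ), 1 < p → ∀ x0 : ℕ × ℕ,
      ¬ ∀ x : ℕ × ℕ, ν {x} ≠ 0 → (p : ℤ) ∣ dif x - dif x0 := by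
    intro p hp x0 h
    apply aper p hp (dif x0 : ℝ)
    have hae : ∀ᵐ x ∂ν, x ∈ {x : ℕ × ℕ | ∃ z : ℤ, (x.1 : ℝ) - (x.2 : ℝ) = (dif x0 : ℝ) + p * z} := by
      filter_upwards [ae_atom ν] with x hx
      obtain ⟨z, hz⟩ := h x hx
      refine ⟨z, ?_⟩
      rw [← hdif]
      have : dif x = dif x0 + p * z := by linarith
      rw [this]; push_cast; ring
    rw [← prob_compl_eq_zero_iff]
    · exact hae
    · exact Set.Countable.measurableSet (Set.to_countable _)
  -- an atom
  obtain ⟨x0, hx0⟩ : ∃ x : ℕ × ℕ, ν {x} ≠ 0 := by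
    have := (ae_atom ν).exists
    exact this
  -- an atom with another value of dif
  obtain ⟨y0, hy0, hne⟩ : ∃ y : ℕ × ℕ, ν {y} ≠ 0 ∧ dif y ≠ dif x0 := by
    by_contra hcon
    push Not at hcon
    apply hsub 2 (by norm_num) x0
    intro x hx
    rw [hcon x hx, sub_self]
    exact dvd_zero _
  have hreal : ∀ x : ℕ × ℕ, ν {x} ≠ 0 → 0 < ν.real {x} := by
    intro x hx
    exact ENNReal.toReal_pos hx (measure_ne_top _ _)
  have hpos := hreal x0 hx0
  have hpos' := hreal y0 hy0
  -- bound near zero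
  set m := min (ν.real {x0}) (ν.real {y0}) with hm
  have hm0 : 0 < m := lt_min hpos hpos'
  set D : ℝ := (dif x0 : ℝ) - (dif y0 : ℝ) with hD
  have hD0 : D ≠ 0 := by
    rw [hD, sub_ne_zero]
    exact_mod_cast hne.symm
  have hD1 : 0 < |D| := abs_pos.mpr hD0
  have hxy : x0 ≠ y0 := by
    rintro rfl; exact hne rfl
  set δ := Real.pi / |D| with hδ
  have hδ0 : 0 < δ := div_pos hpi hD1
  have hnear : ∀ t : ℝ, |t| ≤ δ → ‖phi ν t‖ ≤ 1 - (m * D ^ 2 / Real.pi ^ 2) * t ^ 2 := by
    intro t ht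
    have h1 := phi_le_pair ν hxy hm0.le (min_le_left _ _) (min_le_right _ _) t
    rw [← hD] at h1
    have h2 : |t * D| ≤ Real.pi := by
      rw [abs_mul]
      calc |t| * |D| ≤ δ * |D| := mul_le_mul_of_nonneg_right ht hD1.le
        _ = Real.pi := by rw [hδ]; field_simp
    have h3 := Real.cos_le_one_sub_mul_cos_sq h2
    have h4 : m * D ^ 2 / Real.pi ^ 2 * t ^ 2 ≤ m * ((1 - Real.cos (t * D)) / 2) := by
      have : m * D ^ 2 / Real.pi ^ 2 * t ^ 2 = m * ((2 / Real.pi ^ 2 * (t * D) ^ 2) / 2) := by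
        field_simp
      rw [this]
      apply mul_le_mul_of_nonneg_left _ hm0.le
      linarith
    linarith
  -- strict inequality away from zero
  have hstrict : ∀ t : ℝ, t ≠ 0 → |t| ≤ Real.pi → ‖phi ν t‖ < 1 := by
    intro t ht0 ht
    by_contra hge
    push Not at hge
    let H : AddSubgroup ℤ :=
      { carrier := {k | ∃ n : ℤ, (n : ℝ) * (2 * Real.pi) = t * k}
        add_mem' := by
          rintro a b ⟨n, hn⟩ ⟨n', hn'⟩
          exact ⟨n + n', by push_cast; linarith⟩
        zero_mem' := ⟨0, by simp⟩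
        neg_mem' := by
          rintro a ⟨n, hn⟩
          exact ⟨-n, by push_cast; linarith⟩ }
    have hmemH : ∀ k : ℤ, k ∈ H ↔ ∃ n : ℤ, (n : ℝ) * (2 * Real.pi) = t * k := fun k => Iff.rfl
    have hall : ∀ x : ℕ × ℕ, ν {x} ≠ 0 → dif x - dif x0 ∈ H := by
      intro x hx
      by_cases hxx : x = x0
      · rw [hxx, sub_self]; exact H.zero_mem
      have hmx : 0 < min (ν.real {x}) (ν.real {x0}) := lt_min (hreal x hx) hpos
      have h1 := phi_le_pair ν hxx hmx.le (min_le_left _ _) (min_le_right _ _) t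
      have h2 : Real.cos (t * ((dif x : ℝ) - (dif x0 : ℝ))) = 1 := by
        apply le_antisymm (Real.cos_le_one _)
        by_contra hlt
        push Not at hlt
        have : 0 < min (ν.real {x}) (ν.real {x0}) *
            ((1 - Real.cos (t * ((dif x : ℝ) - (dif x0 : ℝ)))) / 2) := by
          apply mul_pos hmx
          linarith
        linarith
      rw [Real.cos_eq_one_iff] at h2
      rw [hmemH]
      obtain ⟨n, hn⟩ := h2
      exact ⟨n, by rw [hn]; push_cast; ring⟩
    have h1H : (1 : ℤ) ∉ H := by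
      rw [hmemH]
      rintro ⟨n, hn⟩
      rw [Int.cast_one, mul_one] at hn
      have hn0 : n = 0 := by
        by_contra hne'
        have h5 : (1 : ℝ) ≤ |(n : ℝ)| := by
          have := Int.one_le_abs hne'
          exact_mod_cast this
        have h6 : |t| = |(n : ℝ)| * (2 * Real.pi) := by
          rw [← hn, abs_mul, abs_of_pos (by linarith : (0 : ℝ) < 2 * Real.pi)]
        nlinarith
      rw [hn0] at hn
      apply ht0
      rw [← hn]; simp
    obtain ⟨a, ha⟩ := Int.subgroup_cyclic H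
    have hmem : ∀ k : ℤ, k ∈ H ↔ a ∣ k := by
      intro k
      rw [ha, AddSubgroup.mem_closure_singleton]
      constructor
      · rintro ⟨n, rfl⟩
        exact ⟨n, by rw [smul_eq_mul, mul_comm]⟩
      · rintro ⟨n, rfl⟩
        exact ⟨n, by rw [smul_eq_mul, mul_comm]⟩
    have ha1 : a.natAbs ≠ 1 := by
      intro h
      apply h1H
      rw [hmem, ← Int.natAbs_dvd_natAbs, h]
      exact one_dvd _
    by_cases ha0 : a.natAbs = 0
    · have ha0' : a = 0 := Int.natAbs_eq_zero.mp ha0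
      apply hsub 2 (by norm_num) x0
      intro x hx
      have := (hmem _).1 (hall x hx)
      rw [ha0', zero_dvd_iff] at this
      rw [this]
      exact dvd_zero _
    · apply hsub a.natAbs (by omega) x0
      intro x hx
      have := (hmem _).1 (hall x hx)
      rwa [Int.natAbs_dvd]
  -- compactness
  obtain ⟨η, hη0, hη⟩ : ∃ η : ℝ, 0 < η ∧ ∀ t : ℝ, δ ≤ |t| → |t| ≤ Real.pi → ‖phi ν t‖ ≤ 1 - η := by
    set Kc : Set ℝ := {t | δ ≤ |t| ∧ |t| ≤ Real.pi} with hKc
    have hKcompact : IsCompact Kc := by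
      have hclosed : IsClosed Kc :=
        (isClosed_le continuous_const continuous_abs).inter
          (isClosed_le continuous_abs continuous_const)
      have hsubset : Kc ⊆ Set.Icc (-Real.pi) Real.pi := fun t ht => abs_le.1 ht.2
      exact isCompact_Icc.of_isClosed_subset hclosed hsubset
    by_cases hne' : Kc.Nonempty
    · obtain ⟨t0, ht0, hmax⟩ := hKcompact.exists_isMaxOn hne'
        ((continuous_phi ν).norm.continuousOn)
      have h7 : ‖phi ν t0‖ < 1 := by
        apply hstrict t0 _ ht0.2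
        intro h
        have h8 := ht0.1
        rw [h, abs_zero] at h8
        exact absurd h8 (not_le.mpr hδ0)
      refine ⟨1 - ‖phi ν t0‖, by linarith, fun t h1 h2 => ?_⟩
      have := hmax (show t ∈ Kc from ⟨h1, h2⟩)
      simp only [Set.mem_ofPred_eq] at this
      linarith
    · refine ⟨1, one_pos, fun t h1 h2 => ?_⟩
      exact absurd ⟨t, h1, h2⟩ hne'
  refine ⟨min (m * D ^ 2 / Real.pi ^ 2) (η / Real.pi ^ 2), ?_, fun t ht => ?_⟩
  · apply lt_min
    · positivity
    · positivity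
  · have hexp : ∀ u : ℝ, 1 - u ≤ Real.exp (-u) := fun u => by
      have := Real.add_one_le_exp (-u); linarith
    set c := min (m * D ^ 2 / Real.pi ^ 2) (η / Real.pi ^ 2) with hc
    have hc1 : c ≤ m * D ^ 2 / Real.pi ^ 2 := min_le_left _ _
    have hc2 : c ≤ η / Real.pi ^ 2 := min_le_right _ _
    have ht2 : 0 ≤ t ^ 2 := sq_nonneg t
    have key : ‖phi ν t‖ ≤ 1 - c * t ^ 2 := by
      rcases le_total |t| δ with h | h
      · have := hnear t h
        have h9 := mul_le_mul_of_nonneg_right hc1 ht2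
        linarith
      · have h8 := hη t h ht
        have h9 : c * t ^ 2 ≤ η := by
          have h10 : t ^ 2 ≤ Real.pi ^ 2 := by
            rw [← sq_abs t]
            exact pow_le_pow_left₀ (abs_nonneg t) ht 2
          calc c * t ^ 2 ≤ (η / Real.pi ^ 2) * t ^ 2 := mul_le_mul_of_nonneg_right hc2 ht2
            _ ≤ (η / Real.pi ^ 2) * Real.pi ^ 2 := by
              apply mul_le_mul_of_nonneg_left h10
              positivity
            _ = η := by field_simp
        linarith
    have := hexp (c * t ^ 2)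
    rw [neg_mul]
    linarith

end H95.DCM
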