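import Pool.Agent.H95.DCM.Events
import Pool.Agent.H95.DCM.Det

/-!
# Job DCM-14: the conditioned degree sequence is good with high probability

`deg (srcD d) v = (d v).2`, `deg (tgtD d) v = (d v).1`, `card (OutH d) = ∑ (d v).2`.
`upper`: `ev_markov` for `x.2`; squares: `ev_markov` for `x.1^2`, `x.2^2`; `crit`: `ev_cheb` for
`f x = x.1 * x.2 - x.2` (mean `0` by `crit` and `mean`; `f²` integrable since
`x.1² x.2² ≤ (x.1³ x.2 + x.1 x.2³)/2`); `br1`, `br2`: `ev_count`.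
-/

open MeasureTheory

namespace H95.DCM

/-- Everything that is needed about the degree sequence in the nondegenerate case. -/
structure GoodSeq (c C : ℝ) (n : ℕ) (d : Fin n → ℕ × ℕ) : Prop where
  good : Good c C n (srcD d) (tgtD d)
  low : c * n ≤ (Fintype.card (OutH d) : ℝ)
  sq1 : ∑ v, (deg (srcD d) v : ℝ) ^ 2 ≤ C * n
  sq2 : ∑ v, (deg (tgtD d) v : ℝ) ^ 2 ≤ C * n

/-- Everything that is needed about the degree sequence in the degenerate case. -/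
structure DegSeq (c C : ℝ) (n : ℕ) (d : Fin n → ℕ × ℕ) : Prop where
  hOI : Fintype.card (OutH d) = Fintype.card (InH d)
  deg : (∀ v, 1 ≤ (d v).1 → (d v).2 = 1) ∨ (∀ v, 1 ≤ (d v).2 → (d v).1 = 1)
  low : c * n ≤ (Fintype.card (OutH d) : ℝ)
  sq1 : ∑ v, (DCM.deg (srcD d) v : ℝ) ^ 2 ≤ C * n
  sq2 : ∑ v, (DCM.deg (tgtD d) v : ℝ) ^ 2 ≤ C * n

lemma deg_srcD {n : ℕ} (d : Fin n → ℕ × ℕ) (v : Fin n) : deg (srcD d) v = (d v).2 := by
  unfold deg
  have h : (Finset.univ.filter fun o : OutH d => srcD d o = v) =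
      Finset.univ.map ⟨fun i : Fin (d v).2 => (⟨v, i⟩ : OutH d), fun i j h => by simpa using h⟩ := by
    ext ⟨w, i⟩
    simp only [Finset.mem_filter, Finset.mem_univ, true_and, Finset.mem_map]
    constructor
    · rintro rfl
      exact ⟨i, rfl⟩
    · rintro ⟨j, h⟩
      exact (congrArg Sigma.fst h).symm
  rw [h, Finset.card_map, Finset.card_fin]

lemma deg_tgtD {n : ℕ} (d : Fin n → ℕ × ℕ) (v : Fin n) : deg (tgtD d) v = (d v).1 := by
  unfold deg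
  have h : (Finset.univ.filter fun o : InH d => tgtD d o = v) =
      Finset.univ.map ⟨fun i : Fin (d v).1 => (⟨v, i⟩ : InH d), fun i j h => by simpa using h⟩ := by
    ext ⟨w, i⟩
    simp only [Finset.mem_filter, Finset.mem_univ, true_and, Finset.mem_map]
    constructor
    · rintro rfl
      exact ⟨i, rfl⟩
    · rintro ⟨j, h⟩
      exact (congrArg Sigma.fst h).symm
  rw [h, Finset.card_map, Finset.card_fin]

lemma card_OutH {n : ℕ} (d : Fin n → ℕ × ℕ) : Fintype.card (OutH d) = ∑ v, (d v).2 := by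
  rw [Fintype.card_sigma]
  exact Finset.sum_congr rfl fun v _ => Fintype.card_fin _

lemma card_InH {n : ℕ} (d : Fin n → ℕ × ℕ) : Fintype.card (InH d) = ∑ v, (d v).1 := by
  rw [Fintype.card_sigma]
  exact Finset.sum_congr rfl fun v _ => Fintype.card_fin _

section Mom

variable {ν : Measure (ℕ × ℕ)} (hν : Assump ν)

include hν

lemma Assump.i01 : Integrable (fun x : ℕ × ℕ => (x.2 : ℝ)) ν := by
  simpa using hν.mom 0 1 (by norm_num) (by norm_num)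

lemma Assump.i10 : Integrable (fun x : ℕ × ℕ => (x.1 : ℝ)) ν := by
  simpa using hν.mom 1 0 (by norm_num) (by norm_num)

lemma Assump.i20 : Integrable (fun x : ℕ × ℕ => (x.1 : ℝ) ^ 2) ν := by
  simpa using hν.mom 2 0 (by norm_num) (by norm_num)

lemma Assump.i02 : Integrable (fun x : ℕ × ℕ => (x.2 : ℝ) ^ 2) ν := by
  simpa using hν.mom 0 2 (by norm_num) (by norm_num)

lemma Assump.i11 : Integrable (fun x : ℕ × ℕ => (x.1 : ℝ) * (x.2 : ℝ)) ν := by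
  simpa using hν.mom 1 1 (by norm_num) (by norm_num)

lemma Assump.i12 : Integrable (fun x : ℕ × ℕ => (x.1 : ℝ) * (x.2 : ℝ) ^ 2) ν := by
  simpa using hν.mom 1 2 (by norm_num) (by norm_num)

lemma Assump.i22 : Integrable (fun x : ℕ × ℕ => (x.1 : ℝ) ^ 2 * (x.2 : ℝ) ^ 2) ν := by
  refine (((hν.mom13.add hν.mom31).div_const 2)).mono'
    (Measurable.of_discrete.aestronglyMeasurable) (Filter.Eventually.of_forall fun x => ?_)
  rw [Real.norm_eq_abs, abs_of_nonneg (by positivity)]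
  show (x.1 : ℝ) ^ 2 * (x.2 : ℝ) ^ 2 ≤
    ((x.1 : ℝ) * (x.2 : ℝ) ^ 3 + (x.1 : ℝ) ^ 3 * (x.2 : ℝ)) / 2
  have h1 : (0 : ℝ) ≤ (x.1 : ℝ) * (x.2 : ℝ) := by positivity
  nlinarith [mul_nonneg h1 (sq_nonneg ((x.1 : ℝ) - (x.2 : ℝ)))]

lemma Assump.cheb_sq :
    Integrable (fun x : ℕ × ℕ => ((x.1 : ℝ) * (x.2 : ℝ) - (x.2 : ℝ)) ^ 2) ν := by
  have h := (hν.i22.sub (hν.i12.const_mul 2)).add hν.i02
  refine h.congr (Filter.Eventually.of_forall fun x => ?_)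
  show (x.1 : ℝ) ^ 2 * (x.2 : ℝ) ^ 2 - 2 * ((x.1 : ℝ) * (x.2 : ℝ) ^ 2) + (x.2 : ℝ) ^ 2 =
    ((x.1 : ℝ) * (x.2 : ℝ) - (x.2 : ℝ)) ^ 2
  ring

lemma Assump.cheb_mean : ∫ x : ℕ × ℕ, ((x.1 : ℝ) * (x.2 : ℝ) - (x.2 : ℝ)) ∂ν = 0 := by
  rw [integral_sub hν.i11 hν.i01, hν.crit, hν.mean, sub_self]

end Mom

open Classical in
lemma low_of_count {n : ℕ} (d : Fin n → ℕ × ℕ) (B : Set (ℕ × ℕ)) (hB : ∀ x ∈ B, 1 ≤ x.2) :
    (Finset.univ.filter fun i => d i ∈ B).card ≤ Fintype.card (OutH d) := by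
  rw [card_OutH, Finset.card_eq_sum_ones, Finset.sum_filter]
  refine Finset.sum_le_sum fun v _ => ?_
  split_ifs with h
  · exact hB _ h
  · exact Nat.zero_le _

theorem good_whp (ν : Measure (ℕ × ℕ)) (hν : Assump ν) (hd : Nondeg ν) (ε : ℝ) (hε : 0 < ε) :
    ∃ c C : ℝ, 0 < c ∧ 0 < C ∧ ∃ n0 : ℕ, ∀ n ≥ n0,
      (seqLaw ν n).real {d | ¬ GoodSeq c C n d} ≤ ε := by
  classical
  obtain ⟨K1, hK1, n1, h1⟩ := ev_markov ν hν (fun x => (x.2 : ℝ)) (fun x => Nat.cast_nonneg _)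
    hν.i01 (ε / 6) (by positivity)
  obtain ⟨K2, hK2, n2, h2⟩ := ev_markov ν hν (fun x => (x.1 : ℝ) ^ 2) (fun x => by positivity)
    hν.i20 (ε / 6) (by positivity)
  obtain ⟨K3, hK3, n3, h3⟩ := ev_markov ν hν (fun x => (x.2 : ℝ) ^ 2) (fun x => by positivity)
    hν.i02 (ε / 6) (by positivity)
  obtain ⟨n4, h4⟩ := ev_cheb ν hν (fun x => (x.1 : ℝ) * (x.2 : ℝ) - (x.2 : ℝ))
    (hν.i11.sub hν.i01) hν.cheb_sq hν.cheb_mean (ε / 6) (by positivity)
  obtain ⟨B5, hB5⟩ : ∃ B : Set (ℕ × ℕ), B = {x | 1 ≤ x.1 ∧ 2 ≤ x.2} := ⟨_, rfl⟩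
  obtain ⟨B6, hB6⟩ : ∃ B : Set (ℕ × ℕ), B = {x | 1 ≤ x.2 ∧ 2 ≤ x.1} := ⟨_, rfl⟩
  have hm5 : ∀ x, x ∈ B5 → 1 ≤ x.1 ∧ 2 ≤ x.2 := fun x hx => by rw [hB5] at hx; exact hx
  have hm6 : ∀ x, x ∈ B6 → 1 ≤ x.2 ∧ 2 ≤ x.1 := fun x hx => by rw [hB6] at hx; exact hx
  obtain ⟨c5, hc5, h5⟩ := ev_count ν hν B5 (by rw [hB5]; exact hd.1)
  obtain ⟨n5, h5⟩ := h5 (ε / 6) (by positivity)
  obtain ⟨c6, hc6, h6⟩ := ev_count ν hν B6 (by rw [hB6]; exact hd.2)
  obtain ⟨n6, h6⟩ := h6 (ε / 6) (by positivity)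
  obtain ⟨n0, h0⟩ := seqLaw_prob ν hν
  refine ⟨min c5 c6, max (max K1 K2) (max K3 1), lt_min hc5 hc6, by positivity,
    n0 + n1 + n2 + n3 + n4 + n5 + n6, fun n hn => ?_⟩
  have := h0 n (by omega)
  have h1 := h1 n (by omega)
  have h2 := h2 n (by omega)
  have h3 := h3 n (by omega)
  have h4 := h4 n (by omega)
  have h5 := h5 n (by omega)
  have h6 := h6 n (by omega)
  have h7 := seqLaw_balanced ν hν n
  set C := max (max K1 K2) (max K3 1) with hC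
  have hC1 : K1 ≤ C := (le_max_left _ _).trans (le_max_left _ _)
  have hC2 : K2 ≤ C := (le_max_right _ _).trans (le_max_left _ _)
  have hC3 : K3 ≤ C := (le_max_left _ _).trans (le_max_right _ _)
  have hC4 : 1 ≤ C := (le_max_right _ _).trans (le_max_right _ _)
  have hn0 : (0 : ℝ) ≤ n := Nat.cast_nonneg n
  have hsub : {d : Fin n → ℕ × ℕ | ¬ GoodSeq (min c5 c6) C n d} ⊆
      ((((((balanced n)ᶜ ∪ {d | K1 * n < ∑ i, ((d i).2 : ℝ)}) ∪
        {d | K2 * n < ∑ i, ((d i).1 : ℝ) ^ 2}) ∪ {d | K3 * n < ∑ i, ((d i).2 : ℝ) ^ 2}) ∪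
        {d | (n : ℝ) ^ ((2 : ℝ) / 3) < |∑ i, (((d i).1 : ℝ) * ((d i).2 : ℝ) - ((d i).2 : ℝ))|}) ∪
        {d | ((Finset.univ.filter fun i => d i ∈ B5).card : ℝ) < c5 * n}) ∪
        {d | ((Finset.univ.filter fun i => d i ∈ B6).card : ℝ) < c6 * n} := by
    intro d hdn
    by_contra hcon
    apply hdn
    simp only [Set.mem_union, Set.mem_ofPred_eq, not_or, not_lt, Set.mem_compl_iff, not_not]
      at hcon
    obtain ⟨⟨⟨⟨⟨⟨e0, e1⟩, e2⟩, e3⟩, e4⟩, e5⟩, e6⟩ := hcon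
    have e0' : ∑ i, (d i).1 = ∑ i, (d i).2 := e0
    have hcardO : (Fintype.card (OutH d) : ℝ) = ∑ i, ((d i).2 : ℝ) := by
      rw [card_OutH]; push_cast; rfl
    have hlow := low_of_count d B5 (fun x hx => by
      have := (hm5 x hx).2; omega)
    have hc5' : min c5 c6 * n ≤ c5 * n := mul_le_mul_of_nonneg_right (min_le_left _ _) hn0
    have hc6' : min c5 c6 * n ≤ c6 * n := mul_le_mul_of_nonneg_right (min_le_right _ _) hn0
    refine ⟨⟨?_, Fintype.card_fin n, ?_, ?_, ?_, ?_⟩, ?_, ?_, ?_⟩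
    · rw [card_OutH, card_InH, e0']
    · rw [hcardO]
      exact e1.trans (mul_le_mul_of_nonneg_right hC1 hn0)
    · rw [hcardO]
      have e7 := (le_abs_self _).trans e4
      rw [Finset.sum_sub_distrib] at e7
      have e8 : ∑ v, (deg (tgtD d) v : ℝ) * (deg (srcD d) v : ℝ) =
          ∑ i, ((d i).1 : ℝ) * ((d i).2 : ℝ) :=
        Finset.sum_congr rfl fun v _ => by rw [deg_srcD, deg_tgtD]
      rw [e8]
      have e9 : (0 : ℝ) ≤ (n : ℝ) ^ ((2 : ℝ) / 3) := Real.rpow_nonneg hn0 _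
      nlinarith
    · refine hc5'.trans (e5.trans ?_)
      rw [Nat.cast_le]
      refine Finset.card_le_card fun v hv => ?_
      rw [Finset.mem_filter] at hv ⊢
      refine ⟨hv.1, ?_⟩
      rw [deg_srcD, deg_tgtD]
      exact hm5 _ hv.2
    · refine hc6'.trans (e6.trans ?_)
      rw [Nat.cast_le]
      refine Finset.card_le_card fun v hv => ?_
      rw [Finset.mem_filter] at hv ⊢
      refine ⟨hv.1, ?_⟩
      rw [deg_srcD, deg_tgtD]
      exact hm6 _ hv.2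
    · exact hc5'.trans (e5.trans (Nat.cast_le.2 hlow))
    · refine le_trans (le_of_eq ?_) (e3.trans (mul_le_mul_of_nonneg_right hC3 hn0))
      exact Finset.sum_congr rfl fun v _ => by rw [deg_srcD]
    · refine le_trans (le_of_eq ?_) (e2.trans (mul_le_mul_of_nonneg_right hC2 hn0))
      exact Finset.sum_congr rfl fun v _ => by rw [deg_tgtD]
  have u1 := measureReal_mono (μ := seqLaw ν n) hsub
  refine u1.trans ?_
  refine (measureReal_union_le _ _).trans ?_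
  refine (add_le_add_left (measureReal_union_le _ _) _).trans ?_
  refine (add_le_add_left (add_le_add_left (measureReal_union_le _ _) _) _).trans ?_
  refine (add_le_add_left (add_le_add_left (add_le_add_left
    (measureReal_union_le _ _) _) _) _).trans ?_
  refine (add_le_add_left (add_le_add_left (add_le_add_left (add_le_add_left
    (measureReal_union_le _ _) _) _) _) _).trans ?_
  refine (add_le_add_left (add_le_add_left (add_le_add_left (add_le_add_left (add_le_add_left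
    (measureReal_union_le _ _) _) _) _) _) _).trans ?_
  rw [h7]
  linarith

/-- If a nonnegative (a.s.) function has mean zero then it vanishes a.s. -/
lemma ae_zero_of {ν : Measure (ℕ × ℕ)} (f : ℕ × ℕ → ℝ) (hf : Integrable f ν)
    (h0 : ∀ᵐ x ∂ν, 0 ≤ f x) (hm : ∫ x, f x ∂ν = 0) : ∀ᵐ x ∂ν, f x = 0 :=
  (integral_eq_zero_iff_of_nonneg_ae h0 hf).1 hm

lemma pos_of_aper (ν : Measure (ℕ × ℕ)) (hν : Assump ν) : ν {x | 1 ≤ x.2} ≠ 0 := by
  intro h
  have := hν.prob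
  have h2 : ∀ᵐ x ∂ν, (x.2 : ℝ) = 0 := by
    rw [ae_iff]
    refine measure_mono_null (fun x hx => ?_) h
    have hx' : ¬ ((x.2 : ℝ) = 0) := hx
    have : x.2 ≠ 0 := fun h => hx' (by rw [h]; simp)
    exact Nat.one_le_iff_ne_zero.2 this
  have h3 : ∫ x, (x.2 : ℝ) ∂ν = 0 := by
    rw [integral_congr_ae h2]; simp
  have h4 : ∀ᵐ x ∂ν, (x.1 : ℝ) = 0 :=
    ae_zero_of (fun x => (x.1 : ℝ)) hν.i10
      (Filter.Eventually.of_forall fun x => Nat.cast_nonneg _) (by rw [hν.mean, h3])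
  apply hν.aper 2 (by norm_num) 0
  have h5 : ∀ᵐ x ∂ν, x ∈ {x : ℕ × ℕ | ∃ z : ℤ, (x.1 : ℝ) - (x.2 : ℝ) = 0 + (2 : ℕ) * z} := by
    filter_upwards [h2, h4] with x hx2 hx1
    exact ⟨0, by rw [hx1, hx2]; simp⟩
  exact prob_compl_eq_zero_iff (Set.to_countable _).measurableSet |>.1 h5

lemma deg_cases (ν : Measure (ℕ × ℕ)) (hν : Assump ν) (hd : ¬ Nondeg ν) :
    ν {x | 1 ≤ x.1 ∧ x.2 ≠ 1} = 0 ∨ ν {x | 1 ≤ x.2 ∧ x.1 ≠ 1} = 0 := by
  unfold Nondeg at hd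
  rw [not_and_or, not_not, not_not] at hd
  rcases hd with hd | hd
  · left
    have h0 : ∀ᵐ x ∂ν, 0 ≤ (x.1 : ℝ) - (x.1 : ℝ) * (x.2 : ℝ) := by
      rw [ae_iff]
      refine measure_mono_null (fun x hx => ?_) hd
      have hx' : ¬ (0 ≤ (x.1 : ℝ) - (x.1 : ℝ) * (x.2 : ℝ)) := hx
      show 1 ≤ x.1 ∧ 2 ≤ x.2
      by_contra hcon
      apply hx'
      rcases Nat.eq_zero_or_pos x.1 with h | h
      · rw [h]; simp
      · have h2 : x.2 ≤ 1 := by
          by_contra h3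
          exact hcon ⟨h, by omega⟩
        have h3 : (x.2 : ℝ) ≤ 1 := by exact_mod_cast h2
        have h4 : (0 : ℝ) ≤ x.1 := Nat.cast_nonneg _
        nlinarith
    have h1 := ae_zero_of (fun x => (x.1 : ℝ) - (x.1 : ℝ) * (x.2 : ℝ)) (hν.i10.sub hν.i11) h0
      (by rw [integral_sub hν.i10 hν.i11, hν.crit, sub_self])
    rw [ae_iff] at h1
    refine measure_mono_null (fun x hx => ?_) h1
    show ¬ ((x.1 : ℝ) - (x.1 : ℝ) * (x.2 : ℝ) = 0)
    intro h2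
    have h3 : (x.1 : ℝ) * (1 - (x.2 : ℝ)) = 0 := by linarith
    rcases mul_eq_zero.1 h3 with h4 | h4
    · have h5 : x.1 = 0 := by exact_mod_cast h4
      have := hx.1; omega
    · have h5 : (x.2 : ℝ) = 1 := by linarith
      exact hx.2 (by exact_mod_cast h5)
  · right
    have h0 : ∀ᵐ x ∂ν, 0 ≤ (x.2 : ℝ) - (x.1 : ℝ) * (x.2 : ℝ) := by
      rw [ae_iff]
      refine measure_mono_null (fun x hx => ?_) hd
      have hx' : ¬ (0 ≤ (x.2 : ℝ) - (x.1 : ℝ) * (x.2 : ℝ)) := hx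
      show 1 ≤ x.2 ∧ 2 ≤ x.1
      by_contra hcon
      apply hx'
      rcases Nat.eq_zero_or_pos x.2 with h | h
      · rw [h]; simp
      · have h2 : x.1 ≤ 1 := by
          by_contra h3
          exact hcon ⟨h, by omega⟩
        have h3 : (x.1 : ℝ) ≤ 1 := by exact_mod_cast h2
        have h4 : (0 : ℝ) ≤ x.2 := Nat.cast_nonneg _
        nlinarith
    have h1 := ae_zero_of (fun x => (x.2 : ℝ) - (x.1 : ℝ) * (x.2 : ℝ)) (hν.i01.sub hν.i11) h0
      (by rw [integral_sub hν.i01 hν.i11, hν.crit, hν.mean, sub_self])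
    rw [ae_iff] at h1
    refine measure_mono_null (fun x hx => ?_) h1
    show ¬ ((x.2 : ℝ) - (x.1 : ℝ) * (x.2 : ℝ) = 0)
    intro h2
    have h3 : (x.2 : ℝ) * (1 - (x.1 : ℝ)) = 0 := by linarith
    rcases mul_eq_zero.1 h3 with h4 | h4
    · have h5 : x.2 = 0 := by exact_mod_cast h4
      have := hx.1; omega
    · have h5 : (x.1 : ℝ) = 1 := by linarith
      exact hx.2 (by exact_mod_cast h5)

/-- Degenerate laws: if `ν {1 ≤ D⁻, 2 ≤ D⁺} = 0` then `E[D⁻ (D⁺ - 1)] = 0` forces `D⁺ = 1` a.s. on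
`D⁻ ≥ 1`; similarly for the other condition. `low`: `ev_count` for `B = {x | 1 ≤ x.2}`
(`ν B ≠ 0`, otherwise `dif ≥ 0` has mean zero, so `dif = 0` a.s., contradicting `aper`). -/
theorem deg_whp (ν : Measure (ℕ × ℕ)) (hν : Assump ν) (hd : ¬ Nondeg ν) (ε : ℝ) (hε : 0 < ε) :
    ∃ c C : ℝ, 0 < c ∧ 0 < C ∧ ∃ n0 : ℕ, ∀ n ≥ n0,
      (seqLaw ν n).real {d | ¬ DegSeq c C n d} ≤ ε := by
  classical
  obtain ⟨K2, hK2, n2, h2⟩ := ev_markov ν hν (fun x => (x.1 : ℝ) ^ 2) (fun x => by positivity)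
    hν.i20 (ε / 3) (by positivity)
  obtain ⟨K3, hK3, n3, h3⟩ := ev_markov ν hν (fun x => (x.2 : ℝ) ^ 2) (fun x => by positivity)
    hν.i02 (ε / 3) (by positivity)
  obtain ⟨B5, hB5⟩ : ∃ B : Set (ℕ × ℕ), B = {x | 1 ≤ x.2} := ⟨_, rfl⟩
  have hm5 : ∀ x, x ∈ B5 → 1 ≤ x.2 := fun x hx => by rw [hB5] at hx; exact hx
  obtain ⟨c5, hc5, h5⟩ := ev_count ν hν B5 (by rw [hB5]; exact pos_of_aper ν hν)
  obtain ⟨n5, h5⟩ := h5 (ε / 3) (by positivity)
  obtain ⟨n0, h0⟩ := seqLaw_prob ν hν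
  obtain ⟨B, hB0, hB⟩ : ∃ B : Set (ℕ × ℕ), ν B = 0 ∧
      ((∀ x, x ∉ B → 1 ≤ x.1 → x.2 = 1) ∨ (∀ x, x ∉ B → 1 ≤ x.2 → x.1 = 1)) := by
    rcases deg_cases ν hν hd with h | h
    · refine ⟨_, h, Or.inl fun x hx h1 => ?_⟩
      by_contra h2
      exact hx ⟨h1, h2⟩
    · refine ⟨_, h, Or.inr fun x hx h1 => ?_⟩
      by_contra h2
      exact hx ⟨h1, h2⟩
  refine ⟨c5, max K2 K3, hc5, by positivity, n0 + n2 + n3 + n5, fun n hn => ?_⟩
  have := h0 n (by omega)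
  have h2 := h2 n (by omega)
  have h3 := h3 n (by omega)
  have h5 := h5 n (by omega)
  have h7 := seqLaw_balanced ν hν n
  have h8 := ev_ae ν hν B hB0 n
  set C := max K2 K3 with hC
  have hC2 : K2 ≤ C := le_max_left _ _
  have hC3 : K3 ≤ C := le_max_right _ _
  have hn0 : (0 : ℝ) ≤ n := Nat.cast_nonneg n
  have hsub : {d : Fin n → ℕ × ℕ | ¬ DegSeq c5 C n d} ⊆
      (((((balanced n)ᶜ ∪ {d | ∃ i, d i ∈ B}) ∪
        {d | K2 * n < ∑ i, ((d i).1 : ℝ) ^ 2}) ∪ {d | K3 * n < ∑ i, ((d i).2 : ℝ) ^ 2}) ∪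
        {d | ((Finset.univ.filter fun i => d i ∈ B5).card : ℝ) < c5 * n}) := by
    intro d hdn
    by_contra hcon
    apply hdn
    simp only [Set.mem_union, Set.mem_ofPred_eq, not_or, not_lt, Set.mem_compl_iff, not_not,
      not_exists] at hcon
    obtain ⟨⟨⟨⟨e0, e1⟩, e2⟩, e3⟩, e5⟩ := hcon
    have e0' : ∑ i, (d i).1 = ∑ i, (d i).2 := e0
    have hlow := low_of_count d B5 hm5
    refine ⟨?_, ?_, ?_, ?_, ?_⟩
    · rw [card_OutH, card_InH, e0']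
    · rcases hB with hB | hB
      · exact Or.inl fun v hv => hB _ (e1 v) hv
      · exact Or.inr fun v hv => hB _ (e1 v) hv
    · exact e5.trans (Nat.cast_le.2 hlow)
    · refine le_trans (le_of_eq ?_) (e3.trans (mul_le_mul_of_nonneg_right hC3 hn0))
      exact Finset.sum_congr rfl fun v _ => by rw [deg_srcD]
    · refine le_trans (le_of_eq ?_) (e2.trans (mul_le_mul_of_nonneg_right hC2 hn0))
      exact Finset.sum_congr rfl fun v _ => by rw [deg_tgtD]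
  have u1 := measureReal_mono (μ := seqLaw ν n) hsub
  refine u1.trans ?_
  refine (measureReal_union_le _ _).trans ?_
  refine (add_le_add_left (measureReal_union_le _ _) _).trans ?_
  refine (add_le_add_left (add_le_add_left (measureReal_union_le _ _) _) _).trans ?_
  refine (add_le_add_left (add_le_add_left (add_le_add_left
    (measureReal_union_le _ _) _) _) _).trans ?_
  rw [h7, h8]
  linarith

end H95.DCM
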