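import Pool.Agent.H95.DCM.LLT

/-!
# Job DCM-12: events depending on part of the coordinates only

Proof. Split `Fin n → ℕ × ℕ` into the coordinates in `p` and the others
(`MeasureTheory.measurePreserving_piEquivPiSubtypeProd`). The event
`{d | d|_p ∈ A} ∩ balanced n` is `{(a, b) | a ∈ A, ∑ dif b = - ∑ dif a}`, of measure
`≤ (pi ν) A * sup_x P(∑_{¬p} dif = x) ≤ (pi ν) A * C / √(n/3)` by `llt_upper`; divide by
`P(balanced n) ≥ c / √n` (`llt_lower`).
-/

open MeasureTheory

namespace H95.DCM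

theorem balanced_eq (n : ℕ) : balanced n = {d | ∑ i, dif (d i) = 0} := by
  ext d
  simp only [balanced, Set.mem_setOf_eq, dif, Finset.sum_sub_distrib]
  rw [sub_eq_zero]
  exact_mod_cast Iff.rfl

theorem seqLaw_real (ν : Measure (ℕ × ℕ)) (n : ℕ) (T : Set (Fin n → ℕ × ℕ)) :
    (seqLaw ν n).real T = ((Measure.pi fun _ : Fin n => ν).real (balanced n))⁻¹ *
      (Measure.pi fun _ : Fin n => ν).real (balanced n ∩ T) := by
  rw [seqLaw, Measure.real, ProbabilityTheory.cond_apply (MeasurableSet.of_discrete),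
    ENNReal.toReal_mul, ENNReal.toReal_inv]
  rfl

/-- The probability of `{d|_p ∈ A} ∩ balanced n`. -/
theorem halves_aux (ν : Measure (ℕ × ℕ)) [IsProbabilityMeasure ν] (n : ℕ) (p : Fin n → Prop)
    [DecidablePred p] (B : ℝ) (hB : 0 ≤ B)
    (hb : ∀ x : ℤ, (Measure.pi fun _ : {i // ¬ p i} => ν).real {d | ∑ i, dif (d i) = x} ≤ B)
    (A : Set ({i // p i} → ℕ × ℕ)) :
    (Measure.pi fun _ : Fin n => ν).real (balanced n ∩ {d | (fun i : {i // p i} => d i) ∈ A}) ≤
      B * (Measure.pi fun _ : {i // p i} => ν).real A := by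
  have hmp := measurePreserving_piEquivPiSubtypeProd (fun _ : Fin n => ν) p
  set S : Set (({i // p i} → ℕ × ℕ) × ({i // ¬ p i} → ℕ × ℕ)) :=
    {ab | ab.1 ∈ A ∧ ∑ i, dif (ab.2 i) = - ∑ i, dif (ab.1 i)} with hS
  have hpre : balanced n ∩ {d | (fun i : {i // p i} => d i) ∈ A} =
      (MeasurableEquiv.piEquivPiSubtypeProd (fun _ : Fin n => ℕ × ℕ) p) ⁻¹' S := by
    ext d
    have hsum : ∑ i, dif (d i) = ∑ i : {i // p i}, dif (d i) + ∑ i : {i // ¬ p i}, dif (d i) :=
      (Fintype.sum_subtype_add_sum_subtype p fun i => dif (d i)).symm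
    rw [balanced_eq]
    simp only [Set.mem_inter_iff, Set.mem_setOf_eq, Set.mem_preimage, hS]
    constructor
    · rintro ⟨h1, h2⟩
      refine ⟨h2, ?_⟩
      change ∑ i : {i // ¬ p i}, dif (d i) = - ∑ i : {i // p i}, dif (d i)
      linarith
    · rintro ⟨h1, h2⟩
      refine ⟨?_, h1⟩
      change ∑ i : {i // ¬ p i}, dif (d i) = - ∑ i : {i // p i}, dif (d i) at h2
      linarith
  have hSm : MeasurableSet S := MeasurableSet.of_discrete
  have h1 : (Measure.pi fun _ : Fin n => ν)
      (balanced n ∩ {d | (fun i : {i // p i} => d i) ∈ A}) =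
      ((Measure.pi fun _ : {i // p i} => ν).prod (Measure.pi fun _ : {i // ¬ p i} => ν)) S := by
    rw [hpre]
    exact hmp.measure_preimage hSm.nullMeasurableSet
  have h2 : ((Measure.pi fun _ : {i // p i} => ν).prod (Measure.pi fun _ : {i // ¬ p i} => ν)) S ≤
      ENNReal.ofReal B * (Measure.pi fun _ : {i // p i} => ν) A := by
    rw [Measure.prod_apply hSm]
    calc ∫⁻ a, (Measure.pi fun _ : {i // ¬ p i} => ν) (Prod.mk a ⁻¹' S)
          ∂(Measure.pi fun _ : {i // p i} => ν)
        ≤ ∫⁻ a, A.indicator (fun _ => ENNReal.ofReal B) a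
          ∂(Measure.pi fun _ : {i // p i} => ν) := by
          apply lintegral_mono
          intro a
          by_cases ha : a ∈ A
          · simp only [Set.indicator_of_mem ha]
            have h3 : Prod.mk a ⁻¹' S ⊆ {d | ∑ i, dif (d i) = - ∑ i, dif (a i)} := by
              intro b hb'
              exact hb'.2
            refine (measure_mono h3).trans ?_
            rw [← ENNReal.ofReal_toReal (measure_ne_top _ _)]
            exact ENNReal.ofReal_le_ofReal (hb _)
          · simp only [Set.indicator_of_notMem ha]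
            have h3 : Prod.mk a ⁻¹' S = ∅ := by
              ext b
              simp only [Set.mem_preimage, Set.mem_empty_iff_false, iff_false, hS,
                Set.mem_setOf_eq, not_and]
              intro h
              exact absurd h ha
            rw [h3, measure_empty]
      _ = ENNReal.ofReal B * (Measure.pi fun _ : {i // p i} => ν) A := by
          rw [lintegral_indicator (MeasurableSet.of_discrete), setLIntegral_const]
  rw [Measure.real, h1]
  have h4 := ENNReal.toReal_mono (ENNReal.mul_ne_top ENNReal.ofReal_ne_top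
    (measure_ne_top _ _)) h2
  rw [ENNReal.toReal_mul, ENNReal.toReal_ofReal hB] at h4
  exact h4

theorem halves (ν : Measure (ℕ × ℕ)) (hν : Assump ν) :
    ∃ K : ℝ, 0 < K ∧ ∃ n0 : ℕ, ∀ n ≥ n0, ∀ (p : Fin n → Prop) [DecidablePred p],
      (n : ℝ) ≤ 3 * ((Finset.univ.filter fun i => ¬ p i).card : ℝ) →
      ∀ A : Set ({i // p i} → ℕ × ℕ),
        (seqLaw ν n).real {d | (fun i : {i // p i} => d i) ∈ A} ≤
          K * (Measure.pi fun _ : {i // p i} => ν).real A := by
  haveI := hν.prob
  obtain ⟨C, hC, hup⟩ := llt_upper ν hν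
  obtain ⟨c, hc, n0, hlow⟩ := llt_lower ν hν
  refine ⟨2 * C / c, by positivity, max n0 1, ?_⟩
  intro n hn p _ hp A
  have hn0 : n0 ≤ n := le_trans (le_max_left _ _) hn
  have hn1 : 1 ≤ n := le_trans (le_max_right _ _) hn
  have hnR : (1 : ℝ) ≤ (n : ℝ) := by exact_mod_cast hn1
  have hsq : 0 < √(n : ℝ) := Real.sqrt_pos.2 (by linarith)
  set k := (Finset.univ.filter fun i => ¬ p i).card with hk
  have hcard : Fintype.card {i // ¬ p i} = k := Fintype.card_subtype _
  have hk0 : (0 : ℝ) < (k : ℝ) := by linarith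
  haveI : Nonempty {i // ¬ p i} := by
    rw [← Fintype.card_pos_iff, hcard]
    exact_mod_cast hk0
  have hsk : √(n : ℝ) ≤ 2 * √(k : ℝ) := by
    have h1 : √(n : ℝ) ≤ √(4 * (k : ℝ)) := Real.sqrt_le_sqrt (by linarith)
    have h2 : √(4 * (k : ℝ)) = 2 * √(k : ℝ) := by
      rw [Real.sqrt_mul (by norm_num), show (4 : ℝ) = 2 ^ 2 by norm_num,
        Real.sqrt_sq (by norm_num)]
    linarith
  have hskp : 0 < √(k : ℝ) := Real.sqrt_pos.2 hk0
  have hb : ∀ x : ℤ, (Measure.pi fun _ : {i // ¬ p i} => ν).real {d | ∑ i, dif (d i) = x} ≤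
      2 * C / √(n : ℝ) := by
    intro x
    have h1 := hup {i // ¬ p i} x
    rw [hcard] at h1
    refine h1.trans ?_
    rw [div_le_div_iff₀ hskp hsq]
    nlinarith
  have h1 := halves_aux ν n p (2 * C / √(n : ℝ)) (by positivity) hb A
  have h2 := hlow n hn0
  have h3 : 0 < c / √(n : ℝ) := by positivity
  have h4 : 0 < (Measure.pi fun _ : Fin n => ν).real (balanced n) := lt_of_lt_of_le h3 h2
  rw [seqLaw_real]
  have hA0 : 0 ≤ (Measure.pi fun _ : {i // p i} => ν).real A := measureReal_nonneg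
  calc ((Measure.pi fun _ : Fin n => ν).real (balanced n))⁻¹ *
        (Measure.pi fun _ : Fin n => ν).real
          (balanced n ∩ {d | (fun i : {i // p i} => d i) ∈ A})
      ≤ (c / √(n : ℝ))⁻¹ * (2 * C / √(n : ℝ) * (Measure.pi fun _ : {i // p i} => ν).real A) := by
        apply mul_le_mul _ h1 measureReal_nonneg (by positivity)
        exact inv_anti₀ h3 h2
    _ = 2 * C / c * (Measure.pi fun _ : {i // p i} => ν).real A := by
        field_simp

/-- For large `n` the conditioning makes sense. -/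
theorem seqLaw_prob (ν : Measure (ℕ × ℕ)) (hν : Assump ν) :
    ∃ n0 : ℕ, ∀ n ≥ n0, IsProbabilityMeasure (seqLaw ν n) := by
  haveI := hν.prob
  obtain ⟨c, hc, n0, hlow⟩ := llt_lower ν hν
  refine ⟨max n0 1, ?_⟩
  intro n hn
  have hn0 : n0 ≤ n := le_trans (le_max_left _ _) hn
  have hn1 : 1 ≤ n := le_trans (le_max_right _ _) hn
  have hnR : (1 : ℝ) ≤ (n : ℝ) := by exact_mod_cast hn1
  have hsq : 0 < √(n : ℝ) := Real.sqrt_pos.2 (by linarith)
  have h4 : 0 < (Measure.pi fun _ : Fin n => ν).real (balanced n) :=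
    lt_of_lt_of_le (by positivity) (hlow n hn0)
  apply ProbabilityTheory.cond_isProbabilityMeasure
  intro h0
  rw [Measure.real, h0] at h4
  simp at h4

theorem seqLaw_balanced (ν : Measure (ℕ × ℕ)) (hν : Assump ν) (n : ℕ) :
    (seqLaw ν n).real (balanced n)ᶜ = 0 := by
  haveI := hν.prob
  rw [seqLaw_real, Set.inter_compl_self]
  simp

end H95.DCM
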