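import Pool.Agent.H95.DCM.Lop

/-!
# Job DCM-7: lopsided local lemma for uniform pairings

Write `prob M = (m - |M|)! / m!` (`= #(ext M) / m!`). Claim (induction on `#S`): for `S ⊆ B`,
`M ∈ B`, `M ∉ S`: `#(ext M ∩ avoid S) ≤ 2 prob M * #(avoid S)`. Let `S₂` be the members of `S`
compatible with `M` and `S₁` the others. `#(ext M ∩ avoid S) ≤ #(ext M ∩ avoid S₂) ≤ prob M *
#(avoid S₂)` by `neg_dep`, and `#(avoid S) ≥ #(avoid S₂) - ∑_{N ∈ S₁} #(ext N ∩ avoid S₂) ≥
#(avoid S₂) (1 - 2 ∑_{N ∈ S₁} prob N) ≥ #(avoid S₂) / 2` by induction if `S₁ ≠ ∅` (if `S₁ = ∅` then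
`S = S₂`). The result follows by adding the members of `B` one at a time:
`#(avoid (insert M S)) = #(avoid S) - #(ext M ∩ avoid S)`.
-/

open Finset

namespace H95.DCM

variable {O I : Type*} [Fintype O] [DecidableEq O] [Fintype I] [DecidableEq I]

/-- Probability that a uniform pairing contains `M`. -/
noncomputable def prob (M : Finset (O × I)) : ℝ :=
  ((Fintype.card O - M.card).factorial : ℝ) / ((Fintype.card O).factorial : ℝ)

theorem prob_nonneg (M : Finset (O × I)) : 0 ≤ prob M := by
  unfold prob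
  positivity

theorem neg_dep' (hOI : Fintype.card O = Fintype.card I) (M : Finset (O × I)) (hM : IsPM M)
    (S : Finset (Finset (O × I))) (hS : ∀ N ∈ S, IsPM (M ∪ N)) :
    ((ext M ∩ avoid S).card : ℝ) ≤ prob M * ((avoid S).card : ℝ) := by
  have h1 := neg_dep hOI M hM S hS
  have h2 : (0 : ℝ) < ((Fintype.card O).factorial : ℝ) := by positivity
  unfold prob
  rw [div_mul_eq_mul_div, le_div_iff₀ h2]
  exact h1

theorem avoid_card_insert (M : Finset (O × I)) (S : Finset (Finset (O × I))) :
    (avoid (insert M S)).card + (ext M ∩ avoid S).card = (avoid S).card := by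
  classical
  have h1 : avoid (insert M S) = avoid S \ ext M := by
    ext π
    rw [mem_sdiff, mem_avoid, mem_avoid, mem_ext]
    constructor
    · intro h
      refine ⟨fun N hN => h N (mem_insert_of_mem hN), fun h' => ?_⟩
      obtain ⟨p, hp, hp2⟩ := h M (mem_insert_self _ _)
      exact hp2 (h' p hp)
    · rintro ⟨h, h'⟩ N hN
      rw [mem_insert] at hN
      rcases hN with rfl | hN
      · by_contra hcon
        push Not at hcon
        exact h' hcon
      · exact h N hN
  rw [h1, Finset.inter_comm, Finset.card_sdiff_add_card_inter]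

theorem avoid_card_le {S S₂ : Finset (Finset (O × I))} {S₁ : Finset (Finset (O × I))}
    (h : ∀ N ∈ S, N ∈ S₁ ∨ N ∈ S₂) :
    (avoid S₂).card ≤ (avoid S).card + ∑ N ∈ S₁, (ext N ∩ avoid S₂).card := by
  classical
  have h1 : avoid S₂ ⊆ avoid S ∪ S₁.biUnion (fun N => ext N ∩ avoid S₂) := by
    intro π hπ
    by_cases hc : π ∈ avoid S
    · exact mem_union_left _ hc
    · refine mem_union_right _ ?_
      rw [mem_avoid] at hc
      push Not at hc
      obtain ⟨N, hN, hN2⟩ := hc
      rw [mem_biUnion]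
      rcases h N hN with h1 | h2
      · exact ⟨N, h1, mem_inter.2 ⟨mem_ext.2 hN2, hπ⟩⟩
      · obtain ⟨p, hp, hp2⟩ := mem_avoid.1 hπ N h2
        exact absurd (hN2 p hp) hp2
  calc (avoid S₂).card ≤ _ := Finset.card_le_card h1
    _ ≤ _ := Finset.card_union_le _ _
    _ ≤ _ := Nat.add_le_add_left Finset.card_biUnion_le _

open Classical in
theorem lll_claim (hOI : Fintype.card O = Fintype.card I) (B : Finset (Finset (O × I)))
    (hB : ∀ M ∈ B, IsPM M)
    (hsum : ∀ M ∈ B, ∑ N ∈ B.filter (fun N => ¬ IsPM (M ∪ N)), prob N ≤ 1 / 4) :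
    ∀ (n : ℕ) (S : Finset (Finset (O × I))), S.card = n → S ⊆ B → ∀ M ∈ B,
      ((ext M ∩ avoid S).card : ℝ) ≤ 2 * prob M * ((avoid S).card : ℝ) := by
  intro n
  induction n using Nat.strong_induction_on with
  | _ n ih =>
    intro S hn hSB M hM
    have hM0 : IsPM M := hB M hM
    have hp := prob_nonneg M
    set S₂ := S.filter (fun N => IsPM (M ∪ N)) with hS₂
    set S₁ := S.filter (fun N => ¬ IsPM (M ∪ N)) with hS₁
    have h1 : ((ext M ∩ avoid S₂).card : ℝ) ≤ prob M * ((avoid S₂).card : ℝ) :=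
      neg_dep' hOI M hM0 S₂ fun N hN => (mem_filter.1 hN).2
    have h2 : ((ext M ∩ avoid S).card : ℝ) ≤ ((ext M ∩ avoid S₂).card : ℝ) := by
      exact_mod_cast Finset.card_le_card
        (Finset.inter_subset_inter (Finset.Subset.refl _) (avoid_anti (Finset.filter_subset _ _)))
    by_cases hne : S₁ = ∅
    · have h3 : S₂ = S := by
        have := Finset.filter_eq_empty_iff.1 hne
        refine Finset.filter_true_of_mem fun N hN => ?_
        exact not_not.1 (this hN)
      rw [h3] at h1 h2
      have : (0 : ℝ) ≤ ((avoid S).card : ℝ) := Nat.cast_nonneg _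
      nlinarith [mul_nonneg hp this]
    · have hlt : S₂.card < n := by
        rw [← hn]
        refine Finset.card_lt_card ((Finset.filter_subset _ _).ssubset_of_ne fun heq => hne ?_)
        refine Finset.filter_false_of_mem fun N hN => ?_
        rw [not_not]
        rw [← heq] at hN
        exact (mem_filter.1 hN).2
      have h3 : ((avoid S₂).card : ℝ) ≤ ((avoid S).card : ℝ) +
          ∑ N ∈ S₁, ((ext N ∩ avoid S₂).card : ℝ) := by
        have := avoid_card_le (S := S) (S₂ := S₂) (S₁ := S₁) (fun N hN => by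
          by_cases hc : IsPM (M ∪ N)
          · exact Or.inr (mem_filter.2 ⟨hN, hc⟩)
          · exact Or.inl (mem_filter.2 ⟨hN, hc⟩))
        exact_mod_cast this
      have h4 : ∑ N ∈ S₁, ((ext N ∩ avoid S₂).card : ℝ) ≤
          ∑ N ∈ S₁, 2 * prob N * ((avoid S₂).card : ℝ) := by
        refine Finset.sum_le_sum fun N hN => ?_
        exact ih S₂.card hlt S₂ rfl ((Finset.filter_subset _ _).trans hSB) N
          (hSB (mem_filter.1 hN).1)
      have h5 : ∑ N ∈ S₁, prob N ≤ 1 / 4 := by
        refine le_trans (Finset.sum_le_sum_of_subset_of_nonneg ?_ fun N _ _ => prob_nonneg N)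
          (hsum M hM)
        exact Finset.filter_subset_filter _ hSB
      rw [← Finset.sum_mul, ← Finset.mul_sum] at h4
      have h6 : (0 : ℝ) ≤ ((avoid S₂).card : ℝ) := Nat.cast_nonneg _
      have h7 : 2 * (∑ N ∈ S₁, prob N) * ((avoid S₂).card : ℝ) ≤
          1 / 2 * ((avoid S₂).card : ℝ) := mul_le_mul_of_nonneg_right (by linarith) h6
      have h8 : ((avoid S₂).card : ℝ) ≤ 2 * ((avoid S).card : ℝ) := by linarith
      calc ((ext M ∩ avoid S).card : ℝ) ≤ prob M * ((avoid S₂).card : ℝ) := h2.trans h1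
        _ ≤ prob M * (2 * ((avoid S).card : ℝ)) := mul_le_mul_of_nonneg_left h8 hp
        _ = _ := by ring

open Classical in
theorem lll (hOI : Fintype.card O = Fintype.card I) (B : Finset (Finset (O × I)))
    (hB : ∀ M ∈ B, IsPM M) (hB4 : ∀ M ∈ B, prob M ≤ 1 / 4)
    (hsum : ∀ M ∈ B, ∑ N ∈ B.filter (fun N => ¬ IsPM (M ∪ N)), prob N ≤ 1 / 4) :
    (∏ M ∈ B, (1 - 2 * prob M)) * ((Fintype.card O).factorial : ℝ) ≤ ((avoid B).card : ℝ) := by
  have key : ∀ S : Finset (Finset (O × I)), S ⊆ B →
      (∏ M ∈ S, (1 - 2 * prob M)) * ((Fintype.card O).factorial : ℝ) ≤ ((avoid S).card : ℝ) := by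
    intro S
    induction S using Finset.induction_on with
    | empty =>
      intro _
      have h1 : avoid (∅ : Finset (Finset (O × I))) = univ := by
        ext π
        simp [mem_avoid]
      rw [h1, Finset.card_univ, Fintype.card_equiv (Fintype.equivOfCardEq hOI)]
      simp
    | @insert M S hMS ih =>
      intro hsub
      have hSB : S ⊆ B := (Finset.subset_insert _ _).trans hsub
      have hMB : M ∈ B := hsub (mem_insert_self _ _)
      have h1 := lll_claim hOI B hB hsum S.card S rfl hSB M hMB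
      have h2 : ((avoid (insert M S)).card : ℝ) + ((ext M ∩ avoid S).card : ℝ) =
          ((avoid S).card : ℝ) := by exact_mod_cast avoid_card_insert M S
      have h3 := ih hSB
      rw [Finset.prod_insert hMS]
      have h4 : 0 ≤ 1 - 2 * prob M := by
        have := hB4 M hMB
        linarith
      have h5 := mul_le_mul_of_nonneg_left h3 h4
      rw [← mul_assoc] at h5
      linarith
  exact key B (Finset.Subset.refl _)

end H95.DCM
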