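import Pool.Agent.H95.DCM.Fourier

/-!
# Job DCM-11: local limit bounds

* `llt_upper`: `inversion`, `phi_bound` and the Gaussian integral.
* `llt_lower`: by `inversion` with `x = 0` and the substitution `t = s / √n`,
  `√n P(S_n = 0) = (2π)⁻¹ ∫_{|s| ≤ π √n} φ(s/√n)^n ds → (2π)⁻¹ ∫ exp (-σ² s² / 2) ds > 0` by
  dominated convergence (`|φ(s/√n)|^n ≤ exp (-c s²)`), pointwise limit from
  `ProbabilityTheory.tendsto_charFun_inv_sqrt_mul_pow` applied to `X = dif / σ`, where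
  `σ² = ∫ dif² > 0` (otherwise `dif = 0` a.s., contradicting `aper`), mean zero by `hν.mean`.
-/

open MeasureTheory Filter Topology

namespace H95.DCM

/-- `D⁻ - D⁺` as a real number -/
noncomputable def difR (x : ℕ × ℕ) : ℝ := (dif x : ℝ)

lemma difR_eq (x : ℕ × ℕ) : difR x = (x.1 : ℝ) - (x.2 : ℝ) := by
  unfold difR dif
  push_cast
  rfl

lemma measurable_difR : Measurable difR := Measurable.of_discrete

lemma phi_eq_charFun (ν : Measure (ℕ × ℕ)) (t : ℝ) : phi ν t = charFun (ν.map difR) t := by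
  rw [charFun_apply_real, integral_map measurable_difR.aemeasurable]
  · rfl
  · exact Measurable.aestronglyMeasurable (by fun_prop)

lemma measurable_phi (ν : Measure (ℕ × ℕ)) [IsProbabilityMeasure ν] : Measurable (phi ν) := by
  have h : phi ν = charFun (ν.map difR) := funext fun t => phi_eq_charFun ν t
  rw [h]
  exact measurable_charFun

lemma gauss_le {b : ℝ} (hb : 0 < b) :
    ∫ t in (-Real.pi)..Real.pi, Real.exp (-b * t ^ 2) ≤ √(Real.pi / b) := by
  rw [intervalIntegral.integral_of_le (by linarith [Real.pi_pos]), ← integral_gaussian b]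
  exact setIntegral_le_integral (integrable_exp_neg_mul_sq hb)
    (Eventually.of_forall fun x => (Real.exp_pos _).le)

lemma norm_phi_pow_le {ν : Measure (ℕ × ℕ)} {c : ℝ}
    (hφ : ∀ t : ℝ, |t| ≤ Real.pi → ‖phi ν t‖ ≤ Real.exp (-c * t ^ 2)) (n : ℕ) (t : ℝ)
    (ht : |t| ≤ Real.pi) : ‖phi ν t ^ n‖ ≤ Real.exp (-(c * n) * t ^ 2) := by
  rw [norm_pow]
  calc ‖phi ν t‖ ^ n ≤ (Real.exp (-c * t ^ 2)) ^ n :=
        pow_le_pow_left₀ (norm_nonneg _) (hφ t ht) n
    _ = Real.exp (-(c * n) * t ^ 2) := by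
        rw [← Real.exp_nat_mul]
        congr 1
        ring

theorem llt_upper (ν : Measure (ℕ × ℕ)) (hν : Assump ν) :
    ∃ C : ℝ, 0 < C ∧ ∀ (ι : Type) [Fintype ι] [Nonempty ι] (x : ℤ),
      (Measure.pi fun _ : ι => ν).real {d | ∑ i, dif (d i) = x} ≤ C / √(Fintype.card ι : ℝ) := by
  haveI := hν.prob
  obtain ⟨c, hc, hφ⟩ := phi_bound ν hν.aper
  have hpi := Real.pi_pos
  refine ⟨1 / (2 * Real.pi) * √(Real.pi / c), by positivity, fun ι _ _ x => ?_⟩
  have hn : (0 : ℝ) < (Fintype.card ι : ℝ) := by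
    exact_mod_cast Fintype.card_pos
  have hcn : 0 < c * (Fintype.card ι : ℝ) := mul_pos hc hn
  have hinv := inversion ν ι x
  have h1 : ‖(((Measure.pi fun _ : ι => ν).real {d | ∑ i, dif (d i) = x} : ℝ) : ℂ)‖ =
      (Measure.pi fun _ : ι => ν).real {d | ∑ i, dif (d i) = x} := by
    rw [Complex.norm_real, Real.norm_eq_abs, abs_of_nonneg measureReal_nonneg]
  have h2 : ‖∫ t in (-Real.pi)..Real.pi, Complex.exp (-((t : ℂ) * ((x : ℝ) : ℂ) * Complex.I)) *
      (phi ν t) ^ (Fintype.card ι)‖ ≤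
      ∫ t in (-Real.pi)..Real.pi, Real.exp (-(c * (Fintype.card ι : ℝ)) * t ^ 2) := by
    refine intervalIntegral.norm_integral_le_of_norm_le (by linarith)
      (Eventually.of_forall fun t ht => ?_) ?_
    · rw [norm_mul]
      have h3 : ‖Complex.exp (-((t : ℂ) * ((x : ℝ) : ℂ) * Complex.I))‖ = 1 := by
        have h4 : -((t : ℂ) * ((x : ℝ) : ℂ) * Complex.I) = ((-(t * (x : ℝ)) : ℝ) : ℂ) * Complex.I := by
          push_cast
          ring
        rw [h4, Complex.norm_exp_ofReal_mul_I]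
      rw [h3, one_mul]
      refine norm_phi_pow_le hφ _ t ?_
      rw [abs_le]
      exact ⟨ht.1.le, ht.2⟩
    · exact Continuous.intervalIntegrable (by fun_prop) _ _
  have h5 : ‖(1 / (2 * Real.pi) : ℂ)‖ = 1 / (2 * Real.pi) := by
    have h6 : (1 / (2 * Real.pi) : ℂ) = ((1 / (2 * Real.pi) : ℝ) : ℂ) := by push_cast; rfl
    rw [h6, Complex.norm_real, Real.norm_eq_abs, abs_of_nonneg (by positivity)]
  rw [← h1, hinv, norm_mul, h5, mul_div_assoc]
  refine mul_le_mul_of_nonneg_left ?_ (by positivity)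
  calc _ ≤ _ := h2
    _ ≤ √(Real.pi / (c * (Fintype.card ι : ℝ))) := gauss_le hcn
    _ = √(Real.pi / c) / √(Fintype.card ι : ℝ) := by
        rw [← div_div, Real.sqrt_div (by positivity)]

lemma integrable_sq (ν : Measure (ℕ × ℕ)) (hν : Assump ν) :
    Integrable (fun x => difR x ^ 2) ν := by
  have h20 := hν.mom 2 0 (by norm_num) (by norm_num)
  have h11 := hν.mom 1 1 (by norm_num) (by norm_num)
  have h02 := hν.mom 0 2 (by norm_num) (by norm_num)
  have h := (h20.sub (h11.const_mul 2)).add h02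
  refine h.congr (Eventually.of_forall fun x => ?_)
  show (x.1 : ℝ) ^ 2 * (x.2 : ℝ) ^ 0 - 2 * ((x.1 : ℝ) ^ 1 * (x.2 : ℝ) ^ 1) +
    (x.1 : ℝ) ^ 0 * (x.2 : ℝ) ^ 2 = difR x ^ 2
  rw [difR_eq]
  ring

lemma mean_zero (ν : Measure (ℕ × ℕ)) (hν : Assump ν) : ∫ x, difR x ∂ν = 0 := by
  have h10 := hν.mom 1 0 (by norm_num) (by norm_num)
  have h01 := hν.mom 0 1 (by norm_num) (by norm_num)
  simp only [pow_one, pow_zero, mul_one, one_mul] at h10 h01
  have h : ∫ x, difR x ∂ν = ∫ x, ((x.1 : ℝ) - (x.2 : ℝ)) ∂ν :=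
    integral_congr_ae (Eventually.of_forall fun x => difR_eq x)
  rw [h, integral_sub h10 h01, hν.mean, sub_self]

lemma sq_pos (ν : Measure (ℕ × ℕ)) (hν : Assump ν) : 0 < ∫ x, difR x ^ 2 ∂ν := by
  haveI := hν.prob
  have hnn : 0 ≤ᵐ[ν] fun x => difR x ^ 2 := Eventually.of_forall fun x => sq_nonneg _
  refine lt_of_le_of_ne (integral_nonneg fun x => sq_nonneg _) fun h0 => ?_
  have h1 := (integral_eq_zero_iff_of_nonneg_ae hnn (integrable_sq ν hν)).1 h0.symm
  refine hν.aper 2 (by norm_num) 0 ?_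
  have h2 : ∀ᵐ x ∂ν, x ∈ {x : ℕ × ℕ | ∃ z : ℤ, (x.1 : ℝ) - (x.2 : ℝ) = 0 + (2 : ℕ) * z} := by
    filter_upwards [h1] with x hx
    have h3 : difR x ^ 2 = 0 := hx
    have h4 : difR x = 0 := by simpa using h3
    rw [difR_eq] at h4
    exact ⟨0, by rw [h4]; simp⟩
  exact (mem_ae_iff_prob_eq_one₀ (MeasurableSet.of_discrete).nullMeasurableSet).1 h2

/-- pointwise convergence -/
lemma tendsto_phi_pow (ν : Measure (ℕ × ℕ)) (hν : Assump ν) (s : ℝ) :
    Tendsto (fun n : ℕ => (phi ν ((√(n : ℝ))⁻¹ * s)) ^ n) atTop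
      (𝓝 (((Real.exp (-((∫ x, difR x ^ 2 ∂ν) / 2) * s ^ 2) : ℝ) : ℂ))) := by
  haveI := hν.prob
  set V := ∫ x, difR x ^ 2 ∂ν with hV
  have hVpos : 0 < V := sq_pos ν hν
  have hσ : 0 < √V := Real.sqrt_pos.2 hVpos
  let X : ℕ × ℕ → ℝ := fun x => (√V)⁻¹ * difR x
  have hX : AEMeasurable X ν := (measurable_difR.const_mul _).aemeasurable
  have h0 : ∫ x, X x ∂ν = 0 := by
    show ∫ x, (√V)⁻¹ * difR x ∂ν = 0
    rw [integral_const_mul, mean_zero ν hν, mul_zero]
  have h1 : ∫ x, (X ^ 2) x ∂ν = 1 := by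
    have h2 : ∀ x, (X ^ 2) x = V⁻¹ * difR x ^ 2 := by
      intro x
      show ((√V)⁻¹ * difR x) ^ 2 = _
      rw [mul_pow, inv_pow, Real.sq_sqrt hVpos.le]
    rw [integral_congr_ae (Eventually.of_forall h2), integral_const_mul, ← hV,
      inv_mul_cancel₀ hVpos.ne']
  have h := ProbabilityTheory.tendsto_charFun_inv_sqrt_mul_pow hX h0 h1 (√V * s)
  have h3 : ∀ n : ℕ, charFun (ν.map X) ((√(n : ℝ))⁻¹ * (√V * s)) =
      phi ν ((√(n : ℝ))⁻¹ * s) := by
    intro n
    rw [charFun_apply_real, integral_map hX (Measurable.aestronglyMeasurable (by fun_prop))]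
    unfold phi
    refine integral_congr_ae (Eventually.of_forall fun x => ?_)
    show Complex.exp ((((√(n : ℝ))⁻¹ * (√V * s) : ℝ) : ℂ) * ((((√V)⁻¹ * difR x : ℝ)) : ℂ) *
      Complex.I) = Complex.exp ((((√(n : ℝ))⁻¹ * s : ℝ) : ℂ) * ((difR x : ℝ) : ℂ) * Complex.I)
    congr 1
    rw [← Complex.ofReal_mul, ← Complex.ofReal_mul]
    congr 2
    field_simp
  have h4 : Complex.exp (-((√V * s : ℝ) : ℂ) ^ 2 / 2) =
      ((Real.exp (-(V / 2) * s ^ 2) : ℝ) : ℂ) := by
    rw [Complex.ofReal_exp]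
    congr 1
    have h5 : (-((√V * s : ℝ) : ℂ) ^ 2 / 2) = ((-(√V * s) ^ 2 / 2 : ℝ) : ℂ) := by push_cast; rfl
    rw [h5]
    congr 1
    rw [mul_pow, Real.sq_sqrt hVpos.le]
    ring
  simp only [h3] at h
  rw [h4] at h
  exact h

theorem llt_lower (ν : Measure (ℕ × ℕ)) (hν : Assump ν) :
    ∃ c : ℝ, 0 < c ∧ ∃ n0 : ℕ, ∀ n ≥ n0,
      c / √(n : ℝ) ≤ (Measure.pi fun _ : Fin n => ν).real (balanced n) := by
  haveI := hν.prob
  obtain ⟨c, hc, hφ⟩ := phi_bound ν hν.aper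
  have hpi := Real.pi_pos
  set V := ∫ x, difR x ^ 2 ∂ν with hV
  have hVpos : 0 < V := sq_pos ν hν
  let F : ℕ → ℝ → ℂ := fun n => (Set.Ioc (-(√(n : ℝ) * Real.pi)) (√(n : ℝ) * Real.pi)).indicator
    (fun s => phi ν ((√(n : ℝ))⁻¹ * s) ^ n)
  have hF : Tendsto (fun n => ∫ s, F n s) atTop
      (𝓝 (∫ s, ((Real.exp (-(V / 2) * s ^ 2) : ℝ) : ℂ))) := by
    refine tendsto_integral_of_dominated_convergence (fun s => Real.exp (-c * s ^ 2)) ?_
      (integrable_exp_neg_mul_sq hc) ?_ ?_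
    · intro n
      refine (Measurable.indicator ?_ measurableSet_Ioc).aestronglyMeasurable
      exact ((measurable_phi ν).comp (measurable_const_mul _)).pow_const n
    · intro n
      refine Eventually.of_forall fun s => ?_
      by_cases hs : s ∈ Set.Ioc (-(√(n : ℝ) * Real.pi)) (√(n : ℝ) * Real.pi)
      · have h1 : F n s = phi ν ((√(n : ℝ))⁻¹ * s) ^ n := Set.indicator_of_mem hs _
        have hn : 0 < √(n : ℝ) := by
          by_contra hcon
          have h2 : √(n : ℝ) = 0 := le_antisymm (not_lt.1 hcon) (Real.sqrt_nonneg _)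
          rw [h2] at hs
          simp at hs
        have hn' : (0 : ℝ) < n := Real.sqrt_pos.1 hn
        rw [h1]
        have h2 := norm_phi_pow_le hφ n ((√(n : ℝ))⁻¹ * s) (by
          rw [abs_mul, abs_of_pos (inv_pos.2 hn), inv_mul_le_iff₀ hn, abs_le]
          exact ⟨hs.1.le, hs.2⟩)
        refine h2.trans_eq ?_
        congr 1
        rw [mul_pow, inv_pow, Real.sq_sqrt hn'.le]
        field_simp
      · have h1 : F n s = 0 := Set.indicator_of_notMem hs _
        rw [h1, norm_zero]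
        exact (Real.exp_pos _).le
    · refine Eventually.of_forall fun s => ?_
      refine (tendsto_phi_pow ν hν s).congr' ?_
      have h1 : Tendsto (fun n : ℕ => √(n : ℝ) * Real.pi) atTop atTop :=
        (Real.tendsto_sqrt_atTop.comp tendsto_natCast_atTop_atTop).atTop_mul_const hpi
      filter_upwards [h1.eventually_gt_atTop |s|] with n hn
      have h2 := abs_lt.1 hn
      have h3 : s ∈ Set.Ioc (-(√(n : ℝ) * Real.pi)) (√(n : ℝ) * Real.pi) := ⟨h2.1, h2.2.le⟩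
      exact (Set.indicator_of_mem h3 (fun s => phi ν ((√(n : ℝ))⁻¹ * s) ^ n)).symm
  have hP : ∀ n : ℕ, 1 ≤ n →
      ((√(n : ℝ) * (Measure.pi fun _ : Fin n => ν).real (balanced n) : ℝ) : ℂ) =
        (1 / (2 * Real.pi) : ℂ) * ∫ s, F n s := by
    intro n hn
    have hn' : 0 < √(n : ℝ) := Real.sqrt_pos.2 (by exact_mod_cast hn)
    have h1 : (balanced n : Set (Fin n → ℕ × ℕ)) = {d | ∑ i, dif (d i) = ((0 : ℤ) : ℤ)} := by
      ext d
      show (∑ i, (d i).1 = ∑ i, (d i).2) ↔ ∑ i, dif (d i) = 0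
      unfold dif
      rw [Finset.sum_sub_distrib, sub_eq_zero]
      constructor
      · intro h; exact_mod_cast h
      · intro h; exact_mod_cast h
    have h2 := inversion ν (Fin n) 0
    rw [← h1, Fintype.card_fin] at h2
    have h3 : ∀ t : ℝ, Complex.exp (-((t : ℂ) * (((0 : ℤ) : ℝ) : ℂ) * Complex.I)) *
        (phi ν t) ^ n = (phi ν t) ^ n := by
      intro t
      simp
    simp only [h3] at h2
    have h4 : ∫ s, F n s = ∫ s in (-(√(n : ℝ) * Real.pi))..(√(n : ℝ) * Real.pi),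
        phi ν ((√(n : ℝ))⁻¹ * s) ^ n := by
      rw [intervalIntegral.integral_of_le (by nlinarith [mul_pos hn' hpi]),
        ← integral_indicator measurableSet_Ioc]
    have h5 := intervalIntegral.integral_comp_mul_left (a := -(√(n : ℝ) * Real.pi))
      (b := √(n : ℝ) * Real.pi) (fun t => phi ν t ^ n) (inv_ne_zero hn'.ne')
    rw [h4, h5, inv_inv]
    have h6 : (√(n : ℝ))⁻¹ * (√(n : ℝ) * Real.pi) = Real.pi := by
      rw [inv_mul_cancel_left₀ hn'.ne']
    have h7 : (√(n : ℝ))⁻¹ * -(√(n : ℝ) * Real.pi) = -Real.pi := by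
      rw [mul_neg, h6]
    rw [h6, h7, Complex.ofReal_mul, h2, Complex.real_smul]
    ring
  have hL : Tendsto (fun n : ℕ => √(n : ℝ) * (Measure.pi fun _ : Fin n => ν).real (balanced n))
      atTop (𝓝 (1 / (2 * Real.pi) * √(Real.pi / (V / 2)))) := by
    have h1 : Tendsto (fun n : ℕ =>
        ((√(n : ℝ) * (Measure.pi fun _ : Fin n => ν).real (balanced n) : ℝ) : ℂ)) atTop
        (𝓝 ((1 / (2 * Real.pi) * √(Real.pi / (V / 2)) : ℝ) : ℂ)) := by
      have h2 := hF.const_mul (1 / (2 * Real.pi) : ℂ)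
      have h3 : (1 / (2 * Real.pi) : ℂ) * ∫ s, ((Real.exp (-(V / 2) * s ^ 2) : ℝ) : ℂ) =
          ((1 / (2 * Real.pi) * √(Real.pi / (V / 2)) : ℝ) : ℂ) := by
        rw [integral_complex_ofReal, integral_gaussian]
        push_cast
        rfl
      rw [h3] at h2
      refine h2.congr' ?_
      filter_upwards [eventually_ge_atTop 1] with n hn
      exact (hP n hn).symm
    exact tendsto_ofReal_iff'.1 h1
  have hLpos : 0 < 1 / (2 * Real.pi) * √(Real.pi / (V / 2)) := by positivity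
  refine ⟨(1 / (2 * Real.pi) * √(Real.pi / (V / 2))) / 2, by positivity, ?_⟩
  have h1 := (hL.eventually (lt_mem_nhds (half_lt_self hLpos))).and (eventually_ge_atTop 1)
  obtain ⟨n0, hn0⟩ := eventually_atTop.1 h1
  refine ⟨n0, fun n hn => ?_⟩
  obtain ⟨h2, h3⟩ := hn0 n hn
  have hn' : 0 < √(n : ℝ) := Real.sqrt_pos.2 (by exact_mod_cast h3)
  rw [div_le_iff₀ hn', mul_comm _ (√(n : ℝ))]
  exact h2.le

end H95.DCM
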