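import Pool.Agent.H95.DCM.Defs

/-!
# The random digraph of MP_269591_pr
-/

open Finset MeasureTheory

namespace H95.DCM

/-- The edge sets of the simple digraphs on `Fin n` (no loops; an edge set has no multiple edges)
in which `v` has in-degree `(d v).1` and out-degree `(d v).2`. -/
def simpleDigraphs (n : ℕ) (d : Fin n → ℕ × ℕ) : Finset (Finset (Fin n × Fin n)) :=
  univ.filter fun E => (∀ e ∈ E, e.1 ≠ e.2) ∧
    ∀ v, (E.filter fun e => e.2 = v).card = (d v).1 ∧ (E.filter fun e => e.1 = v).card = (d v).2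

open Classical in
/-- The probability, given the degree sequence `d`, that the uniformly random simple digraph with
these degrees has property `A`. (It is `0` if there is no such digraph.) -/
noncomputable def condProb (n : ℕ) (d : Fin n → ℕ × ℕ) (A : Set (Finset (Fin n × Fin n))) : ℝ :=
  (((simpleDigraphs n d).filter fun E => E ∈ A).card : ℝ) / ((simpleDigraphs n d).card : ℝ)

/-- The event that the sums of the in-degrees and of the out-degrees agree. -/
def balanced (n : ℕ) : Set (Fin n → ℕ × ℕ) := {d | ∑ i, (d i).1 = ∑ i, (d i).2}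

/-- The law of `n` i.i.d. degree pairs with law `ν`, conditioned on equality of the two sums. -/
noncomputable def seqLaw (ν : Measure (ℕ × ℕ)) (n : ℕ) : Measure (Fin n → ℕ × ℕ) :=
  ProbabilityTheory.cond (Measure.pi fun _ => ν) (balanced n)

/-- The probability that the random digraph `G_n(ν)` has property `A`. -/
noncomputable def graphProb (ν : Measure (ℕ × ℕ)) (n : ℕ) (A : Set (Finset (Fin n × Fin n))) : ℝ :=
  ∫ d, condProb n d A ∂(seqLaw ν n)

/-- The diameter of the digraph with edge set `E`. -/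
noncomputable def diamE {n : ℕ} (E : Finset (Fin n × Fin n)) : ℕ := diam fun u v => (u, v) ∈ E

/-- Assumptions 1-4 of the problem on the law `ν` of `(D⁻, D⁺)`. -/
structure Assump (ν : Measure (ℕ × ℕ)) : Prop where
  prob : IsProbabilityMeasure ν
  mom : ∀ i j : ℕ, 1 ≤ i + j → i + j ≤ 3 →
    Integrable (fun x : ℕ × ℕ => (x.1 : ℝ) ^ i * (x.2 : ℝ) ^ j) ν
  mom13 : Integrable (fun x : ℕ × ℕ => (x.1 : ℝ) * (x.2 : ℝ) ^ 3) ν
  mom31 : Integrable (fun x : ℕ × ℕ => (x.1 : ℝ) ^ 3 * (x.2 : ℝ)) ν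
  mean : ∫ x, (x.1 : ℝ) ∂ν = ∫ x, (x.2 : ℝ) ∂ν
  aper : ∀ p : ℕ, 1 < p → ∀ c : ℝ, ν {x | ∃ z : ℤ, (x.1 : ℝ) - (x.2 : ℝ) = c + p * z} ≠ 1
  crit : ∫ x, (x.1 : ℝ) * (x.2 : ℝ) ∂ν = ∫ x, (x.1 : ℝ) ∂ν

/-- Non-degeneracy: with positive probability `D⁻ ≥ 1` and `D⁺ ≥ 2`, and with positive
probability `D⁺ ≥ 1` and `D⁻ ≥ 2` (both explorations really branch). -/
def Nondeg (ν : Measure (ℕ × ℕ)) : Prop :=
  ν {x | 1 ≤ x.1 ∧ 2 ≤ x.2} ≠ 0 ∧ ν {x | 1 ≤ x.2 ∧ 2 ≤ x.1} ≠ 0

/-- Tightness of `n^{-1/3} Diam(G_n(ν))`. -/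
def TightDiam (ν : Measure (ℕ × ℕ)) : Prop :=
  ∀ ε > (0 : ℝ), ∃ C : ℝ, ∀ n : ℕ,
    graphProb ν n {E | C * (n : ℝ) ^ ((1 : ℝ) / 3) < (diamE E : ℝ)} ≤ ε

/-! ## The configuration model of a degree sequence -/

/-- Out-half-edges of the degree sequence `d`. -/
abbrev OutH {n : ℕ} (d : Fin n → ℕ × ℕ) : Type := Σ v : Fin n, Fin (d v).2

/-- In-half-edges of the degree sequence `d`. -/
abbrev InH {n : ℕ} (d : Fin n → ℕ × ℕ) : Type := Σ v : Fin n, Fin (d v).1

/-- owner of an out-half-edge -/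
abbrev srcD {n : ℕ} (d : Fin n → ℕ × ℕ) : OutH d → Fin n := Sigma.fst

/-- owner of an in-half-edge -/
abbrev tgtD {n : ℕ} (d : Fin n → ℕ × ℕ) : InH d → Fin n := Sigma.fst

/-- The edge set of the pairing. -/
def edges {n : ℕ} (d : Fin n → ℕ × ℕ) (π : OutH d ≃ InH d) : Finset (Fin n × Fin n) :=
  univ.image fun o => (srcD d o, tgtD d (π o))

end H95.DCM
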