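import Pool.Agent.H95.DCM.Ext

/-!
# Job DCM-6: negative dependence of uniform pairings (Lu-Szekely)

Proof. One pair: let `t` be a partial matching, `o`, `i` free, all `N ∈ S` compatible with
`t ∪ {(o,i)}` (i.e. the union is a partial matching) and `j` free. The map
`π ↦ swap (π o) j ∘ π` from `ext (insert (o,i) t)` to `ext (insert (o,j) t)` is injective and
maps `avoid S` into `avoid S`: if `N ⊆ π'`, the pair of `N` at `o` (if any) is `(o,i)` by
compatibility, so `(o,j) ∉ N` (unless `i = j`), and `(π⁻¹ j, i) ∉ N` as the pair of `N` at `i` is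
`(o,i)`; hence `N ⊆ π`. Sum over `j` (`sum_ext_split`): `(m - |t|) #(ext (insert (o,i) t) ∩ avoid S)
≤ #(ext t ∩ avoid S)`. Then induction on `M` (`Finset.induction_on`).
-/

open Finset

namespace H95.DCM

variable {O I : Type*} [Fintype O] [DecidableEq O] [Fintype I] [DecidableEq I]

/-- The pairings that contain no member of `S`. -/
def avoid (S : Finset (Finset (O × I))) : Finset (O ≃ I) :=
  univ.filter fun π => ∀ N ∈ S, ∃ p ∈ N, π p.1 ≠ p.2

theorem mem_avoid {S : Finset (Finset (O × I))} {π : O ≃ I} :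
    π ∈ avoid S ↔ ∀ N ∈ S, ∃ p ∈ N, π p.1 ≠ p.2 := by
  simp [avoid]

theorem mem_ext {s : Finset (O × I)} {π : O ≃ I} : π ∈ ext s ↔ ∀ p ∈ s, π p.1 = p.2 := by
  simp [ext]

theorem avoid_anti {S T : Finset (Finset (O × I))} (h : S ⊆ T) : avoid T ⊆ avoid S := by
  intro π hπ
  rw [mem_avoid] at hπ ⊢
  exact fun N hN => hπ N (h hN)

/-- Switching the partner of `o` from `i` to the free `j`. -/
theorem card_switch_le {t : Finset (O × I)} {o : O} {i j : I} (hoi : (o, i) ∉ t)
    (hM : IsPM (insert (o, i) t)) (hj : j ∈ freeI t)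
    (S : Finset (Finset (O × I))) (hS : ∀ N ∈ S, IsPM (insert (o, i) t ∪ N)) :
    (ext (insert (o, i) t) ∩ avoid S).card ≤ (ext (insert (o, j) t) ∩ avoid S).card := by
  have hjt : ∀ p ∈ t, p.2 ≠ j := by simpa [freeI] using hj
  have hit : ∀ p ∈ t, p.2 ≠ i := by
    intro p hp h
    have h1 := (hM p (mem_insert_of_mem hp) (o, i) (mem_insert_self _ _)).2 h
    have h2 : p = (o, i) := Prod.ext h1 h
    exact hoi (h2 ▸ hp)
  refine Finset.card_le_card_of_injOn (fun π => π.trans (Equiv.swap i j)) ?_ ?_
  · intro π hπ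
    rw [Finset.mem_coe, mem_inter, mem_ext, mem_avoid] at hπ
    obtain ⟨h1, h2⟩ := hπ
    have hπo : π o = i := h1 (o, i) (mem_insert_self _ _)
    rw [Finset.mem_coe, mem_inter, mem_ext, mem_avoid]
    refine ⟨?_, ?_⟩
    · intro p hp
      rw [mem_insert] at hp
      rcases hp with rfl | hp
      · show Equiv.swap i j (π o) = j
        rw [hπo, Equiv.swap_apply_left]
      · show Equiv.swap i j (π p.1) = p.2
        rw [h1 p (mem_insert_of_mem hp)]
        exact Equiv.swap_apply_of_ne_of_ne (hit p hp) (hjt p hp)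
    · intro N hN
      by_contra hcon
      push Not at hcon
      obtain ⟨q, hq, hq2⟩ := h2 N hN
      apply hq2
      have hq3 : Equiv.swap i j (π q.1) = q.2 := hcon q hq
      have hPM := hS N hN q (mem_union_right _ hq) (o, i) (mem_union_left _ (mem_insert_self _ _))
      by_cases hqi : q.2 = i
      · rw [hPM.2 hqi, hπo, hqi]
      · have h5 : π q.1 = Equiv.swap i j q.2 := by rw [← hq3, Equiv.swap_apply_self]
        by_cases hqj : q.2 = j
        · rw [hqj, Equiv.swap_apply_right, ← hπo] at h5
          exact absurd (hPM.1 (π.injective h5)) hqi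
        · rw [h5]
          exact Equiv.swap_apply_of_ne_of_ne hqi hqj
  · intro π _ π' _ h
    refine Equiv.ext fun x => ?_
    have h1 := congrArg (fun e : O ≃ I => e x) h
    exact (Equiv.swap i j).injective h1

theorem card_step (hOI : Fintype.card O = Fintype.card I) {t : Finset (O × I)} {o : O} {i : I}
    (hoi : (o, i) ∉ t) (hM : IsPM (insert (o, i) t))
    (S : Finset (Finset (O × I))) (hS : ∀ N ∈ S, IsPM (insert (o, i) t ∪ N)) :
    (((Fintype.card O - t.card : ℕ) : ℝ)) * ((ext (insert (o, i) t) ∩ avoid S).card : ℝ) ≤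
      ((ext t ∩ avoid S).card : ℝ) := by
  classical
  have hot : ∀ p ∈ t, p.1 ≠ o := by
    intro p hp h
    have h1 := (hM p (mem_insert_of_mem hp) (o, i) (mem_insert_self _ _)).1 h
    have h2 : p = (o, i) := Prod.ext h h1
    exact hoi (h2 ▸ hp)
  have h1 := sum_ext_split t (fun π => if π ∈ avoid S then (1 : ℝ) else 0) o hot
  have h2 : ∀ s : Finset (O × I), ∑ π ∈ ext s, (if π ∈ avoid S then (1 : ℝ) else 0) =
      ((ext s ∩ avoid S).card : ℝ) := by
    intro s
    rw [Finset.sum_boole, Finset.filter_mem_eq_inter]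
  rw [h2, Finset.sum_congr rfl fun j _ => h2 _] at h1
  rw [h1]
  have h3 : (freeI t).card = Fintype.card O - t.card := by
    have := card_freeI (hM.subset (Finset.subset_insert _ _))
    omega
  rw [← h3, ← nsmul_eq_mul]
  refine Finset.card_nsmul_le_sum _ _ _ fun j hj => ?_
  exact_mod_cast card_switch_le hoi hM hj S hS

theorem neg_dep (hOI : Fintype.card O = Fintype.card I) (M : Finset (O × I)) (hM : IsPM M)
    (S : Finset (Finset (O × I))) (hS : ∀ N ∈ S, IsPM (M ∪ N)) :
    ((ext M ∩ avoid S).card : ℝ) * ((Fintype.card O).factorial : ℝ) ≤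
      ((Fintype.card O - M.card).factorial : ℝ) * ((avoid S).card : ℝ) := by
  induction M using Finset.induction_on with
  | empty =>
    have h1 : (ext (∅ : Finset (O × I)) ∩ avoid S) = avoid S := by
      refine Finset.inter_eq_right.2 fun π _ => ?_
      rw [mem_ext]
      simp
    rw [h1, Finset.card_empty, Nat.sub_zero, mul_comm]
  | @insert a t hat ih =>
    obtain ⟨o, i⟩ := a
    have ht : IsPM t := hM.subset (Finset.subset_insert _ _)
    have h1 := ih ht fun N hN => (hS N hN).subset
      (Finset.union_subset_union (Finset.subset_insert _ _) (Finset.Subset.refl _))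
    have h2 := card_step hOI hat hM S hS
    have h3 : t.card + 1 ≤ Fintype.card O := by
      have h4 := card_freeO hM
      rw [Finset.card_insert_of_notMem hat] at h4
      omega
    rw [Finset.card_insert_of_notMem hat]
    obtain ⟨k, hk⟩ : ∃ k, Fintype.card O - t.card = k + 1 := ⟨Fintype.card O - t.card - 1, by omega⟩
    have hk2 : Fintype.card O - (t.card + 1) = k := by omega
    rw [hk, Nat.factorial_succ] at h1
    rw [hk] at h2
    rw [hk2]
    have hkpos : (0 : ℝ) < ((k + 1 : ℕ) : ℝ) := by positivity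
    have hf : (0 : ℝ) ≤ ((Fintype.card O).factorial : ℝ) := by positivity
    have h5 := mul_le_mul_of_nonneg_right h2 hf
    have h6 := h5.trans h1
    rw [Nat.cast_mul, mul_assoc, mul_assoc] at h6
    exact le_of_mul_le_mul_left h6 hkpos

end H95.DCM
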