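import Pool.Agent.H95.DCM.Explore

/-!
# Probability that both explorations from `v` are large

Proof. Backward: for a state `(s, D, P)` of the forward exploration (s₀ = ∅, F = {v}) with
`s.card ≤ T`, apply `explore` to the reversed data (`O` and `I` exchanged, `src := tgt`,
`tgt := src`, `s₀ := s.image Prod.swap`, `F := D`, same `v`) with `G π := if FarIn .. then 1 else 0`,
`α = 1`, `β = 0`.
Forward: `explore` with `s₀ = ∅`, `F = {v}`, `G π = 1` iff `FarOut ∧ FarIn`,
`α = 2 (deg tgt v) q L`, `β = (deg tgt v) c L / (m - 2T)`. The hits are the `deg tgt v`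
in-half-edges of `v`.
-/

open Finset

namespace H95.DCM

theorem step_swap {V : Type*} (R : V → V → Prop) (k : ℕ) (u w : V) :
    Step (fun x y => R y x) k u w ↔ Step R k w u := by
  have key : ∀ (R : V → V → Prop) (k : ℕ) (u w x : V), R u w → Step R k w x →
      Step R (k + 1) u x := by
    intro R k
    induction k with
    | zero =>
      intro u w x h1 h2
      exact ⟨u, rfl, by rwa [show w = x from h2] at h1⟩
    | succ k ih =>
      intro u w x h1 h2
      obtain ⟨y, hy, hyx⟩ := h2
      exact ⟨y, ih u w y h1 hy, hyx⟩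
  have main : ∀ (R : V → V → Prop) (k : ℕ) (u w : V), Step (fun x y => R y x) k u w →
      Step R k w u := by
    intro R k
    induction k with
    | zero =>
      intro u w h
      exact (show u = w from h).symm
    | succ k ih =>
      intro u w h
      obtain ⟨y, hy, hyw⟩ := h
      exact key R k w y u hyw (ih u y hy)
  constructor
  · exact main R k u w
  · intro h
    exact main (fun x y => R y x) k w u h

section
variable {V O I : Type*} [DecidableEq V] [Fintype O] [DecidableEq O] [Fintype I]
  [DecidableEq I]

theorem Inv.not_farOut {src : O → V} {tgt : I → V} {s₀ : Finset (O × I)} {F : Finset V} {v : V}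
    {L : ℕ} {s : Finset (O × I)} {D : Finset V} (hsF : ∀ p ∈ s₀, src p.1 ∈ F ∧ src p.1 ≠ v)
    (hI : Inv src tgt s₀ F v L s D []) (π : O ≃ I) (hπ : π ∈ ext s) :
    ¬ FarOut (Adj src tgt π) L v := by
  rintro ⟨w, ⟨k, hk⟩, hw⟩
  have hmem : ∀ k w, Step (Adj src tgt π) k v w → w ∈ D := by
    intro k
    induction k with
    | zero =>
      intro w h
      rw [← show v = w from h]
      exact hI.vD
    | succ k ih =>
      intro w h
      obtain ⟨u, hu, o, ho, how⟩ := h
      have huD := ih u hu
      rcases hI.cover o (by rw [ho]; exact huD) with ⟨i, hi⟩ | ⟨k', hk'⟩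
      · have hπo : π o = i := mem_extE.1 hπ (o, i) hi
        by_cases h0 : (o, i) ∈ s₀
        · exfalso
          have h1 := hsF _ h0
          exact h1.2 (hI.inter _ (by simp only; rw [ho]; exact huD) h1.1)
        · have := (hI.tgt_mem _ hi h0).1
          rw [← how, hπo]
          exact this
      · simp at hk'
  obtain ⟨k', hk', hst⟩ := hI.depthD w (hmem k w hk) π hπ
  exact hw k' hk' hst

omit [DecidableEq V] [Fintype O] [DecidableEq O] [Fintype I] [DecidableEq I] in
theorem adj_symm (src : O → V) (tgt : I → V) (π : I ≃ O) :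
    Adj tgt src π = fun u w => Adj src tgt π.symm w u := by
  funext u w
  apply propext
  constructor
  · rintro ⟨i, hi, h⟩
    exact ⟨π i, h, by simpa using hi⟩
  · rintro ⟨o, ho, h⟩
    exact ⟨π.symm o, h, by simpa using ho⟩

omit [DecidableEq V] [Fintype O] [DecidableEq O] [Fintype I] [DecidableEq I] in
theorem farIn_iff (src : O → V) (tgt : I → V) (π : I ≃ O) (L : ℕ) (v : V) :
    FarIn (Adj src tgt π.symm) L v ↔ FarOut (Adj tgt src π) L v := by
  rw [adj_symm src tgt π]
  unfold FarIn FarOut Reaches
  simp only [step_swap]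

end

variable {V O I : Type*} [Fintype V] [DecidableEq V] [Fintype O] [DecidableEq O] [Fintype I]
  [DecidableEq I]

open Classical in
theorem mid_bound (src : O → V) (tgt : I → V) (hOI : Fintype.card O = Fintype.card I)
    {L T : ℕ} {δ γ ρ : ℝ} {q c : ℕ → ℝ} (hN : Num L T δ γ ρ q c) (hm : 2 * T < Fintype.card O)
    (hQ : ∑ v, (deg tgt v : ℝ) * (deg src v : ℝ) ≤ (1 + δ) * ((Fintype.card O : ℝ) - 2 * T))
    (hn : ρ * (Fintype.card O : ℝ) ≤
      ((univ.filter fun v => 1 ≤ deg tgt v ∧ 2 ≤ deg src v).card : ℝ) - (2 * T + 2))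
    (hn' : ρ * (Fintype.card O : ℝ) ≤
      ((univ.filter fun v => 1 ≤ deg src v ∧ 2 ≤ deg tgt v).card : ℝ) - (2 * T + 2))
    (v : V) :
    ((univ.filter fun π : O ≃ I =>
      FarOut (Adj src tgt π) L v ∧ FarIn (Adj src tgt π) L v).card : ℝ) ≤
      ((Fintype.card O).factorial : ℝ) * ((deg src v : ℝ) * (deg tgt v : ℝ) *
        (4 * (q L) ^ 2 + c L * ((1 + δ) ^ L + 1) / ((Fintype.card O : ℝ) - 2 * T))) := by
  have hmR : (2 * T : ℝ) < Fintype.card O := by exact_mod_cast hm
  have hM : 0 < (Fintype.card O : ℝ) - 2 * T := by linarith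
  have hδ1 : (1 : ℝ) ≤ 1 + δ := by linarith [hN.δ0]
  have hc0 : ∀ k, 0 ≤ c k := by
    intro k
    induction k with
    | zero => rw [hN.c0]
    | succ k ih =>
      rw [hN.cstep]
      nlinarith
  have hqL := hN.q_nonneg L
  -- backward
  have back : ∀ s D P, Inv src tgt ∅ {v} v L s D P → s.card ≤ T →
      ∑ π ∈ ext s, (if FarIn (Adj src tgt π) L v then (1 : ℝ) else 0) ≤
        ((Fintype.card O - s.card).factorial : ℝ) *
          ((deg tgt v : ℝ) * (2 * q L + c L * P.length / ((Fintype.card O : ℝ) - 2 * T))) := by
    intro s D P hI hs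
    rw [sum_ext_swap]
    have hcs : (s.image Prod.swap).card = s.card :=
      card_image_of_injective _ Prod.swap_injective
    have hsF : ∀ p ∈ s.image Prod.swap, tgt p.1 ∈ D ∧ src p.2 ∈ D ∧ tgt p.1 ≠ v := by
      intro p hp
      obtain ⟨x, hx, rfl⟩ := mem_image.1 hp
      have h1 := hI.tgt_mem x hx (by simp)
      have h2 := hI.src_mem x hx (by simp)
      exact ⟨h1.1, h2, by simpa using h1.2⟩
    have key := explore tgt src hOI.symm (L := L) (T := T) (δ := δ) (γ := γ) (ρ := ρ) (q := q)
      (c := c) hN (by rw [← hOI]; exact hm)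
      (by
        rw [← hOI]
        refine le_trans (le_of_eq ?_) hQ
        exact Finset.sum_congr rfl fun v _ => mul_comm _ _)
      (by rw [← hOI]; exact hn') (s.image Prod.swap) D v (isPM_swap hI.pm) (by omega)
      (by have := hI.cardD; simp at this; omega) hI.vD hsF
      (fun π => if FarIn (Adj src tgt π.symm) L v then 1 else 0)
      (fun π => by split_ifs <;> norm_num)
      (fun π => by split_ifs <;> norm_num) 1 0 zero_le_one le_rfl
      (by
        intro s' D' hI' π hπ
        have h1 := hI'.not_farOut (fun p hp => ⟨(hsF p hp).1, (hsF p hp).2.2⟩) π hπ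
        rw [if_neg]
        rw [farIn_iff]
        exact h1)
      (by
        intro s' D' P' hI' _
        calc ∑ π ∈ ext s', (if FarIn (Adj src tgt π.symm) L v then (1 : ℝ) else 0)
            ≤ ∑ π ∈ ext s', (1 : ℝ) := Finset.sum_le_sum fun π _ => by split_ifs <;> norm_num
          _ = ((ext s').card : ℝ) := by simp
          _ = ((Fintype.card I - s'.card).factorial : ℝ) := by rw [card_ext hOI.symm hI'.pm]
          _ = _ := by ring)
    rw [hcs] at key
    rw [← hOI] at key
    refine key.trans ?_
    apply mul_le_mul_of_nonneg_left _ (Nat.cast_nonneg _)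
    apply mul_le_mul_of_nonneg_left _ (Nat.cast_nonneg _)
    have hcard : (((freeI (s.image Prod.swap)).filter fun o => src o ∈ D).card : ℝ) ≤ P.length := by
      have hsub : ((freeI (s.image Prod.swap)).filter fun o => src o ∈ D) ⊆
          (P.map Prod.fst).toFinset := by
        intro o ho
        obtain ⟨h1, h2⟩ := mem_filter.1 ho
        rcases hI.cover o h2 with ⟨i, hi⟩ | ⟨k, hk⟩
        · exfalso
          exact mem_freeI.1 h1 (i, o) (mem_image.2 ⟨(o, i), hi, rfl⟩) rfl
        · rw [List.mem_toFinset, List.mem_map]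
          exact ⟨(o, k), hk, rfl⟩
      have h3 := (card_le_card hsub).trans (List.toFinset_card_le _)
      rw [List.length_map] at h3
      exact_mod_cast h3
    have h4 : c L * (((freeI (s.image Prod.swap)).filter fun o => src o ∈ D).card : ℝ) /
        ((Fintype.card O : ℝ) - 2 * T) ≤ c L * P.length / ((Fintype.card O : ℝ) - 2 * T) := by
      apply div_le_div_of_nonneg_right _ hM.le
      exact mul_le_mul_of_nonneg_left hcard (hc0 L)
    linarith
  -- forward
  have fwd := explore src tgt hOI (L := L) (T := T) (δ := δ) (γ := γ) (ρ := ρ) (q := q)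
      (c := c) hN hm hQ hn ∅ {v} v isPM_empty (by simp) (by simp) (by simp) (by simp)
      (fun π => if FarOut (Adj src tgt π) L v ∧ FarIn (Adj src tgt π) L v then 1 else 0)
      (fun π => by split_ifs <;> norm_num)
      (fun π => by split_ifs <;> norm_num)
      (2 * (deg tgt v : ℝ) * q L) ((deg tgt v : ℝ) * c L / ((Fintype.card O : ℝ) - 2 * T))
      (by positivity) (div_nonneg (mul_nonneg (Nat.cast_nonneg _) (hc0 L)) hM.le)
      (by
        intro s D hI π hπ
        have h1 := hI.not_farOut (by simp) π hπ
        rw [if_neg]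
        exact fun h => h1 h.1)
      (by
        intro s D P hI hs
        have hs' : s.card ≤ T := by simpa using hs
        calc ∑ π ∈ ext s, (if FarOut (Adj src tgt π) L v ∧ FarIn (Adj src tgt π) L v
                then (1 : ℝ) else 0)
            ≤ ∑ π ∈ ext s, (if FarIn (Adj src tgt π) L v then (1 : ℝ) else 0) := by
              apply Finset.sum_le_sum
              intro π _
              by_cases h : FarIn (Adj src tgt π) L v
              · simp only [h, and_true, if_true]
                split_ifs <;> norm_num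
              · simp [h]
          _ ≤ _ := back s D P hI hs'
          _ = _ := by ring)
  have hext : ext (∅ : Finset (O × I)) = univ := by
    ext π
    simp [ext]
  have hfree : freeI (∅ : Finset (O × I)) = univ := by
    ext i
    simp [freeI]
  have hdeg : ((univ : Finset I).filter fun i => tgt i ∈ ({v} : Finset V)).card = deg tgt v := by
    unfold deg
    simp
  rw [hext, hfree, hdeg, Finset.sum_boole, card_empty, Nat.sub_zero] at fwd
  refine fwd.trans (le_of_eq ?_)
  ring

end H95.DCM
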